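import Pool.Agent.H36.BP.Defs

/-!
# BP OrdDefs: entire curves of order at most two

The characteristic function of an entire curve `f` in `ℙ(V)` is `T_f(r) = inf (-log |F 0|)` over the holomorphic lifts `F` of `f` to the disc of radius `r` (zeros allowed) with
`|F| ≤ 1`.  `OrdTwo f`: `T_f(r) ≤ C (1 + r²)` for all `r > 0`.
-/

set_option autoImplicit false

namespace Pool.Agent.H36.BP

open Metric

/-- `f` is an entire curve in `ℙ(V)` of order at most two and of finite type: `T_f(r) ≤ C₀ (1 + r²)` -/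
def OrdTwo {V : Type} [NormedAddCommGroup V] [NormedSpace ℂ V] (f : ℂ → V) : Prop :=
  ∃ C₀ : ℝ, ∀ r : ℝ, 0 < r → ∃ F : ℂ → V, DifferentiableOn ℂ F (ball 0 r) ∧ (∀ z ∈ ball (0 : ℂ) r, ‖F z‖ ≤ 1) ∧
    Real.exp (-(C₀ * (1 + r ^ 2))) ≤ ‖F 0‖ ∧ ∀ z ∈ ball (0 : ℂ) r, F z = 0 ∨ ∃ c : ℂ, c ≠ 0 ∧ f z = c • F z

/-- every entire curve of order at most two in `K` which is not constant as a map into projective space lies in `B` -/
def BrodyMod2 {N : ℕ} (K B : Set (EN N)) : Prop :=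
  ∀ F : ℂ → EN N, Differentiable ℂ F → (∀ z, F z ∈ K) → (∃ z w, ∀ c : ℂ, F z ≠ c • F w) → OrdTwo F → ∀ z, F z ∈ B

theorem OrdTwo.congr {V : Type} [NormedAddCommGroup V] [NormedSpace ℂ V] {f g : ℂ → V} (h : OrdTwo f) (hfg : ∀ z, ∃ c : ℂ, c ≠ 0 ∧ g z = c • f z) :
    OrdTwo g := by
  obtain ⟨C₀, h⟩ := h
  refine ⟨C₀, fun r hr => ?_⟩
  obtain ⟨F, h1, h2, h3, h4⟩ := h r hr
  refine ⟨F, h1, h2, h3, fun z hz => ?_⟩
  rcases h4 z hz with h5 | ⟨c, hc, h5⟩
  · exact Or.inl h5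
  · obtain ⟨c', hc', h6⟩ := hfg z
    exact Or.inr ⟨c' * c, mul_ne_zero hc' hc, by rw [h6, h5, smul_smul]⟩

/-- the image under a linear map which does not decrease the norm of the normalised lifts at `0` too much -/
theorem OrdTwo.map {V W : Type} [NormedAddCommGroup V] [NormedSpace ℂ V] [NormedAddCommGroup W] [NormedSpace ℂ W] (L : V →L[ℂ] W) {f : ℂ → V} (h : OrdTwo f)
    {c : ℝ} (hc : 0 < c) (hL : ∀ x, c * ‖x‖ ≤ ‖L x‖) : OrdTwo fun z => L (f z) := by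
  obtain ⟨C₀, h⟩ := h
  set M : ℝ := max ‖L‖ 1 with hM
  have hM1 : 1 ≤ M := le_max_right _ _
  have hM0 : 0 < M := lt_of_lt_of_le one_pos hM1
  refine ⟨max C₀ 0 + |Real.log (c / M)|, fun r hr => ?_⟩
  obtain ⟨F, h1, h2, h3, h4⟩ := h r hr
  have hMc : (M : ℂ) ≠ 0 := by exact_mod_cast hM0.ne'
  refine ⟨fun z => (M : ℂ)⁻¹ • L (F z), ?_, ?_, ?_, ?_⟩
  · exact (L.differentiable.comp_differentiableOn h1).const_smul _
  · intro z hz
    rw [norm_smul, norm_inv, Complex.norm_real, Real.norm_of_nonneg hM0.le, inv_mul_le_iff₀ hM0, mul_one]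
    calc ‖L (F z)‖ ≤ ‖L‖ * ‖F z‖ := L.le_opNorm _
      _ ≤ M * 1 := mul_le_mul (le_max_left _ _) (h2 z hz) (norm_nonneg _) hM0.le
      _ = M := mul_one _
  · rw [norm_smul, norm_inv, Complex.norm_real, Real.norm_of_nonneg hM0.le]
    have hcM : 0 < c / M := div_pos hc hM0
    have h5 : Real.exp (-((max C₀ 0 + |Real.log (c / M)|) * (1 + r ^ 2))) ≤ (c / M) * Real.exp (-(C₀ * (1 + r ^ 2))) := by
      conv_rhs => rw [← Real.exp_log hcM, ← Real.exp_add]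
      apply Real.exp_le_exp.mpr
      have h6 : C₀ * (1 + r ^ 2) ≤ max C₀ 0 * (1 + r ^ 2) := mul_le_mul_of_nonneg_right (le_max_left _ _) (by positivity)
      have h7 : |Real.log (c / M)| * 1 ≤ |Real.log (c / M)| * (1 + r ^ 2) := mul_le_mul_of_nonneg_left (by nlinarith [sq_nonneg r]) (abs_nonneg _)
      have h8 := neg_abs_le (Real.log (c / M))
      nlinarith
    refine h5.trans ?_
    calc c / M * Real.exp (-(C₀ * (1 + r ^ 2))) ≤ c / M * ‖F 0‖ := mul_le_mul_of_nonneg_left h3 hcM.le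
      _ = M⁻¹ * (c * ‖F 0‖) := by rw [div_eq_inv_mul]; ring
      _ ≤ M⁻¹ * ‖L (F 0)‖ := mul_le_mul_of_nonneg_left (hL _) (inv_nonneg.mpr hM0.le)
  · intro z hz
    rcases h4 z hz with h5 | ⟨k, hk, h5⟩
    · left
      simp only
      rw [h5, map_zero, smul_zero]
    · right
      refine ⟨k * M, mul_ne_zero hk hMc, ?_⟩
      simp only
      rw [h5, map_smul, smul_smul, mul_assoc, mul_inv_cancel₀ hMc, mul_one]

/-- linear isomorphisms preserve the order -/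
theorem OrdTwo.equiv {V W : Type} [NormedAddCommGroup V] [NormedSpace ℂ V] [NormedAddCommGroup W] [NormedSpace ℂ W] (L : V ≃L[ℂ] W) {f : ℂ → V} (h : OrdTwo f) :
    OrdTwo fun z => L (f z) := by
  set M : ℝ := max ‖(L.symm : W →L[ℂ] V)‖ 1 with hM
  have hM0 : 0 < M := lt_of_lt_of_le one_pos (le_max_right _ _)
  refine h.map (L : V →L[ℂ] W) (c := M⁻¹) (inv_pos.mpr hM0) fun x => ?_
  rw [inv_mul_le_iff₀ hM0]
  have h1 := (L.symm : W →L[ℂ] V).le_opNorm (L x)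
  have h2 : (L.symm : W →L[ℂ] V) (L x) = x := L.symm_apply_apply x
  rw [h2] at h1
  exact h1.trans (mul_le_mul_of_nonneg_right (le_max_left _ _) (norm_nonneg _))

end Pool.Agent.H36.BP
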