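import Pool.Agent.H36.BP.SubA
import Pool.Agent.H36.BP.WdA

/-!
# BP SubC: norms and wedge norms of holomorphic curves

* `norm_rpow`: `x₀ = F z₀`, `α z = ⟨x₀, F z⟩/|x₀|²` (holomorphic), `W = F - α x₀ ⊥ x₀`, `|F|² = |α|²|x₀|² + |W|²`, `W z = (z - z₀)(W₁ + o(1))`,
  `|W₁| = wd x₀ F'(z₀)/|x₀|`; so `|F|^a = |α x₀|^a (1 + |W|²/|α x₀|²)^(a/2)` and `log(1+y) ~ y`; exponent `(a/2)|W₁|²/|x₀|² = a e²/2`, `e = fs x₀ F'(z₀)`.
  Valid for every real `a` (for `a < 0`: `(1+y)^(a/2) ≥ exp(a y/2)`).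
* `wedge`: `wd_norming` at `z₀`, `h z = ⟨a,F⟩⟨b,F'⟩ - ⟨b,F⟩⟨a,F'⟩` is holomorphic, `|h| ≤ wd F F'` (`gram_proj`), equality at `z₀`.
* `fs_curve`: `fs F F' = wd F F' * ‖F‖^(-2)`: exponent `0 - e²`.
-/

set_option autoImplicit false

namespace Pool.Agent.H36.BP

open Filter Topology Metric

variable {N : ℕ}

/-- the coefficient of the projection of `v` to the line of `x` -/
private noncomputable def SubC_c (x v : EN N) : ℂ := (((‖x‖ ^ 2 : ℝ) : ℂ))⁻¹ * inner ℂ x v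

/-- the projection orthogonal to `x` -/
private noncomputable def SubC_P (x : EN N) : EN N →L[ℂ] EN N :=
  ContinuousLinearMap.id ℂ (EN N) - (((((‖x‖ ^ 2 : ℝ) : ℂ))⁻¹) • innerSL ℂ x).smulRight x

private theorem SubC_P_apply (x v : EN N) : SubC_P x v = v - SubC_c x v • x := by
  simp [SubC_P, SubC_c]

private theorem SubC_inner {F : ℂ → EN N} {z₀ : ℂ} (hF : AnalyticAt ℂ F z₀) (x : EN N) :
    AnalyticAt ℂ (fun z => (innerSL ℂ x) (F z)) z₀ :=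
  ((innerSL ℂ x).analyticAt (F z₀)).comp hF

private theorem SubC_self {x : EN N} (hx : x ≠ 0) : SubC_c x x = 1 := by
  unfold SubC_c
  rw [inner_self_eq_norm_sq_to_K]
  have h : (((‖x‖ ^ 2 : ℝ) : ℂ)) ≠ 0 := by
    have := norm_ne_zero_iff.mpr hx
    exact_mod_cast pow_ne_zero 2 this
  have h2 : ((‖x‖ : ℂ)) ^ 2 = (((‖x‖ ^ 2 : ℝ) : ℂ)) := by push_cast; rfl
  show (((‖x‖ ^ 2 : ℝ) : ℂ))⁻¹ * ((‖x‖ : ℂ)) ^ 2 = 1
  rw [h2, inv_mul_cancel₀ h]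

private theorem SubC_orth {x : EN N} (hx : x ≠ 0) (v : EN N) :
    inner ℂ x (SubC_P x v) = (0 : ℂ) := by
  rw [SubC_P_apply, inner_sub_right, inner_smul_right]
  have h1 := SubC_self hx
  unfold SubC_c at h1 ⊢
  have h3 : (((‖x‖ ^ 2 : ℝ) : ℂ))⁻¹ * inner ℂ x v * inner ℂ x x =
      inner ℂ x v * ((((‖x‖ ^ 2 : ℝ) : ℂ))⁻¹ * inner ℂ x x) := by ring
  rw [h3, h1, mul_one, sub_self]

private theorem SubC_norm {x : EN N} (hx : x ≠ 0) (v : EN N) :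
    ‖v‖ ^ 2 = ‖SubC_c x v‖ ^ 2 * ‖x‖ ^ 2 + ‖SubC_P x v‖ ^ 2 := by
  have h1 : inner ℂ (SubC_c x v • x) (SubC_P x v) = (0 : ℂ) := by
    rw [inner_smul_left, SubC_orth hx, mul_zero]
  have h2 := norm_add_sq_eq_norm_sq_add_norm_sq_of_inner_eq_zero _ _ h1
  have h3 : SubC_c x v • x + SubC_P x v = v := by rw [SubC_P_apply]; abel
  rw [h3, norm_smul] at h2
  nlinarith [h2]

private theorem SubC_wd {x : EN N} (hx : x ≠ 0) (v : EN N) :
    wd x v ^ 2 = ‖x‖ ^ 2 * ‖SubC_P x v‖ ^ 2 := by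
  rw [wd_sq]
  have h1 := SubC_norm hx v
  have hn : 0 < ‖x‖ := norm_pos_iff.mpr hx
  have h2 : ‖SubC_c x v‖ = (‖x‖ ^ 2)⁻¹ * ‖(inner ℂ x v : ℂ)‖ := by
    unfold SubC_c
    rw [norm_mul, norm_inv, Complex.norm_real, Real.norm_of_nonneg (by positivity)]
  rw [h2] at h1
  have h3 : ((‖x‖ ^ 2)⁻¹ * ‖(inner ℂ x v : ℂ)‖) ^ 2 * ‖x‖ ^ 2 * ‖x‖ ^ 2 =
      ‖(inner ℂ x v : ℂ)‖ ^ 2 := by field_simp
  have h4 : ‖x‖ ^ 2 * ‖v‖ ^ 2 = ((‖x‖ ^ 2)⁻¹ * ‖(inner ℂ x v : ℂ)‖) ^ 2 * ‖x‖ ^ 2 * ‖x‖ ^ 2 +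
      ‖x‖ ^ 2 * ‖SubC_P x v‖ ^ 2 := by rw [h1]; ring
  rw [h4, h3]
  ring

private theorem SubC_fs {x : EN N} (hx : x ≠ 0) (v : EN N) :
    fs x v ^ 2 = ‖SubC_P x v‖ ^ 2 / ‖x‖ ^ 2 := by
  have hn : 0 < ‖x‖ := norm_pos_iff.mpr hx
  unfold fs
  rw [div_pow, SubC_wd hx]
  field_simp

theorem Sub.norm_rpow {F : ℂ → EN N} {z₀ : ℂ} (hF : AnalyticAt ℂ F z₀) (h0 : F z₀ ≠ 0) (a : ℝ) :
    Sub (fun z => ‖F z‖ ^ a) z₀ (a * fs (F z₀) (deriv F z₀) ^ 2 / 2) := by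
  obtain ⟨x₀, hx₀⟩ : ∃ x₀, x₀ = F z₀ := ⟨_, rfl⟩
  rw [← hx₀] at h0 ⊢
  have hn : 0 < ‖x₀‖ := norm_pos_iff.mpr h0
  obtain ⟨α, hα⟩ : ∃ α : ℂ → ℂ, ∀ z, α z = SubC_c x₀ (F z) := ⟨_, fun _ => rfl⟩
  obtain ⟨W, hW⟩ : ∃ W : ℂ → EN N, ∀ z, W z = SubC_P x₀ (F z) := ⟨_, fun _ => rfl⟩
  have hαan : AnalyticAt ℂ α z₀ := by
    have h1 : α = fun z => (((‖x₀‖ ^ 2 : ℝ) : ℂ))⁻¹ * (innerSL ℂ x₀) (F z) := by
      funext z
      rw [hα]
      rfl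
    rw [h1]
    exact analyticAt_const.mul (SubC_inner hF x₀)
  have hα0 : α z₀ = 1 := by rw [hα, ← hx₀, SubC_self h0]
  have hW0 : W z₀ = 0 := by
    rw [hW, ← hx₀, SubC_P_apply, SubC_self h0, one_smul, sub_self]
  have hWd : HasDerivAt W (SubC_P x₀ (deriv F z₀)) z₀ := by
    have h1 := (SubC_P x₀).hasFDerivAt.comp_hasDerivAt z₀ hF.differentiableAt.hasDerivAt
    have h2 : W = (SubC_P x₀) ∘ F := by
      funext z
      exact hW z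
    rw [h2]
    exact h1
  obtain ⟨y, hy⟩ : ∃ y : ℂ → ℝ, ∀ z, y z = ‖W z‖ ^ 2 / (‖α z‖ ^ 2 * ‖x₀‖ ^ 2) :=
    ⟨_, fun _ => rfl⟩
  have hαt : Tendsto α (𝓝 z₀) (𝓝 1) := by
    have := hαan.continuousAt.tendsto
    rwa [hα0] at this
  have hαne : ∀ᶠ z in 𝓝 z₀, α z ≠ 0 := hαt.eventually_ne one_ne_zero
  have hden : Tendsto (fun z => ‖α z‖ ^ 2 * ‖x₀‖ ^ 2) (𝓝 z₀) (𝓝 (‖x₀‖ ^ 2)) := by
    have h1 := (hαt.norm.pow 2).mul_const (‖x₀‖ ^ 2)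
    rw [norm_one, one_pow, one_mul] at h1
    exact h1
  have hsq : ‖x₀‖ ^ 2 ≠ 0 := by positivity
  have hyt : Tendsto y (𝓝 z₀) (𝓝 0) := by
    have h1 : Tendsto (fun z => ‖W z‖ ^ 2) (𝓝 z₀) (𝓝 0) := by
      have h2 := (hWd.continuousAt.tendsto.norm.pow 2)
      rw [hW0, norm_zero] at h2
      simpa using h2
    have h3 := h1.div hden hsq
    rw [zero_div] at h3
    exact h3.congr fun z => (hy z).symm
  have hyq : Tendsto (fun z => y z / ‖z - z₀‖ ^ 2) (𝓝[≠] z₀)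
      (𝓝 (fs x₀ (deriv F z₀) ^ 2)) := by
    have h1 := hWd.tendsto_slope
    have h2 := (h1.norm.pow 2).div (hden.mono_left nhdsWithin_le_nhds) hsq
    rw [SubC_fs h0]
    refine h2.congr' ?_
    filter_upwards [self_mem_nhdsWithin] with z hz
    have hz' : z - z₀ ≠ 0 := sub_ne_zero.mpr hz
    show ‖slope W z₀ z‖ ^ 2 / (‖α z‖ ^ 2 * ‖x₀‖ ^ 2) = y z / ‖z - z₀‖ ^ 2
    rw [hy, slope_def_module, hW0, sub_zero, norm_smul, norm_inv]
    have h3 : ‖z - z₀‖ ≠ 0 := norm_ne_zero_iff.mpr hz'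
    rw [mul_pow, inv_pow]
    simp only [div_eq_mul_inv]
    ring
  have hy0 : ∀ z, 0 ≤ y z := fun z => by rw [hy]; positivity
  -- the lower bound of the logarithm
  have hlog : ∀ c' : ℝ, c' < a * fs x₀ (deriv F z₀) ^ 2 / 2 →
      ∀ᶠ z in 𝓝 z₀, c' * ‖z - z₀‖ ^ 2 ≤ a / 2 * Real.log (1 + y z) := by
    intro c' hc'
    have hmain : ∀ᶠ z in 𝓝[≠] z₀, c' * ‖z - z₀‖ ^ 2 ≤ a / 2 * Real.log (1 + y z) := by
      rcases le_or_gt 0 a with ha | ha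
      · have h1 : Tendsto (fun z => a / 2 * (y z / ‖z - z₀‖ ^ 2 / (1 + y z))) (𝓝[≠] z₀)
            (𝓝 (a / 2 * (fs x₀ (deriv F z₀) ^ 2 / (1 + 0)))) :=
          (hyq.div ((hyt.mono_left nhdsWithin_le_nhds).const_add 1) (by norm_num)).const_mul _
        have h2 : c' < a / 2 * (fs x₀ (deriv F z₀) ^ 2 / (1 + 0)) := by
          rw [add_zero, div_one]; linarith
        filter_upwards [h1.eventually_const_lt h2, self_mem_nhdsWithin] with z hz hz'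
        have h3 : 0 < ‖z - z₀‖ := norm_pos_iff.mpr (sub_ne_zero.mpr hz')
        have h4 : 0 < 1 + y z := by linarith [hy0 z]
        have h5 : y z / (1 + y z) ≤ Real.log (1 + y z) := by
          have h6 := Real.one_sub_inv_le_log_of_pos h4
          have h7 : 1 - (1 + y z)⁻¹ = y z / (1 + y z) := by field_simp; ring
          rwa [h7] at h6
        have h8 : c' * ‖z - z₀‖ ^ 2 ≤ a / 2 * (y z / (1 + y z)) := by
          have h9 := mul_le_mul_of_nonneg_right hz.le (sq_nonneg ‖z - z₀‖)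
          have h10 : a / 2 * (y z / ‖z - z₀‖ ^ 2 / (1 + y z)) * ‖z - z₀‖ ^ 2 =
              a / 2 * (y z / (1 + y z)) := by field_simp
          rwa [h10] at h9
        exact h8.trans (mul_le_mul_of_nonneg_left h5 (by linarith))
      · have h1 : Tendsto (fun z => a / 2 * (y z / ‖z - z₀‖ ^ 2)) (𝓝[≠] z₀)
            (𝓝 (a / 2 * fs x₀ (deriv F z₀) ^ 2)) := hyq.const_mul _
        have h2 : c' < a / 2 * fs x₀ (deriv F z₀) ^ 2 := by linarith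
        filter_upwards [h1.eventually_const_lt h2, self_mem_nhdsWithin] with z hz hz'
        have h3 : 0 < ‖z - z₀‖ := norm_pos_iff.mpr (sub_ne_zero.mpr hz')
        have h4 : 0 < 1 + y z := by linarith [hy0 z]
        have h5 : Real.log (1 + y z) ≤ y z := by
          have h6 := Real.log_le_sub_one_of_pos h4
          linarith
        have h8 : c' * ‖z - z₀‖ ^ 2 ≤ a / 2 * y z := by
          have h9 := mul_le_mul_of_nonneg_right hz.le (sq_nonneg ‖z - z₀‖)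
          have h10 : a / 2 * (y z / ‖z - z₀‖ ^ 2) * ‖z - z₀‖ ^ 2 = a / 2 * y z := by field_simp
          rwa [h10] at h9
        refine h8.trans ?_
        exact mul_le_mul_of_nonpos_left h5 (by linarith)
    have h2 : ∀ᶠ z in 𝓝 z₀, z ∈ ({z₀}ᶜ : Set ℂ) →
        c' * ‖z - z₀‖ ^ 2 ≤ a / 2 * Real.log (1 + y z) :=
      eventually_nhdsWithin_iff.mp hmain
    filter_upwards [h2] with z hz
    by_cases h3 : z = z₀
    · subst h3
      rw [hy, hW0]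
      simp
    · exact hz h3
  refine ⟨?_, fun c' hc' => ⟨fun z => ((‖x₀‖ ^ a : ℝ) : ℂ) * (α z) ^ (a : ℂ), ?_, ?_, ?_⟩⟩
  · show 0 < ‖F z₀‖ ^ a
    rw [← hx₀]
    exact Real.rpow_pos_of_pos hn a
  · refine analyticAt_const.mul (hαan.cpow analyticAt_const ?_)
    rw [hα0]
    exact Complex.one_mem_slitPlane
  · show ‖((‖x₀‖ ^ a : ℝ) : ℂ) * (α z₀) ^ (a : ℂ)‖ = ‖F z₀‖ ^ a
    rw [← hx₀, hα0, Complex.one_cpow, mul_one, Complex.norm_real,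
      Real.norm_of_nonneg (Real.rpow_nonneg hn.le a)]
  · filter_upwards [hlog c' hc', hαne] with z hz hz'
    have hα1 : 0 < ‖α z‖ := norm_pos_iff.mpr hz'
    have h1 : ‖((‖x₀‖ ^ a : ℝ) : ℂ) * (α z) ^ (a : ℂ)‖ = (‖α z‖ * ‖x₀‖) ^ a := by
      rw [norm_mul, Complex.norm_real, Real.norm_of_nonneg (Real.rpow_nonneg hn.le a),
        Complex.norm_cpow_of_ne_zero hz']
      simp only [Complex.ofReal_re, Complex.ofReal_im, mul_zero, Real.exp_zero, div_one]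
      rw [Real.mul_rpow hα1.le hn.le, mul_comm]
    have h4 : 0 < 1 + y z := by linarith [hy0 z]
    have h2 : ‖F z‖ ^ 2 = (‖α z‖ * ‖x₀‖) ^ 2 * (1 + y z) := by
      rw [SubC_norm h0 (F z), ← hα, ← hW, hy]
      field_simp
    have h3 : ‖F z‖ = (‖α z‖ * ‖x₀‖) * Real.sqrt (1 + y z) := by
      have h5 : ‖F z‖ = Real.sqrt (‖F z‖ ^ 2) := (Real.sqrt_sq (norm_nonneg _)).symm
      rw [h5, h2, Real.sqrt_mul (by positivity), Real.sqrt_sq (by positivity)]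
    have h5 : ‖F z‖ ^ a = (‖α z‖ * ‖x₀‖) ^ a * Real.exp (a / 2 * Real.log (1 + y z)) := by
      rw [h3, Real.mul_rpow (by positivity) (Real.sqrt_nonneg _)]
      congr 1
      rw [Real.sqrt_eq_rpow, ← Real.rpow_mul h4.le, Real.rpow_def_of_pos h4]
      congr 1
      ring
    show ‖((‖x₀‖ ^ a : ℝ) : ℂ) * (α z) ^ (a : ℂ)‖ * Real.exp (c' * ‖z - z₀‖ ^ 2) ≤ ‖F z‖ ^ a
    rw [h1, h5]
    exact mul_le_mul_of_nonneg_left (Real.exp_le_exp.mpr hz) (Real.rpow_nonneg (by positivity) a)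

theorem Sub.wedge {F : ℂ → EN N} {z₀ : ℂ} (hF : AnalyticAt ℂ F z₀) (h0 : 0 < wd (F z₀) (deriv F z₀)) :
    Sub (fun z => wd (F z) (deriv F z)) z₀ 0 := by
  obtain ⟨a, b, ha, hb, hab, h1⟩ := wd_norming h0
  refine ⟨h0, fun c' hc' => ⟨fun z => (innerSL ℂ a) (F z) * (innerSL ℂ b) (deriv F z) -
    (innerSL ℂ b) (F z) * (innerSL ℂ a) (deriv F z), ?_, h1, ?_⟩⟩
  · have hd := hF.deriv
    exact ((SubC_inner hF a).mul (SubC_inner hd b)).sub ((SubC_inner hF b).mul (SubC_inner hd a))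
  · refine Filter.Eventually.of_forall fun z => ?_
    have h2 := gram_proj ha hb hab (F z) (deriv F z)
    have h3 : Real.exp (c' * ‖z - z₀‖ ^ 2) ≤ 1 := by
      rw [Real.exp_le_one_iff]
      exact mul_nonpos_of_nonpos_of_nonneg hc'.le (sq_nonneg _)
    refine le_trans ?_ h2
    calc ‖(innerSL ℂ a) (F z) * (innerSL ℂ b) (deriv F z) -
          (innerSL ℂ b) (F z) * (innerSL ℂ a) (deriv F z)‖ * Real.exp (c' * ‖z - z₀‖ ^ 2)
        ≤ ‖(innerSL ℂ a) (F z) * (innerSL ℂ b) (deriv F z) -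
          (innerSL ℂ b) (F z) * (innerSL ℂ a) (deriv F z)‖ * 1 :=
          mul_le_mul_of_nonneg_left h3 (norm_nonneg _)
      _ = _ := mul_one _

theorem Sub.fs_curve {F : ℂ → EN N} {z₀ : ℂ} (hF : AnalyticAt ℂ F z₀) (h0 : 0 < fs (F z₀) (deriv F z₀)) :
    Sub (fun z => fs (F z) (deriv F z)) z₀ (-(fs (F z₀) (deriv F z₀)) ^ 2) := by
  have hx : F z₀ ≠ 0 := by
    intro h
    unfold fs at h0
    rw [h, norm_zero] at h0
    simp at h0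
  have hw : 0 < wd (F z₀) (deriv F z₀) := by
    refine lt_of_le_of_ne (wd_nonneg _ _) fun h => ?_
    unfold fs at h0
    rw [← h, zero_div] at h0
    exact lt_irrefl _ h0
  have h1 := (Sub.wedge hF hw).mul (Sub.norm_rpow hF hx (-2))
  have h2 : (0 : ℝ) + -2 * fs (F z₀) (deriv F z₀) ^ 2 / 2 = -(fs (F z₀) (deriv F z₀)) ^ 2 := by
    ring
  rw [h2] at h1
  refine h1.congr (Filter.Eventually.of_forall fun z => ?_)
  show wd (F z) (deriv F z) * ‖F z‖ ^ (-2 : ℝ) = fs (F z) (deriv F z)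
  unfold fs
  rw [Real.rpow_neg (norm_nonneg _), div_eq_mul_inv]
  norm_num

end Pool.Agent.H36.BP
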