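import Pool.Agent.H36.BP.Defs

/-!
# BP Cl: the fields `rel_open`, `hur`, `lim` for a closed cone

`hcl : ∀ x ∈ closure K, x ≠ 0 → x ∈ K` (a closed cone without its vertex).
* `rel_open`: a neighbourhood of `x ≠ 0` does not contain `0`.
* `hur`, `lim`: the assumptions are contradictory: for `k = 0` (or `lim`) `H z₀` is a limit of points `F n z₀ ∈ K`.  In general: `H z ≠ 0` near `z₀`; for `z ≠ z₀` near `z₀` the vector
  `(z - z₀)^k • H z` is a limit of points of `K` and is not `0`, so it is in `K`, and `H z ∈ K` (`smul`); by continuity of `H` at `z₀`, `H z₀ ∈ closure K`, hence `H z₀ ∈ K`.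
-/

set_option autoImplicit false

namespace Pool.Agent.H36.BP

open Filter Topology Metric

variable {N : ℕ}

theorem rel_open_of_closed {K : Set (EN N)} (hne : ∀ x ∈ K, x ≠ 0) (hcl : ∀ x ∈ closure K, x ≠ 0 → x ∈ K) :
    ∀ x ∈ K, ∀ᶠ y in 𝓝 x, y ∈ closure K → y ∈ K := by
  intro x hx
  filter_upwards [isOpen_ne.mem_nhds (hne x hx)] with y hy h
  exact hcl y h hy

private theorem Cl_lim {K : Set (EN N)} {l : Filter ℕ} [l.NeBot] {F : ℕ → ℂ → EN N}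
    {H : ℂ → EN N} {z₀ : ℂ} {s : ℝ}
    (hF : ∀ᶠ n in l, Curve K (Metric.ball z₀ s) (F n))
    (hl : TendstoLocallyUniformlyOn F H l (Metric.ball z₀ s)) {z : ℂ}
    (hz : z ∈ Metric.ball z₀ s) : H z ∈ closure K := by
  have h1 : Tendsto (fun n => F n z) l (𝓝 (H z)) := hl.tendsto_at hz
  refine mem_closure_of_tendsto h1 ?_
  filter_upwards [hF] with n hn
  exact hn.2 z hz

theorem hur_of_closed {K : Set (EN N)} (hsm : ∀ x ∈ K, ∀ c : ℂ, c ≠ 0 → c • x ∈ K) (hcl : ∀ x ∈ closure K, x ≠ 0 → x ∈ K) :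
    ∀ (l : Filter ℕ), l.NeBot → ∀ (F : ℕ → ℂ → EN N) (H : ℂ → EN N) (k : ℕ) (z₀ : ℂ) (s : ℝ), 0 < s →
    (∀ᶠ n in l, Curve K (Metric.ball z₀ s) (F n)) → DifferentiableOn ℂ H (Metric.ball z₀ s) →
    TendstoLocallyUniformlyOn F (fun z => (z - z₀) ^ k • H z) l (Metric.ball z₀ s) → H z₀ ≠ 0 → H z₀ ∉ K → ∀ᶠ z in 𝓝 z₀, H z ∉ K := by
  intro l hl F H k z₀ s hs hF hH hlim h0 hK
  exfalso
  have hb : Metric.ball z₀ s ∈ 𝓝 z₀ := Metric.ball_mem_nhds z₀ hs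
  have hc : ContinuousAt H z₀ := (hH.differentiableAt hb).continuousAt
  have h1 : ∀ᶠ z in 𝓝 z₀, H z ≠ 0 := hc.eventually_ne h0
  have h2 : ∀ᶠ z in 𝓝[≠] z₀, H z ∈ K := by
    filter_upwards [h1.filter_mono nhdsWithin_le_nhds, nhdsWithin_le_nhds hb,
      self_mem_nhdsWithin] with z hz1 hz2 hz3
    have h3 : (z - z₀) ^ k ≠ 0 := pow_ne_zero k (sub_ne_zero.2 hz3)
    have h4 : (z - z₀) ^ k • H z ∈ K := hcl _ (Cl_lim hF hlim hz2) (smul_ne_zero h3 hz1)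
    have h5 := hsm _ h4 ((z - z₀) ^ k)⁻¹ (inv_ne_zero h3)
    rwa [smul_smul, inv_mul_cancel₀ h3, one_smul] at h5
  have h6 : H z₀ ∈ closure K :=
    mem_closure_of_tendsto (hc.tendsto.mono_left nhdsWithin_le_nhds) h2
  exact hK (hcl _ h6 h0)

theorem lim_of_closed {K : Set (EN N)} {G : EN N → EN N → ℝ} (hcl : ∀ x ∈ closure K, x ≠ 0 → x ∈ K) :
    ∀ (l : Filter ℕ), l.NeBot → ∀ (F : ℕ → ℂ → EN N) (H : ℂ → EN N) (z₀ : ℂ) (s : ℝ), 0 < s →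
    (∀ᶠ n in l, Curve K (Metric.ball z₀ s) (F n)) → TendstoLocallyUniformlyOn F H l (Metric.ball z₀ s) → H z₀ ≠ 0 →
    (∀ z ∈ Metric.ball z₀ s, H z ∉ K) → ∀ ε : ℝ, 0 < ε → ∀ᶠ n in l, mt G (F n) z₀ < ε := by
  intro l hl F H z₀ s hs hF hlim h0 hK ε _
  exact absurd (hcl _ (Cl_lim hF hlim (Metric.mem_ball_self hs)) h0)
    (hK z₀ (Metric.mem_ball_self hs))

end Pool.Agent.H36.BP
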