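import Pool.Agent.H14.PP.Defs

/-!
# BP GermChart: from germ-level charts to charts on the bidisc of radius 2

Let `ℓ` be a linear form with `ℓ (σ 0) = 1`, `σ₁ p = (ℓ (σ p))⁻¹ • σ p`, `σ' p = σ₁ (r p)` for a small `r`, `U = {x : ℓ x ≠ 0, x/ℓ x ∈ W₀, |τ (x/ℓ x)| < 2r}`, `q x = τ (x/ℓ x)/r`.
-/

set_option autoImplicit false

namespace Pool.Agent.H36.BP

open Filter Topology Metric

open Pool.Agent.H14.PP (IsCone Chart HasType DType)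

variable {N : ℕ}

/-- germ-level charts -/
structure IsGermChart (X : Set (EN N)) (σ : ℂ × ℂ → EN N) (τ : EN N → ℂ × ℂ) : Prop where
  σ_an : AnalyticAt ℂ σ 0
  σ_mem : ∀ᶠ p in 𝓝 (0 : ℂ × ℂ), σ p ∈ X
  τ_an : AnalyticAt ℂ τ (σ 0)
  left : ∀ᶠ p in 𝓝 (0 : ℂ × ℂ), τ (σ p) = p
  right : ∀ᶠ y in 𝓝 (σ 0), y ∈ X → ∃ c : ℂ, c ≠ 0 ∧ y = c • σ (τ y)
  inv : ∀ᶠ z in 𝓝 (σ 0, (1 : ℂ)), τ (z.2 • z.1) = τ z.1

theorem exists_chart {X K T : Set (EN N)} (hX : IsCone X) (hK : ∀ x ∈ K, ∀ c : ℂ, c ≠ 0 → c • x ∈ K)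
    (hT : ∀ x ∈ T, ∀ c : ℂ, c ≠ 0 → c • x ∈ T) {σ : ℂ × ℂ → EN N} {τ : EN N → ℂ × ℂ} (h : IsGermChart X σ τ) {nd : Bool} {d : Bool × Bool}
    (hnd : ∀ᶠ p in 𝓝 (0 : ℂ × ℂ), (σ p ∈ T ↔ p.1 = 0 ∨ (nd = true ∧ p.2 = 0)))
    (hd : ∀ᶠ p in 𝓝 (0 : ℂ × ℂ), (σ p ∉ K ↔ (d.1 = true ∧ p.1 = 0) ∨ (d.2 = true ∧ p.2 = 0))) :
    ∃ χ : Chart X, σ 0 ∈ χ.U ∧ χ.q (σ 0) = 0 ∧ HasType T χ nd ∧ DType K χ d := by
  have hσ0 : σ 0 ≠ 0 := by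
    intro h0
    have h1 := h.σ_mem.self_of_nhds
    rw [h0] at h1
    exact hX.zero_notMem h1
  -- the linear form
  obtain ⟨ℓ, hℓ⟩ : ∃ ℓ : EN N →L[ℂ] ℂ, ℓ (σ 0) = 1 := by
    have hne : inner ℂ (σ 0) (σ 0) ≠ (0 : ℂ) := inner_self_ne_zero.mpr hσ0
    refine ⟨(inner ℂ (σ 0) (σ 0) : ℂ)⁻¹ • innerSL ℂ (σ 0), ?_⟩
    simp only [_root_.smul_apply, innerSL_apply_apply, smul_eq_mul]
    exact inv_mul_cancel₀ hne
  -- the normalised parametrisation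
  have hℓσ : ContinuousAt (fun p => ℓ (σ p)) 0 := ℓ.continuous.continuousAt.comp h.σ_an.continuousAt
  have hℓne : ∀ᶠ p in 𝓝 (0 : ℂ × ℂ), ℓ (σ p) ≠ 0 := hℓσ.eventually_ne (by rw [hℓ]; exact one_ne_zero)
  have hinvσ : ∀ᶠ p in 𝓝 (0 : ℂ × ℂ), τ ((ℓ (σ p))⁻¹ • σ p) = τ (σ p) := by
    have hc : Tendsto (fun p => (σ p, (ℓ (σ p))⁻¹)) (𝓝 (0 : ℂ × ℂ)) (𝓝 (σ 0, (1 : ℂ))) := by
      have h1 : Tendsto (fun p => (ℓ (σ p))⁻¹) (𝓝 (0 : ℂ × ℂ)) (𝓝 (ℓ (σ 0))⁻¹) := hℓσ.inv₀ (by rw [hℓ]; exact one_ne_zero)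
      rw [hℓ, inv_one] at h1
      exact h.σ_an.continuousAt.prodMk_nhds h1
    exact hc.eventually h.inv
  -- the neighbourhood W₀
  have hW : ∀ᶠ y in 𝓝 (σ 0), AnalyticAt ℂ τ y ∧ (y ∈ X → ∃ c : ℂ, c ≠ 0 ∧ y = c • σ (τ y)) := h.τ_an.eventually_analyticAt.and h.right
  obtain ⟨W₀, hW₀s, hW₀o, hW₀m⟩ := _root_.eventually_nhds_iff.mp hW
  have hσ₁ : Tendsto (fun p => (ℓ (σ p))⁻¹ • σ p) (𝓝 (0 : ℂ × ℂ)) (𝓝 (σ 0)) := by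
    have h1 : Tendsto (fun p => (ℓ (σ p))⁻¹) (𝓝 (0 : ℂ × ℂ)) (𝓝 (ℓ (σ 0))⁻¹) := hℓσ.inv₀ (by rw [hℓ]; exact one_ne_zero)
    have h2 := h1.smul h.σ_an.continuousAt
    rwa [hℓ, inv_one, one_smul] at h2
  have hσ₁W : ∀ᶠ p in 𝓝 (0 : ℂ × ℂ), (ℓ (σ p))⁻¹ • σ p ∈ W₀ := hσ₁.eventually (hW₀o.mem_nhds hW₀m)
  obtain ⟨R, hR, hall⟩ := Metric.eventually_nhds_iff_ball.mp
    ((((((h.σ_an.eventually_analyticAt.and h.σ_mem).and h.left).and hℓne).and hinvσ).and hσ₁W).and (hnd.and hd))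
  set r : ℝ := R / 2 with hr
  have hr0 : 0 < r := by rw [hr]; positivity
  have hrC : (r : ℂ) ≠ 0 := by exact_mod_cast hr0.ne'
  have hball : ∀ p ∈ ball (0 : ℂ × ℂ) 2, (r : ℂ) • p ∈ ball (0 : ℂ × ℂ) R := by
    intro p hp
    rw [mem_ball_zero_iff] at hp ⊢
    rw [norm_smul, Complex.norm_real, Real.norm_of_nonneg hr0.le, hr]
    nlinarith
  have hτσ : ∀ p ∈ ball (0 : ℂ × ℂ) R, τ ((ℓ (σ p))⁻¹ • σ p) = p := by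
    intro p hp
    rw [(hall p hp).1.1.2, (hall p hp).1.1.1.1.2]
  set U : Set (EN N) := {x | ℓ x ≠ 0 ∧ (ℓ x)⁻¹ • x ∈ W₀ ∧ ‖τ ((ℓ x)⁻¹ • x)‖ < R} with hU
  have hmaps : ∀ x : EN N, ℓ x ≠ 0 → ∀ c : ℂ, c ≠ 0 → (ℓ (c • x))⁻¹ • (c • x) = (ℓ x)⁻¹ • x := by
    intro x hx c hc
    rw [map_smul, smul_eq_mul, smul_smul, mul_inv, mul_comm c⁻¹, mul_assoc, inv_mul_cancel₀ hc, mul_one]
  have han1 : ∀ x : EN N, ℓ x ≠ 0 → AnalyticAt ℂ (fun y : EN N => (ℓ y)⁻¹ • y) x := by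
    intro x hx
    exact ((ℓ.analyticAt x).inv hx).smul analyticAt_id
  have hanq : ∀ x ∈ U, AnalyticAt ℂ (fun y : EN N => τ ((ℓ y)⁻¹ • y)) x := by
    intro x hx
    exact AnalyticAt.fun_comp (hW₀s _ hx.2.1).1 (han1 x hx.1)
  have hUopen : IsOpen U := by
    rw [isOpen_iff_mem_nhds]
    intro x hx
    have h1 : ∀ᶠ y in 𝓝 x, ℓ y ≠ 0 := ℓ.continuous.continuousAt.eventually_ne hx.1
    have h2 : ∀ᶠ y in 𝓝 x, (ℓ y)⁻¹ • y ∈ W₀ := (han1 x hx.1).continuousAt.eventually (hW₀o.mem_nhds hx.2.1)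
    have h3 : ∀ᶠ y in 𝓝 x, ‖τ ((ℓ y)⁻¹ • y)‖ < R := (hanq x hx).continuousAt.norm.eventually_lt_const hx.2.2
    filter_upwards [h1, h2, h3] with y h4 h5 h6
    exact ⟨h4, h5, h6⟩
  let χ : Chart X :=
    { σ := fun p => (ℓ (σ ((r : ℂ) • p)))⁻¹ • σ ((r : ℂ) • p)
      U := U
      q := fun x => (r : ℂ)⁻¹ • τ ((ℓ x)⁻¹ • x)
      isOpen_U := hUopen
      smul_U := by
        rintro x ⟨h1, h2, h3⟩ c hc
        refine ⟨?_, ?_, ?_⟩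
        · rw [map_smul, smul_eq_mul]
          exact mul_ne_zero hc h1
        · rw [hmaps x h1 c hc]; exact h2
        · rw [hmaps x h1 c hc]; exact h3
      σ_an := by
        intro p hp
        have h1 := (hall _ (hball p hp)).1.1.1.1.1.1
        have h2 : AnalyticAt ℂ (fun p : ℂ × ℂ => σ ((r : ℂ) • p)) p :=
          AnalyticAt.fun_comp h1 (analyticAt_const.fun_smul analyticAt_id)
        have h3 : AnalyticAt ℂ (fun p : ℂ × ℂ => ℓ (σ ((r : ℂ) • p))) p := (ℓ.analyticAt _).fun_comp h2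
        exact (h3.inv (hall _ (hball p hp)).1.1.1.2).smul h2
      q_an := by
        intro x hx
        exact analyticAt_const.fun_smul (hanq x hx)
      q_smul := by
        rintro x ⟨h1, h2, h3⟩ c hc
        show (r : ℂ)⁻¹ • τ ((ℓ (c • x))⁻¹ • (c • x)) = _
        rw [hmaps x h1 c hc]
      σ_mem := by
        intro p hp
        have hb := hball p hp
        have hh := hall _ hb
        have hne := hh.1.1.1.2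
        have h1 : ℓ ((ℓ (σ ((r : ℂ) • p)))⁻¹ • σ ((r : ℂ) • p)) = 1 := by
          rw [map_smul, smul_eq_mul, inv_mul_cancel₀ hne]
        have h2 : τ ((ℓ (σ ((r : ℂ) • p)))⁻¹ • σ ((r : ℂ) • p)) = (r : ℂ) • p := hτσ _ hb
        refine ⟨hX.smul_mem _ hh.1.1.1.1.1.2 _ (inv_ne_zero hne), ⟨?_, ?_, ?_⟩, ?_⟩
        · rw [h1]; exact one_ne_zero
        · rw [h1, inv_one, one_smul]; exact hh.1.2
        · rw [h1, inv_one, one_smul, h2]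
          exact mem_ball_zero_iff.mp hb
        · show (r : ℂ)⁻¹ • τ ((ℓ ((ℓ (σ ((r : ℂ) • p)))⁻¹ • σ ((r : ℂ) • p)))⁻¹ • ((ℓ (σ ((r : ℂ) • p)))⁻¹ • σ ((r : ℂ) • p))) = p
          rw [h1, inv_one, one_smul, h2, smul_smul, inv_mul_cancel₀ hrC, one_smul]
      surj := by
        rintro x hxX ⟨h1, h2, h3⟩
        have hyX : (ℓ x)⁻¹ • x ∈ X := hX.smul_mem _ hxX _ (inv_ne_zero h1)
        obtain ⟨c, hc0, hc⟩ := (hW₀s _ h2).2 hyX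
        have hτb : τ ((ℓ x)⁻¹ • x) ∈ ball (0 : ℂ × ℂ) R := mem_ball_zero_iff.mpr h3
        have hrq : (r : ℂ) • ((r : ℂ)⁻¹ • τ ((ℓ x)⁻¹ • x)) = τ ((ℓ x)⁻¹ • x) := by
          rw [smul_smul, mul_inv_cancel₀ hrC, one_smul]
        refine ⟨?_, ?_⟩
        · show (r : ℂ)⁻¹ • τ ((ℓ x)⁻¹ • x) ∈ ball (0 : ℂ × ℂ) 2
          rw [mem_ball_zero_iff, norm_smul, norm_inv, Complex.norm_real, Real.norm_of_nonneg hr0.le, inv_mul_lt_iff₀ hr0, hr]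
          linarith
        · refine ⟨ℓ x * c * ℓ (σ (τ ((ℓ x)⁻¹ • x))), ?_, ?_⟩
          · exact mul_ne_zero (mul_ne_zero h1 hc0) (hall _ hτb).1.1.1.2
          · show x = (ℓ x * c * ℓ (σ (τ ((ℓ x)⁻¹ • x)))) •
              ((ℓ (σ ((r : ℂ) • ((r : ℂ)⁻¹ • τ ((ℓ x)⁻¹ • x)))))⁻¹ • σ ((r : ℂ) • ((r : ℂ)⁻¹ • τ ((ℓ x)⁻¹ • x))))
            rw [hrq, smul_smul, mul_assoc, mul_inv_cancel₀ (hall _ hτb).1.1.1.2, mul_one, mul_smul, ← hc, smul_smul, mul_inv_cancel₀ h1, one_smul] }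
  have h0b : (0 : ℂ × ℂ) ∈ ball (0 : ℂ × ℂ) R := mem_ball_self hR
  have hτ0 : τ (σ 0) = 0 := (hall 0 h0b).1.1.1.1.2
  refine ⟨χ, ⟨?_, ?_, ?_⟩, ?_, ?_, ?_⟩
  · rw [hℓ]; exact one_ne_zero
  · rw [hℓ, inv_one, one_smul]; exact hW₀m
  · rw [hℓ, inv_one, one_smul, hτ0, norm_zero]; exact hR
  · show (r : ℂ)⁻¹ • τ ((ℓ (σ 0))⁻¹ • σ 0) = 0
    rw [hℓ, inv_one, one_smul, hτ0, smul_zero]
  · intro p hp
    have hb := hball p hp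
    have hne := (hall _ hb).1.1.1.2
    have h1 := (hall _ hb).2.1
    have h2 : ((ℓ (σ ((r : ℂ) • p)))⁻¹ • σ ((r : ℂ) • p) ∈ T) ↔ σ ((r : ℂ) • p) ∈ T := by
      constructor
      · intro h3
        have h4 := hT _ h3 _ hne
        rwa [smul_smul, mul_inv_cancel₀ hne, one_smul] at h4
      · intro h3
        exact hT _ h3 _ (inv_ne_zero hne)
    show ((ℓ (σ ((r : ℂ) • p)))⁻¹ • σ ((r : ℂ) • p) ∈ T) ↔ _
    rw [h2, h1]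
    simp [hrC, hr0.ne']
  · intro p hp
    have hb := hball p hp
    have hne := (hall _ hb).1.1.1.2
    have h1 := (hall _ hb).2.2
    have h2 : ((ℓ (σ ((r : ℂ) • p)))⁻¹ • σ ((r : ℂ) • p) ∉ K) ↔ σ ((r : ℂ) • p) ∉ K := by
      constructor
      · intro h3 h4
        exact h3 (hK _ h4 _ (inv_ne_zero hne))
      · intro h3 h4
        apply h3
        have h5 := hK _ h4 _ hne
        rwa [smul_smul, mul_inv_cancel₀ hne, one_smul] at h5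
    show ((ℓ (σ ((r : ℂ) • p)))⁻¹ • σ ((r : ℂ) • p) ∉ K) ↔ _
    rw [h2, h1]
    simp [hrC, hr0.ne']

end Pool.Agent.H36.BP
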