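import Mathlib

/-!
# BP CirA: approximation on one circle

Trigonometric polynomials are dense in the continuous functions on the circle (`span_fourier_closure_eq_top`, or Stone-Weierstrass on the compact set
`sphere 0 R` with the star subalgebra generated by `z`: on the circle `conj z = R²/z`).  A real continuous function is within `ε` of `Re P`, `P = ∑_{|n| ≤ m} c_n z^n`, and
`Re(c_(-n) z^(-n)) = Re(conj(c_(-n)) R^(-2n) z^n)` on the circle, so `P` can be taken to be a polynomial.
`trig_approx`: the form needed for the annulus: finitely many coefficients `c 0, ..., c m`, `|φ(R e^(iθ)) - Re ∑ c_n e^(inθ)| ≤ ε`.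
-/

set_option autoImplicit false

namespace Pool.Agent.H36.BP

open Filter Topology Metric

variable {N : ℕ}

private theorem CirA_span (g : C(AddCircle (2 * Real.pi), ℂ)) (hg : g ∈ Submodule.span ℂ (Set.range (@fourier (2 * Real.pi)))) :
    ∀ a : ℂ, ∃ p : Polynomial ℂ, ∀ θ : ℝ, (a * g (θ : AddCircle (2 * Real.pi))).re = (p.eval (Complex.exp (θ * Complex.I))).re := by
  induction hg using Submodule.span_induction with
  | mem x hx =>
    intro a
    obtain ⟨k, rfl⟩ := hx
    have hpi : (Real.pi : ℂ) ≠ 0 := by exact_mod_cast Real.pi_ne_zero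
    have hval : ∀ θ : ℝ, (fourier k (θ : AddCircle (2 * Real.pi)) : ℂ) = Complex.exp (k * (θ * Complex.I)) := by
      intro θ
      rw [fourier_coe_apply]
      congr 1
      push_cast
      field_simp
    rcases Int.eq_nat_or_neg k with ⟨n, rfl | rfl⟩
    · refine ⟨Polynomial.C a * Polynomial.X ^ n, fun θ => ?_⟩
      rw [hval]
      simp only [Polynomial.eval_mul, Polynomial.eval_C, Polynomial.eval_pow, Polynomial.eval_X]
      rw [← Complex.exp_nat_mul]
      push_cast
      rfl
    · refine ⟨Polynomial.C ((starRingEnd ℂ) a) * Polynomial.X ^ n, fun θ => ?_⟩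
      rw [hval]
      simp only [Polynomial.eval_mul, Polynomial.eval_C, Polynomial.eval_pow, Polynomial.eval_X]
      rw [← Complex.exp_nat_mul]
      rw [← Complex.conj_re (a * _), map_mul, ← Complex.exp_conj]
      congr 3
      simp [Complex.conj_ofReal]
  | zero =>
    intro a
    exact ⟨0, fun θ => by simp⟩
  | add x y _ _ hx hy =>
    intro a
    obtain ⟨p, hp⟩ := hx a
    obtain ⟨q, hq⟩ := hy a
    refine ⟨p + q, fun θ => ?_⟩
    rw [ContinuousMap.add_apply, mul_add, Complex.add_re, hp, hq, Polynomial.eval_add, Complex.add_re]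
  | smul b x _ hx =>
    intro a
    obtain ⟨p, hp⟩ := hx (a * b)
    refine ⟨p, fun θ => ?_⟩
    rw [← hp, ContinuousMap.smul_apply, smul_eq_mul, mul_assoc]

theorem trig_approx (φ : ℝ → ℝ) (hφ : Continuous φ) (hper : ∀ θ, φ (θ + 2 * Real.pi) = φ θ) {ε : ℝ} (hε : 0 < ε) :
    ∃ (m : ℕ) (c : ℕ → ℂ), ∀ θ : ℝ, |φ θ - (∑ n ∈ Finset.range (m + 1), c n * Complex.exp (n * (θ * Complex.I))).re| ≤ ε := by
  have : Fact (0 < 2 * Real.pi) := ⟨Real.two_pi_pos⟩
  have hP : Function.Periodic φ (2 * Real.pi) := hper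
  have hcont : Continuous (hP.lift) := by
    exact continuous_coinduced_dom.mpr hφ
  let F : C(AddCircle (2 * Real.pi), ℂ) := ⟨fun x => ((hP.lift x : ℝ) : ℂ), Complex.continuous_ofReal.comp hcont⟩
  have hF : F ∈ (Submodule.span ℂ (Set.range (@fourier (2 * Real.pi)))).topologicalClosure := by
    rw [span_fourier_closure_eq_top]
    trivial
  have hF2 : F ∈ closure ((Submodule.span ℂ (Set.range (@fourier (2 * Real.pi))) : Submodule ℂ C(AddCircle (2 * Real.pi), ℂ)) : Set C(AddCircle (2 * Real.pi), ℂ)) := hF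
  obtain ⟨g, hg, hgd⟩ := Metric.mem_closure_iff.mp hF2 ε hε
  obtain ⟨p, hp⟩ := CirA_span g hg 1
  refine ⟨p.natDegree, p.coeff, fun θ => ?_⟩
  have h1 : (∑ n ∈ Finset.range (p.natDegree + 1), p.coeff n * Complex.exp (n * (θ * Complex.I))) = p.eval (Complex.exp (θ * Complex.I)) := by
    rw [Polynomial.eval_eq_sum_range]
    refine Finset.sum_congr rfl fun n _ => ?_
    rw [← Complex.exp_nat_mul]
  rw [h1, ← hp θ, one_mul]
  have h2 : ‖(F - g) (θ : AddCircle (2 * Real.pi))‖ ≤ ε := by
    refine le_trans (ContinuousMap.norm_coe_le_norm _ _) ?_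
    rw [← dist_eq_norm]
    exact hgd.le
  have h3 : φ θ - (g (θ : AddCircle (2 * Real.pi))).re = ((F - g) (θ : AddCircle (2 * Real.pi))).re := by
    rw [ContinuousMap.sub_apply, Complex.sub_re]
    have h4 : F (θ : AddCircle (2 * Real.pi)) = ((φ θ : ℝ) : ℂ) := by
      change ((hP.lift (θ : AddCircle (2 * Real.pi)) : ℝ) : ℂ) = _
      rw [Function.Periodic.lift_coe]
    rw [h4, Complex.ofReal_re]
  rw [h3]
  exact (Complex.abs_re_le_norm _).trans h2

theorem circle_approx {R : ℝ} (hR : 0 < R) (φ : ℂ → ℝ) (hφ : ContinuousOn φ (sphere (0 : ℂ) R)) {ε : ℝ} (hε : 0 < ε) :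
    ∃ g : ℂ → ℂ, Differentiable ℂ g ∧ ∀ z ∈ sphere (0 : ℂ) R, |(g z).re - φ z| ≤ ε := by
  have hmem : ∀ θ : ℝ, ((R : ℂ) * Complex.exp (θ * Complex.I)) ∈ sphere (0 : ℂ) R := by
    intro θ
    rw [mem_sphere_zero_iff_norm, norm_mul, Complex.norm_exp_ofReal_mul_I, mul_one, Complex.norm_real, Real.norm_eq_abs, abs_of_pos hR]
  have hc : Continuous fun θ : ℝ => φ ((R : ℂ) * Complex.exp (θ * Complex.I)) := by
    refine hφ.comp_continuous ?_ hmem
    exact continuous_const.mul (Complex.continuous_exp.comp (Complex.continuous_ofReal.mul continuous_const))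
  have hper : ∀ θ : ℝ, φ ((R : ℂ) * Complex.exp (((θ + 2 * Real.pi : ℝ) : ℂ) * Complex.I)) = φ ((R : ℂ) * Complex.exp ((θ : ℂ) * Complex.I)) := by
    intro θ
    congr 2
    push_cast
    rw [add_mul]
    exact Complex.exp_periodic _
  obtain ⟨m, c, hmc⟩ := trig_approx (fun θ : ℝ => φ ((R : ℂ) * Complex.exp (θ * Complex.I))) hc hper hε
  refine ⟨fun z => ∑ n ∈ Finset.range (m + 1), c n * (z / R) ^ n, ?_, ?_⟩
  · refine Differentiable.fun_sum fun n _ => ?_
    exact ((differentiable_id.div_const _).pow n).const_mul _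
  · intro z hz
    have hRne : (R : ℂ) ≠ 0 := by exact_mod_cast hR.ne'
    have hzn : ‖z‖ = R := mem_sphere_zero_iff_norm.mp hz
    have hz1 : z = (R : ℂ) * Complex.exp ((z.arg : ℝ) * Complex.I) := by
      conv_lhs => rw [← Complex.norm_mul_exp_arg_mul_I z, hzn]
    have h := hmc z.arg
    have h5 : (∑ n ∈ Finset.range (m + 1), c n * (z / R) ^ n) = ∑ n ∈ Finset.range (m + 1), c n * Complex.exp (n * ((z.arg : ℝ) * Complex.I)) := by
      refine Finset.sum_congr rfl fun n _ => ?_
      have : z / R = Complex.exp ((z.arg : ℝ) * Complex.I) := by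
        rw [div_eq_iff hRne, mul_comm]
        exact hz1
      rw [this, Complex.exp_nat_mul]
    simp only
    rw [h5, abs_sub_comm]
    simp only [← hz1] at h
    exact h

end Pool.Agent.H36.BP
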