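import Pool.Agent.H36.BP.Defs

/-!
# BP MaxP: the maximum principle

* `not_isLocalMax`: with `0 < c' < c`: `|h z| exp(c'|z - z₀|²) ≤ u z ≤ u z₀ = |h z₀|` near `z₀`, so `|h|` has a local maximum at `z₀`, hence `h` is constant near
  `z₀` (`Complex.eventually_eq_of_isLocalMax_norm`), and `|h z₀| exp(c'|z - z₀|²) ≤ |h z₀|` for `z ≠ z₀` near `z₀`: contradiction.
* `max_principle`: otherwise the maximum of `u` over the compact set (`UpperSemicontinuousOn.exists_isMaxOn`) is `> A ≥ 0` and is attained in `U`.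
-/

set_option autoImplicit false

namespace Pool.Agent.H36.BP

open Filter Topology Metric

variable {N : ℕ}

theorem Sub.not_isLocalMax {u : ℂ → ℝ} {z₀ : ℂ} {c : ℝ} (h : Sub u z₀ c) (hc : 0 < c) : ¬ IsLocalMax u z₀ := by
  intro hmax
  obtain ⟨hpos, hsup⟩ := h
  obtain ⟨f, hf, hf0, hfu⟩ := hsup (c / 2) (by linarith)
  have hmax' : ∀ᶠ z in 𝓝 z₀, u z ≤ u z₀ := hmax
  have h1 : IsLocalMax (norm ∘ f) z₀ := by
    filter_upwards [hfu, hmax'] with z hz1 hz2
    simp only [Function.comp_apply]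
    rw [hf0]
    refine le_trans ?_ (hz1.trans hz2)
    refine le_mul_of_one_le_right (norm_nonneg _) ?_
    exact Real.one_le_exp (by positivity)
  have h2 : ∀ᶠ z in 𝓝 z₀, DifferentiableAt ℂ f z :=
    hf.eventually_analyticAt.mono fun z hz => hz.differentiableAt
  have h3 := Complex.eventually_eq_of_isLocalMax_norm h2 h1
  have h4 : ∀ᶠ z in 𝓝 z₀, z = z₀ := by
    filter_upwards [hfu, hmax', h3] with z hz1 hz2 hz3
    by_contra hne
    rw [hz3, hf0] at hz1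
    have h5 : u z₀ * Real.exp (c / 2 * ‖z - z₀‖ ^ 2) ≤ u z₀ * 1 := by
      rw [mul_one]
      exact hz1.trans hz2
    have h6 := le_of_mul_le_mul_left h5 hpos
    rw [Real.exp_le_one_iff] at h6
    have h7 : 0 < ‖z - z₀‖ := norm_pos_iff.2 (sub_ne_zero.2 hne)
    have h8 : 0 < c / 2 * ‖z - z₀‖ ^ 2 := by positivity
    linarith
  have h9 : ∀ᶠ z in 𝓝[≠] z₀, z = z₀ := h4.filter_mono nhdsWithin_le_nhds
  have h10 : ∀ᶠ z in 𝓝[≠] z₀, z ≠ z₀ := eventually_mem_nhdsWithin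
  obtain ⟨z, hz1, hz2⟩ := (h9.and h10).exists
  exact hz2 hz1

theorem max_principle {S U : Set ℂ} (hS : IsCompact S) (hU : IsOpen U) (hUS : U ⊆ S) {u : ℂ → ℝ}
    (husc : UpperSemicontinuousOn u S) (hsub : ∀ z ∈ U, 0 < u z → ∃ c, 0 < c ∧ Sub u z c) {A : ℝ} (hA : 0 ≤ A)
    (hbd : ∀ z ∈ S \ U, u z ≤ A) : ∀ z ∈ S, u z ≤ A := by
  intro z hz
  by_contra hlt
  push Not at hlt
  obtain ⟨a, haS, hmax⟩ := UpperSemicontinuousOn.exists_isMaxOn ⟨z, hz⟩ hS husc
  have h1 : u z ≤ u a := hmax hz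
  have haU : a ∈ U := by
    by_contra haU
    have := hbd a ⟨haS, haU⟩
    linarith
  obtain ⟨c, hc, hs⟩ := hsub a haU (by linarith)
  refine hs.not_isLocalMax hc ?_
  filter_upwards [hU.mem_nhds haU] with w hw
  exact hmax (hUS hw)

end Pool.Agent.H36.BP
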