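import Pool.Agent.H36.BP.SubA

/-!
# BP SubB: exponentials of squares

`|t|² = |t₀|² + 2 Re(conj t₀ (t - t₀)) + |t - t₀|²`, so `exp(a|t|²) = |exp(a(|t₀|² + 2 conj t₀ (t - t₀)))| exp(a|t - t₀|²)`, and
`|t z - t₀|²/|z - z₀|² → |t'(z₀)|²` (for every `a`, positive or negative).
-/

set_option autoImplicit false

namespace Pool.Agent.H36.BP

open Filter Topology Metric

variable {N : ℕ}

theorem Sub.exp_sq {t : ℂ → ℂ} {z₀ : ℂ} (ht : AnalyticAt ℂ t z₀) (a : ℝ) :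
    Sub (fun z => Real.exp (a * ‖t z‖ ^ 2)) z₀ (a * ‖deriv t z₀‖ ^ 2) := by
  refine ⟨Real.exp_pos _, fun c' hc' => ?_⟩
  refine ⟨fun z => Complex.exp (((a * ‖t z₀‖ ^ 2 : ℝ) : ℂ) +
    2 * a * (starRingEnd ℂ (t z₀)) * (t z - t z₀)), ?_, ?_, ?_⟩
  · refine AnalyticAt.cexp ?_
    exact analyticAt_const.add (analyticAt_const.mul (ht.sub analyticAt_const))
  · change ‖Complex.exp _‖ = _
    rw [sub_self, mul_zero, add_zero, Complex.norm_exp, Complex.ofReal_re]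
  · have hd : HasDerivAt t (deriv t z₀) z₀ := ht.differentiableAt.hasDerivAt
    have hsl := hasDerivAt_iff_tendsto_slope.mp hd
    have hlim : Tendsto (fun z => a * ‖slope t z₀ z‖ ^ 2) (𝓝[≠] z₀) (𝓝 (a * ‖deriv t z₀‖ ^ 2)) :=
      (hsl.norm.pow 2).const_mul a
    have hev := hlim.eventually (lt_mem_nhds hc')
    have hev' : ∀ᶠ z in 𝓝 z₀, c' * ‖z - z₀‖ ^ 2 ≤ a * ‖t z - t z₀‖ ^ 2 := by
      rw [eventually_nhdsWithin_iff] at hev
      filter_upwards [hev] with z hz'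
      rcases eq_or_ne z z₀ with h | h
      · rw [h]
        simp
      · have h1 := hz' h
        have h2 : 0 < ‖z - z₀‖ := norm_pos_iff.mpr (sub_ne_zero.mpr h)
        rw [slope_def_field, norm_div, div_pow] at h1
        have h3 : c' * ‖z - z₀‖ ^ 2 < a * (‖t z - t z₀‖ ^ 2 / ‖z - z₀‖ ^ 2) * ‖z - z₀‖ ^ 2 :=
          mul_lt_mul_of_pos_right h1 (by positivity)
        have h4 : a * (‖t z - t z₀‖ ^ 2 / ‖z - z₀‖ ^ 2) * ‖z - z₀‖ ^ 2 =
            a * ‖t z - t z₀‖ ^ 2 := by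
          field_simp
        rw [h4] at h3
        exact h3.le
    filter_upwards [hev'] with z hz
    rw [Complex.norm_exp, ← Real.exp_add]
    apply Real.exp_le_exp.mpr
    have key : ‖t z‖ ^ 2 = ‖t z₀‖ ^ 2 + 2 * ((starRingEnd ℂ (t z₀)) * (t z - t z₀)).re +
        ‖t z - t z₀‖ ^ 2 := by
      rw [Complex.sq_norm, Complex.sq_norm, Complex.sq_norm]
      simp only [Complex.normSq_apply, Complex.mul_re, Complex.conj_re, Complex.conj_im,
        Complex.sub_re, Complex.sub_im]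
      ring
    have e2 : (((a * ‖t z₀‖ ^ 2 : ℝ) : ℂ) + 2 * a * (starRingEnd ℂ (t z₀)) * (t z - t z₀)).re =
        a * ‖t z₀‖ ^ 2 + 2 * a * ((starRingEnd ℂ (t z₀)) * (t z - t z₀)).re := by
      rw [Complex.add_re, Complex.ofReal_re, mul_assoc]
      congr 1
      rw [show (2 * (a : ℂ)) = (((2 * a : ℝ)) : ℂ) by push_cast; ring, Complex.re_ofReal_mul]
    rw [e2, key]
    linarith


end Pool.Agent.H36.BP
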