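import Pool.Agent.H36.BP.MtA
import Pool.Agent.H36.BP.SubB
import Pool.Agent.H36.BP.MaxP
import Pool.Agent.H36.BP.CirA

/-!
# BP Char: bounded characteristic

`g₁` entire with `|Re g₁ - c₀ log|F|| ≤ 1` on `|z| = R` (`circle_approx`).  (1) `|F exp(-g₁/c₀)| ≤ e^(1/c₀)` on the circle, hence on the disc (maximum modulus for vector valued
functions, `Complex.norm_le_of_forall_mem_frontier_norm_le`).  (2) `u = mt G F |F|^(-c₀) |exp g₁| exp((4C+1)|z|²)` is upper semicontinuous on the closed disc, `Sub` exponent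
`-C (mt)² + 4C + 1 ≥ 1 > 0` where `u > 0` (`sub`, `of_holo`, `exp_sq` with `t = z`), so `u(0) ≤ max over the circle ≤ 2 exp((4C+1)R²) e` (`max_principle`); `u(0) = |F 0|^(-c₀)|exp g₁(0)|`.
`g = -g₁/c₀ - 1/c₀`: `|exp g F| ≤ 1` and `|exp(g 0) F 0| = (|F 0|^(-c₀)|exp g₁ 0|)^(-1/c₀) e^(-1/c₀) ≥ c`.
-/

set_option autoImplicit false

namespace Pool.Agent.H36.BP

open Filter Topology Metric

variable {N : ℕ}

variable {K B : Set (EN N)} {G : EN N → EN N → ℝ} {ρ : EN N → ℝ} {M : ℕ} {c₀ C : ℝ}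

private theorem Char_usc {S : Set ℂ} {f h : ℂ → ℝ} (hf : UpperSemicontinuousOn f S)
    (hh : ContinuousOn h S) (hpos : ∀ z ∈ S, 0 < h z) :
    UpperSemicontinuousOn (fun z => f z * h z) S := by
  intro x hx y hy
  have hx0 := hpos x hx
  have h1 : f x < y / h x := (lt_div_iff₀ hx0).2 hy
  obtain ⟨a, ha1, ha2⟩ := exists_between h1
  have h2 : a * h x < y := (lt_div_iff₀ hx0).1 ha2
  have h3 : ∀ᶠ z in 𝓝[S] x, a * h z < y :=
    ((continuousWithinAt_const.mul (hh x hx)).tendsto).eventually (gt_mem_nhds h2)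
  filter_upwards [hf x hx a ha1, h3, self_mem_nhdsWithin] with z hz1 hz2 hz3
  exact (mul_lt_mul_of_pos_right hz1 (hpos z hz3)).trans hz2

/-- the lower bound with the explicit constant -/
theorem char_boundE (hM : MetricData K B G ρ M c₀ C) {R : ℝ} (hR : 0 < R) : ∀ F, Curve K (ball 0 (R + 1)) F →
    mt G F 0 = 1 → (∀ z ∈ ball (0 : ℂ) (R + 1), mt G F z ≤ 2) → ∃ g : ℂ → ℂ, Differentiable ℂ g ∧
      (∀ z ∈ ball (0 : ℂ) R, ‖Complex.exp (g z) • F z‖ ≤ 1) ∧
      Real.exp (-(1 + Real.log (2 * Real.exp 1 * Real.exp ((4 * C + 1) * R ^ 2))) / c₀) ≤ ‖Complex.exp (g 0) • F 0‖ := by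
  have hc := hM.c₀_pos
  have hC := hM.C_nonneg
  set A : ℝ := 2 * Real.exp 1 * Real.exp ((4 * C + 1) * R ^ 2) with hA
  have hA0 : 0 < A := mul_pos (mul_pos two_pos (Real.exp_pos _)) (Real.exp_pos _)
  refine fun F hF h0 h2 => ?_
  have hsub : closedBall (0 : ℂ) R ⊆ ball (0 : ℂ) (R + 1) := closedBall_subset_ball (by linarith)
  have hne : ∀ z ∈ ball (0 : ℂ) (R + 1), 0 < ‖F z‖ := fun z hz =>
    norm_pos_iff.2 (hM.ne _ (hF.2 z hz))
  have hcont : ContinuousOn F (ball (0 : ℂ) (R + 1)) := hF.1.continuousOn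
  have hsph : sphere (0 : ℂ) R ⊆ ball (0 : ℂ) (R + 1) := sphere_subset_closedBall.trans hsub
  obtain ⟨g, hg, hgφ⟩ := circle_approx hR (fun z => c₀ * Real.log ‖F z‖)
    (continuousOn_const.mul ((hcont.mono hsph).norm.log fun z hz => (hne z (hsph hz)).ne'))
    one_pos
  have hexp : ∀ z ∈ ball (0 : ℂ) (R + 1), ‖Complex.exp (-(g z / c₀)) • F z‖ =
      Real.exp (-((g z).re / c₀) + Real.log ‖F z‖) := by
    intro z hz
    have h1 : (-(g z / (c₀ : ℂ))).re = -((g z).re / c₀) := by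
      rw [Complex.neg_re, Complex.div_ofReal_re]
    rw [norm_smul, Complex.norm_exp, h1, Real.exp_add, Real.exp_log (hne z hz)]
  -- the upper bound
  have hup : ∀ z ∈ ball (0 : ℂ) R, ‖Complex.exp (-(g z / c₀)) • F z‖ ≤ Real.exp (1 / c₀) := by
    intro z hz
    have hd : DiffContOnCl ℂ (fun z => Complex.exp (-(g z / c₀)) • F z) (ball (0 : ℂ) R) := by
      refine DifferentiableOn.diffContOnCl ?_
      rw [closure_ball _ hR.ne']
      exact ((hg.differentiableOn.div_const _).neg.cexp).smul (hF.1.mono hsub)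
    refine Complex.norm_le_of_forall_mem_frontier_norm_le isBounded_ball hd (fun w hw => ?_)
      (subset_closure hz)
    rw [frontier_ball _ hR.ne'] at hw
    rw [hexp w (hsph hw), Real.exp_le_exp]
    have h1 := (abs_le.1 (hgφ w hw)).1
    have h3 : Real.log ‖F w‖ ≤ (1 + (g w).re) / c₀ := by
      rw [le_div_iff₀ hc]
      linarith
    rw [add_div] at h3
    linarith
  -- the lower bound
  have hlow : ‖F 0‖ ^ (-c₀) * ‖Complex.exp (g 0)‖ ≤ A := by
    have husc : UpperSemicontinuousOn (fun z => mt G F z * (‖F z‖ ^ (-c₀) * ‖Complex.exp (g z)‖ *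
        Real.exp ((4 * C + 1) * ‖z‖ ^ 2))) (closedBall (0 : ℂ) R) := by
      refine Char_usc ((mt_usc hM isOpen_ball hF).mono hsub) ?_ ?_
      · refine ContinuousOn.mul (ContinuousOn.mul ?_ ?_) ?_
        · exact (hcont.mono hsub).norm.rpow_const fun z hz => Or.inl (hne z (hsub hz)).ne'
        · exact (hg.continuous.cexp).norm.continuousOn
        · exact (Real.continuous_exp.comp
            (continuous_const.mul (continuous_norm.pow 2))).continuousOn
      · intro z hz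
        exact mul_pos (mul_pos (Real.rpow_pos_of_pos (hne z (hsub hz)) _)
          (norm_pos_iff.2 (Complex.exp_ne_zero _))) (Real.exp_pos _)
    have hmp := max_principle (isCompact_closedBall (0 : ℂ) R) isOpen_ball ball_subset_closedBall
      husc (fun z hz hz0 => ?_) hA0.le (fun z hz => ?_) 0 (mem_closedBall_self hR.le)
    · rw [h0, one_mul, norm_zero] at hmp
      norm_num at hmp
      exact hmp
    · have hzb : z ∈ ball (0 : ℂ) (R + 1) := hsub (ball_subset_closedBall hz)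
      have hnh : ball (0 : ℂ) (R + 1) ∈ 𝓝 z := isOpen_ball.mem_nhds hzb
      have han : AnalyticAt ℂ F z := hF.1.analyticAt hnh
      have hm0 : 0 < mt G F z := by
        by_contra h3
        have h4 : mt G F z ≤ 0 := not_lt.1 h3
        have h5 : 0 < ‖F z‖ ^ (-c₀) * ‖Complex.exp (g z)‖ *
            Real.exp ((4 * C + 1) * ‖z‖ ^ 2) :=
          mul_pos (mul_pos (Real.rpow_pos_of_pos (hne z hzb) _)
            (norm_pos_iff.2 (Complex.exp_ne_zero _))) (Real.exp_pos _)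
        exact absurd hz0 (not_lt.2 (mul_nonpos_of_nonpos_of_nonneg h4 h5.le))
      have hs1 := hM.sub F z han (Filter.eventually_of_mem hnh fun w hw => hF.2 w hw) hm0
      have hs2 : Sub (fun z => ‖Complex.exp (g z)‖) z 0 :=
        Sub.of_holo ((hg.analyticAt z).cexp) (Complex.exp_ne_zero _)
      have hs3 : Sub (fun z => Real.exp ((4 * C + 1) * ‖z‖ ^ 2)) z
          ((4 * C + 1) * ‖deriv (fun z : ℂ => z) z‖ ^ 2) := Sub.exp_sq analyticAt_id _
      have hs4 := (hs1.mul hs2).mul hs3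
      refine ⟨_, ?_, hs4.congr (Filter.Eventually.of_forall fun w => ?_)⟩
      · have h3 : deriv (fun z : ℂ => z) z = 1 := deriv_id z
        rw [h3, norm_one, one_pow, mul_one, add_zero]
        have h4 := h2 z hzb
        have h5 : mt G F z ^ 2 ≤ 4 := by nlinarith
        nlinarith
      · ring
    · have hz1 : z ∈ sphere (0 : ℂ) R := by
        rw [← closedBall_sdiff_ball]
        exact hz
      have hzb := hsph hz1
      have hzn : ‖z‖ = R := mem_sphere_zero_iff_norm.1 hz1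
      have h1 := (abs_le.1 (hgφ z hz1)).2
      have h3 : ‖F z‖ ^ (-c₀) * ‖Complex.exp (g z)‖ ≤ Real.exp 1 := by
        rw [Complex.norm_exp, Real.rpow_def_of_pos (hne z hzb), ← Real.exp_add, Real.exp_le_exp]
        linarith
      have h4 : mt G F z ≤ 2 := h2 z hzb
      have h5 : 0 ≤ ‖F z‖ ^ (-c₀) * ‖Complex.exp (g z)‖ :=
        mul_nonneg (Real.rpow_nonneg (norm_nonneg _) _) (norm_nonneg _)
      rw [hzn, hA, ← mul_assoc]
      refine mul_le_mul_of_nonneg_right ?_ (Real.exp_pos _).le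
      exact mul_le_mul h4 h3 h5 two_pos.le
  have h0b : (0 : ℂ) ∈ ball (0 : ℂ) (R + 1) := mem_ball_self (by linarith)
  refine ⟨fun z => -(g z / c₀) - 1 / c₀, (hg.div_const _).neg.sub_const _, fun z hz => ?_, ?_⟩
  · have h1 := hup z hz
    have h3 : Complex.exp (-(g z / c₀) - 1 / c₀) • F z =
        Complex.exp (-(1 / c₀ : ℂ)) • (Complex.exp (-(g z / c₀)) • F z) := by
      rw [smul_smul, ← Complex.exp_add]
      congr 2
      ring
    have h4 : ‖Complex.exp (-(1 / c₀ : ℂ))‖ = Real.exp (-(1 / c₀)) := by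
      rw [Complex.norm_exp]
      congr 1
      rw [Complex.neg_re, ← Complex.ofReal_one, ← Complex.ofReal_div, Complex.ofReal_re]
    rw [h3, norm_smul, h4]
    calc Real.exp (-(1 / c₀)) * ‖Complex.exp (-(g z / c₀)) • F z‖
        ≤ Real.exp (-(1 / c₀)) * Real.exp (1 / c₀) :=
          mul_le_mul_of_nonneg_left h1 (Real.exp_pos _).le
      _ = 1 := by rw [← Real.exp_add, neg_add_cancel, Real.exp_zero]
  · have h3 : Complex.exp (-(g 0 / c₀) - 1 / c₀) • F 0 =
        Complex.exp (-(1 / c₀ : ℂ)) • (Complex.exp (-(g 0 / c₀)) • F 0) := by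
      rw [smul_smul, ← Complex.exp_add]
      congr 2
      ring
    have h4 : ‖Complex.exp (-(1 / c₀ : ℂ))‖ = Real.exp (-(1 / c₀)) := by
      rw [Complex.norm_exp]
      congr 1
      rw [Complex.neg_re, ← Complex.ofReal_one, ← Complex.ofReal_div, Complex.ofReal_re]
    show _ ≤ ‖Complex.exp (-(g 0 / c₀) - 1 / c₀) • F 0‖
    rw [h3, norm_smul, h4, hexp 0 h0b, ← Real.exp_add, Real.exp_le_exp]
    rw [Complex.norm_exp, Real.rpow_def_of_pos (hne 0 h0b), ← Real.exp_add] at hlow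
    have h5 : Real.log ‖F 0‖ * -c₀ + (g 0).re ≤ Real.log A := by
      have h6 := Real.log_le_log (Real.exp_pos _) hlow
      rwa [Real.log_exp] at h6
    have h7 : ((g 0).re - Real.log A) / c₀ ≤ Real.log ‖F 0‖ := by
      rw [div_le_iff₀ hc]
      linarith
    rw [sub_div] at h7
    have h8 : -(1 + Real.log A) / c₀ = -(1 / c₀) - Real.log A / c₀ := by ring
    rw [h8]
    linarith

theorem char_bound (hM : MetricData K B G ρ M c₀ C) {R : ℝ} (hR : 0 < R) : ∃ c : ℝ, 0 < c ∧ ∀ F, Curve K (ball 0 (R + 1)) F →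
    mt G F 0 = 1 → (∀ z ∈ ball (0 : ℂ) (R + 1), mt G F z ≤ 2) → ∃ g : ℂ → ℂ, Differentiable ℂ g ∧
      (∀ z ∈ ball (0 : ℂ) R, ‖Complex.exp (g z) • F z‖ ≤ 1) ∧ c ≤ ‖Complex.exp (g 0) • F 0‖ :=
  ⟨_, Real.exp_pos _, char_boundE hM hR⟩

/-- the lower bound: the characteristic function grows at most like `R²` -/
theorem char_bound2 (hM : MetricData K B G ρ M c₀ C) : ∃ C₁ : ℝ, 0 ≤ C₁ ∧ ∀ R : ℝ, 0 < R → ∀ F, Curve K (ball 0 (R + 1)) F →
    mt G F 0 = 1 → (∀ z ∈ ball (0 : ℂ) (R + 1), mt G F z ≤ 2) → ∃ g : ℂ → ℂ, Differentiable ℂ g ∧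
      (∀ z ∈ ball (0 : ℂ) R, ‖Complex.exp (g z) • F z‖ ≤ 1) ∧ Real.exp (-(C₁ * (1 + R ^ 2))) ≤ ‖Complex.exp (g 0) • F 0‖ := by
  have hc := hM.c₀_pos
  have hC := hM.C_nonneg
  refine ⟨(4 * C + 4) / c₀, by positivity, fun R hR F hF h0 h2 => ?_⟩
  obtain ⟨g, h3, h4, h5⟩ := char_boundE hM hR F hF h0 h2
  refine ⟨g, h3, h4, le_trans (Real.exp_le_exp.mpr ?_) h5⟩
  rw [Real.log_mul (by positivity) (by positivity), Real.log_mul (by positivity) (by positivity), Real.log_exp, Real.log_exp]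
  have h6 : Real.log 2 ≤ 1 := by
    have := Real.log_two_lt_d9
    linarith
  rw [neg_div, neg_le_neg_iff, div_mul_eq_mul_div, div_le_div_iff_of_pos_right hc]
  nlinarith [sq_nonneg R]

end Pool.Agent.H36.BP
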