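import Pool.Agent.H36.BP.MtA
import Pool.Agent.H17.Montel
import Pool.Agent.H17.GlobalLift

/-!
# BP Lim: the limit curve

Along the ultrafilter `𝒰 = hyperfilter ℕ`: for every natural `R ≥ 1` the curves `F_n^R = exp(g_n^R) F_n` (`n ≥ R`) converge locally uniformly on `ball 0 R` to `H_R` (`montel_ultrafilter`), `|H_R 0| ≥ c_R > 0`.
`F_n^R` and `F_n^S` are proportional at every point, hence all 2x2 minors of `(H_R z, H_S z)` vanish.  Near every `z` with `|z| < R` the function `H_R` does not vanish identically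
(identity theorem on the ball), so `H_R w = (w - z)^k φ(w)`, `φ(z) ≠ 0` (`AnalyticAt.exists_eventuallyEq_pow_smul_nonzero_iff`): define `f z = [φ z] ∈ ℙ^N`; it is independent of `R` and holomorphic
(`HolomorphicInto f univ`), and `[H_R w] = f w` where `H_R w ≠ 0`.  `exists_global_lift` gives an entire lift `H` of `f`.  Near every `z₀` with `|z₀| < R`: `H_R w = (w - z₀)^k • u w • H w` with `u` holomorphic without zeros near `z₀`
(compare `H` and `φ`: both without zeros and proportional); absorb `u` into `H` to apply `hur` near `z₀` (`u w • H w ∈ K` iff `H w ∈ K`).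
`H w ∈ closure K` for all `w`: limit of points `F_n^R w ∈ K` where `H_R w ≠ 0`, elsewhere by continuity.
* `A = {z : H z ∉ K}` is open (`hur`) and closed (`rel_open` and continuity of `H`), so `A = ∅` or `A = univ`.
* `A = univ` is impossible: `H_1 → ` near `0`, `H_1 w ≠ 0` and `H_1 w = u w • H w ∉ K`, `lim` gives `mt G (F_n^1) 0 < 1/2` eventually, but `mt G (F_n^1) 0 = mt G (F_n) 0 = 1` (`mt_smul`).
* so `H z ∈ K` for all `z`; `mt G H 0 = mt G (u • H) 0 = mt G H_1 0 ≥ 1` (`mt_smul`, `mt_limit`).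
(`EuclideanSpace ℂ (Fin (N+1))` versus `Fin (N+1) → ℂ`: `WithLp.toLp 2`, `WithLp.ofLp`, both continuous linear.)
-/

set_option autoImplicit false

namespace Pool.Agent.H36.BP

open Filter Topology Metric

variable {N : ℕ}

variable {K B : Set (EN N)} {G : EN N → EN N → ℝ} {ρ : EN N → ℝ} {M : ℕ} {c₀ C : ℝ}

/-- The coordinate `i`. -/
private noncomputable def Lim_pr (i : Fin (N + 1)) : EN N →L[ℂ] ℂ := EuclideanSpace.proj i

private lemma Lim_pr_apply (i : Fin (N + 1)) (v : EN N) : Lim_pr i v = v i := rfl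

private lemma Lim_exists_coord {w : EN N} (hw : w ≠ 0) : ∃ j, w j ≠ 0 := by
  by_contra h
  push Not at h
  apply hw
  ext j
  exact h j

private lemma Lim_prop {v w : EN N} (hw : w ≠ 0) (h : ∀ i j, v i * w j = v j * w i) :
    ∃ c : ℂ, v = c • w := by
  obtain ⟨j, hj⟩ := Lim_exists_coord hw
  refine ⟨v j / w j, ?_⟩
  ext i
  rw [PiLp.smul_apply, smul_eq_mul, div_mul_eq_mul_div, eq_div_iff hj]
  exact h i j

private lemma Lim_cont_minor {X : Type} [TopologicalSpace X] {f g : X → EN N} {x : X}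
    (hf : ContinuousAt f x) (hg : ContinuousAt g x) (i j : Fin (N + 1)) :
    ContinuousAt (fun y => f y i * g y j - f y j * g y i) x := by
  have hc : ∀ (f : X → EN N), ContinuousAt f x → ∀ i, ContinuousAt (fun y => f y i) x := by
    intro f hf i
    exact (Lim_pr i).continuous.continuousAt.comp hf
  exact ((hc f hf i).mul (hc g hg j)).sub ((hc f hf j).mul (hc g hg i))

/-- Gluing of local lifts. -/
private lemma Lim_glue (Hs : ℕ → ℂ → EN N)
    (hd : ∀ R : ℕ, DifferentiableOn ℂ (Hs R) (ball 0 (R + 1))) (h0 : ∀ R, Hs R 0 ≠ 0)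
    (hp : ∀ (R S : ℕ) (z : ℂ), z ∈ ball (0 : ℂ) (R + 1) → z ∈ ball (0 : ℂ) (S + 1) →
      ∀ i j, Hs R z i * Hs S z j = Hs R z j * Hs S z i) :
    ∃ H : ℂ → EN N, Differentiable ℂ H ∧ (∀ z, H z ≠ 0) ∧
      ∀ (R : ℕ), ∀ z₀ ∈ ball (0 : ℂ) (R + 1), ∃ (k : ℕ) (u : ℂ → ℂ), AnalyticAt ℂ u z₀ ∧
        u z₀ ≠ 0 ∧ ∀ᶠ w in 𝓝 z₀, Hs R w = (w - z₀) ^ k • (u w • H w) := by
  classical
  -- local factorisation
  have hfac : ∀ (R : ℕ), ∀ z₀ ∈ ball (0 : ℂ) (R + 1), ∃ (k : ℕ) (φ : ℂ → EN N),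
      AnalyticAt ℂ φ z₀ ∧ φ z₀ ≠ 0 ∧ ∀ᶠ w in 𝓝 z₀, Hs R w = (w - z₀) ^ k • φ w := by
    intro R z₀ hz₀
    have ha : AnalyticAt ℂ (Hs R) z₀ := (hd R).analyticAt (isOpen_ball.mem_nhds hz₀)
    rw [ha.exists_eventuallyEq_pow_smul_nonzero_iff]
    intro hcon
    have hon : AnalyticOnNhd ℂ (Hs R) (ball 0 (R + 1)) := fun w hw =>
      (hd R).analyticAt (isOpen_ball.mem_nhds hw)
    have h1 := hon.eqOn_zero_of_preconnected_of_eventuallyEq_zero
      (convex_ball (0 : ℂ) (R + 1)).isPreconnected hz₀ hcon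
    exact h0 R (h1 (mem_ball_self (by positivity)))
  have hmem : ∀ z : ℂ, z ∈ ball (0 : ℂ) ((⌈‖z‖⌉₊ : ℕ) + 1) := by
    intro z
    rw [mem_ball_zero_iff]
    have := Nat.le_ceil ‖z‖
    linarith
  choose k φ hφa hφ0 hφe using fun z : ℂ => hfac ⌈‖z‖⌉₊ z (hmem z)
  -- any local factor is proportional to φ
  have hcmp : ∀ (R : ℕ), ∀ z₀ ∈ ball (0 : ℂ) (R + 1), ∀ (m : ℕ) (ψ : ℂ → EN N),
      AnalyticAt ℂ ψ z₀ → (∀ᶠ w in 𝓝 z₀, Hs R w = (w - z₀) ^ m • ψ w) →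
      ∀ᶠ z in 𝓝 z₀, ∀ i j, φ z z i * ψ z j = φ z z j * ψ z i := by
    intro R z₀ hz₀ m ψ hψa hψe
    filter_upwards [hψe.eventually_nhds, hψa.eventually_analyticAt,
      isOpen_ball.mem_nhds hz₀] with z h1 h2 h3 i j
    -- near z
    have h4 : ∀ᶠ w in 𝓝[≠] z, φ z w i * ψ w j - φ z w j * ψ w i = 0 := by
      have hne0 : ∀ᶠ w in 𝓝[≠] z, w ≠ z₀ := by
        by_cases hz : z = z₀
        · rw [hz]
          exact self_mem_nhdsWithin
        · exact (eventually_ne_nhds hz).filter_mono nhdsWithin_le_nhds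
      filter_upwards [h1.filter_mono nhdsWithin_le_nhds, hne0, self_mem_nhdsWithin,
        (hφe z).filter_mono nhdsWithin_le_nhds,
        nhdsWithin_le_nhds (isOpen_ball.mem_nhds (hmem z)),
        nhdsWithin_le_nhds (isOpen_ball.mem_nhds h3)] with w a1 a2 a3 a4 a5 a6
      have h5 := hp ⌈‖z‖⌉₊ R w a5 a6 i j
      rw [a4, a1] at h5
      simp only [PiLp.smul_apply, smul_eq_mul] at h5
      have h6 : (w - z) ^ k z ≠ 0 := pow_ne_zero _ (sub_ne_zero.2 a3)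
      have h7 : (w - z₀) ^ m ≠ 0 := pow_ne_zero _ (sub_ne_zero.2 a2)
      have h8 : (w - z) ^ k z * (w - z₀) ^ m * (φ z w i * ψ w j - φ z w j * ψ w i) = 0 := by
        linear_combination h5
      rcases mul_eq_zero.1 h8 with h | h
      · exact absurd h (mul_ne_zero h6 h7)
      · exact h
    have h5 : Tendsto (fun w => φ z w i * ψ w j - φ z w j * ψ w i) (𝓝[≠] z)
        (𝓝 (φ z z i * ψ z j - φ z z j * ψ z i)) :=
      ((Lim_cont_minor (hφa z).continuousAt h2.continuousAt i j).tendsto).mono_left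
        nhdsWithin_le_nhds
    have h6 : Tendsto (fun w => φ z w i * ψ w j - φ z w j * ψ w i) (𝓝[≠] z) (𝓝 0) :=
      (tendsto_congr' h4).2 tendsto_const_nhds
    exact sub_eq_zero.1 (tendsto_nhds_unique h5 h6)
  have hofne : ∀ v : EN N, v ≠ 0 → v.ofLp ≠ 0 := by
    intro v hv h
    apply hv
    ext j
    exact congrFun h j
  set f : ℂ → Pool.Agent.H17.PN N := fun z => Projectivization.mk ℂ (φ z z).ofLp
    (hofne _ (hφ0 z)) with hf
  have hfhol : Pool.Agent.H17.HolomorphicInto f Set.univ := by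
    intro z₀ _
    refine ⟨fun w => (φ z₀ w).ofLp, ?_, ?_⟩
    · rw [analyticAt_pi_iff]
      intro j
      exact ((Lim_pr j).analyticAt _).comp (hφa z₀)
    · filter_upwards [hcmp ⌈‖z₀‖⌉₊ z₀ (hmem z₀) (k z₀) (φ z₀) (hφa z₀) (hφe z₀),
        (hφa z₀).continuousAt.eventually_ne (hφ0 z₀)] with z h1 h2
      refine ⟨hofne _ h2, ?_⟩
      obtain ⟨c, hc⟩ := Lim_prop h2 h1
      rw [hf, Projectivization.mk_eq_mk_iff']
      exact ⟨c, by rw [hc]; rfl⟩
  obtain ⟨x, hx⟩ := Pool.Agent.H17.exists_global_lift hfhol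
  refine ⟨fun z => WithLp.toLp 2 (fun j => (x j : ℂ → ℂ) z), ?_, ?_, ?_⟩
  · have h1 : Differentiable ℂ (fun z => (fun j => (x j : ℂ → ℂ) z)) :=
      differentiable_pi.2 fun j => (x j).diff
    exact (PiLp.continuousLinearEquiv 2 ℂ (fun _ : Fin (N + 1) => ℂ)).symm.differentiable.comp h1
  · intro z h
    obtain ⟨h1, _⟩ := hx z
    apply h1
    funext j
    exact congrArg (fun v : EN N => v j) h
  · intro R z₀ hz₀
    obtain ⟨m, ψ, hψa, hψ0, hψe⟩ := hfac R z₀ hz₀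
    have hH : ∀ z, ∀ i j, φ z z i * (x j : ℂ → ℂ) z = φ z z j * (x i : ℂ → ℂ) z := by
      intro z i j
      obtain ⟨h1, h2⟩ := hx z
      obtain ⟨c, hc, h3⟩ := Pool.Agent.H17.mk_eq_mk_cross h2
      have e1 : φ z z i = c * (x i : ℂ → ℂ) z := h3 i
      have e2 : φ z z j = c * (x j : ℂ → ℂ) z := h3 j
      rw [e1, e2]
      ring
    have hprop : ∀ᶠ z in 𝓝 z₀, ∀ i j, ψ z i * (x j : ℂ → ℂ) z = ψ z j * (x i : ℂ → ℂ) z := by
      filter_upwards [hcmp R z₀ hz₀ m ψ hψa hψe] with z h1 i j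
      obtain ⟨l, hl⟩ := Lim_exists_coord (hφ0 z)
      have e1 := h1 l i
      have e2 := h1 l j
      have e3 := hH z l i
      have e4 := hH z l j
      have h5 : (φ z z l) * (φ z z l) * (ψ z i * (x j : ℂ → ℂ) z) =
          (φ z z l) * (φ z z l) * (ψ z j * (x i : ℂ → ℂ) z) := by
        linear_combination (φ z z l * (x j : ℂ → ℂ) z) * e1 - (φ z z l * (x i : ℂ → ℂ) z) * e2 +
          (φ z z i * ψ z l) * e4 - (φ z z j * ψ z l) * e3
      exact mul_left_cancel₀ (mul_ne_zero hl hl) h5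
    obtain ⟨l, hl⟩ : ∃ l, (x l : ℂ → ℂ) z₀ ≠ 0 := by
      obtain ⟨h1, _⟩ := hx z₀
      by_contra hcon
      push Not at hcon
      exact h1 (funext hcon)
    have hψl : AnalyticAt ℂ (fun z => ψ z l) z₀ :=
      ((Lim_pr l).analyticAt _).comp hψa
    have hloc : ∀ᶠ w in 𝓝 z₀, ψ w = (ψ w l / (x l : ℂ → ℂ) w) •
        (WithLp.toLp 2 (fun j => (x j : ℂ → ℂ) w) : EN N) := by
      filter_upwards [hprop, (x l).diff.continuous.continuousAt.eventually_ne hl] with w h1 h2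
      ext i
      rw [PiLp.smul_apply, smul_eq_mul, div_mul_eq_mul_div, eq_div_iff h2]
      exact h1 i l
    refine ⟨m, fun w => ψ w l / (x l : ℂ → ℂ) w, hψl.div ((x l).analyticAt z₀) hl, ?_, ?_⟩
    · intro h
      apply hψ0
      rw [hloc.self_of_nhds]
      have h' : ψ z₀ l / (x l : ℂ → ℂ) z₀ = 0 := h
      rw [h', zero_smul]
    · filter_upwards [hψe, hloc] with w h1 h2
      rw [h1]
      exact congrArg _ h2

/-- the limit curve, with the growth -/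
theorem limit_curve2 (hM : MetricData K B G ρ M c₀ C) (F : ℕ → ℂ → EN N) (hF : ∀ n : ℕ, Curve K (ball 0 (n + 1)) (F n))
    (h0 : ∀ n, mt G (F n) 0 = 1) (c' : ℕ → ℝ) (hc' : ∀ R, 1 ≤ R → 0 < c' R)
    (hchar : ∀ R : ℕ, 1 ≤ R → ∀ n, R ≤ n → ∃ g : ℂ → ℂ, Differentiable ℂ g ∧
      (∀ z ∈ ball (0 : ℂ) R, ‖Complex.exp (g z) • F n z‖ ≤ 1) ∧ c' R ≤ ‖Complex.exp (g 0) • F n 0‖) :
    ∃ H : ℂ → EN N, Differentiable ℂ H ∧ (∀ z, H z ∈ K) ∧ 1 ≤ mt G H 0 ∧ ∀ R : ℕ, 1 ≤ R → ∃ HR : ℂ → EN N, DifferentiableOn ℂ HR (ball 0 R) ∧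
      (∀ z ∈ ball (0 : ℂ) R, ‖HR z‖ ≤ 1) ∧ c' R ≤ ‖HR 0‖ ∧ ∀ z ∈ ball (0 : ℂ) R, HR z = 0 ∨ ∃ k : ℂ, k ≠ 0 ∧ H z = k • HR z := by
  classical
  set 𝒰 : Ultrafilter ℕ := hyperfilter ℕ with h𝒰
  have h𝒰top : (𝒰 : Filter ℕ) ≤ atTop := by
    rw [← Nat.cofinite_eq_atTop]
    exact hyperfilter_le_cofinite
  -- the normalised curves
  set c : ℕ → ℝ := fun R => c' (R + 1) with hcdef
  have hc : ∀ R, 0 < c R := fun R => hc' (R + 1) (by omega)
  have hch : ∀ R : ℕ, ∃ g : ℕ → ℂ → ℂ, ∀ n, R + 1 ≤ n → Differentiable ℂ (g n) ∧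
      (∀ z ∈ ball (0 : ℂ) (R + 1), ‖Complex.exp (g n z) • F n z‖ ≤ 1) ∧
      c R ≤ ‖Complex.exp (g n 0) • F n 0‖ := by
    intro R
    have h1 := hchar (R + 1) (by omega)
    refine ⟨fun n => if h : R + 1 ≤ n then (h1 n h).choose else 0, fun n hn => ?_⟩
    have h2 := (h1 n hn).choose_spec
    simp only [hn, dite_true]
    refine ⟨h2.1, fun z hz => h2.2.1 z ?_, h2.2.2⟩
    push_cast
    exact hz
  choose g hg using hch
  set Fr : ℕ → ℕ → ℂ → EN N := fun R n z => Complex.exp (g R n z) • F n z with hFr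
  have hFrK : ∀ R n : ℕ, R + 1 ≤ n → Curve K (ball 0 (R + 1)) (Fr R n) := by
    intro R n hn
    have hsub : ball (0 : ℂ) (R + 1) ⊆ ball 0 (n + 1) := by
      apply ball_subset_ball
      have : (R : ℝ) ≤ n := by exact_mod_cast (by omega : R ≤ n)
      linarith
    refine ⟨?_, fun z hz => ?_⟩
    · exact ((hg R n hn).1.cexp.differentiableOn).smul ((hF n).1.mono hsub)
    · exact hM.smul _ ((hF n).2 z (hsub hz)) _ (Complex.exp_ne_zero _)
  have hev : ∀ R : ℕ, ∀ᶠ n in (𝒰 : Filter ℕ), R + 1 ≤ n := fun R =>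
    h𝒰top (eventually_ge_atTop (R + 1))
  have hmont : ∀ R : ℕ, ∃ h : ℂ → EN N, DifferentiableOn ℂ h (ball 0 (R + 1)) ∧
      TendstoLocallyUniformlyOn (Fr R) h (𝒰 : Filter ℕ) (ball 0 (R + 1)) := by
    intro R
    refine Pool.Agent.H17.montel_ultrafilter 𝒰 (B := 1) ?_ ?_
    · filter_upwards [hev R] with n hn
      exact (hFrK R n hn).1
    · filter_upwards [hev R] with n hn
      exact (hg R n hn).2.1
  choose Hs hHd hHc using hmont
  have hpt : ∀ (R : ℕ), ∀ z ∈ ball (0 : ℂ) (R + 1), Tendsto (fun n => Fr R n z) (𝒰 : Filter ℕ)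
      (𝓝 (Hs R z)) := fun R z hz => (hHc R).tendsto_at hz
  have hz0 : ∀ R : ℕ, (0 : ℂ) ∈ ball (0 : ℂ) (R + 1) := fun R => mem_ball_self (by positivity)
  have hHc0 : ∀ R, c R ≤ ‖Hs R 0‖ := by
    intro R
    have h1 := (hpt R 0 (hz0 R)).norm
    refine ge_of_tendsto h1 ?_
    filter_upwards [hev R] with n hn
    exact (hg R n hn).2.2
  have hHb : ∀ R : ℕ, ∀ z ∈ ball (0 : ℂ) (R + 1), ‖Hs R z‖ ≤ 1 := by
    intro R z hz
    refine le_of_tendsto (hpt R z hz).norm ?_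
    filter_upwards [hev R] with n hn
    exact (hg R n hn).2.1 z hz
  have hH0 : ∀ R, Hs R 0 ≠ 0 := by
    intro R h
    have h2 := hHc0 R
    rw [h, norm_zero] at h2
    exact absurd (hc R) (not_lt.2 h2)
  have hprop : ∀ (R S : ℕ) (z : ℂ), z ∈ ball (0 : ℂ) (R + 1) → z ∈ ball (0 : ℂ) (S + 1) →
      ∀ i j, Hs R z i * Hs S z j = Hs R z j * Hs S z i := by
    intro R S z hR hS i j
    have hco : ∀ (T : ℕ), z ∈ ball (0 : ℂ) (T + 1) → ∀ i, Tendsto (fun n => Fr T n z i)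
        (𝒰 : Filter ℕ) (𝓝 (Hs T z i)) := fun T hT i =>
      ((Lim_pr i).continuous.tendsto _).comp (hpt T z hT)
    have h1 : Tendsto (fun n => Fr R n z i * Fr S n z j) (𝒰 : Filter ℕ)
        (𝓝 (Hs R z i * Hs S z j)) := (hco R hR i).mul (hco S hS j)
    have h2 : Tendsto (fun n => Fr R n z j * Fr S n z i) (𝒰 : Filter ℕ)
        (𝓝 (Hs R z j * Hs S z i)) := (hco R hR j).mul (hco S hS i)
    refine tendsto_nhds_unique h1 (h2.congr fun n => ?_)
    simp only [hFr, PiLp.smul_apply, smul_eq_mul]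
    ring
  obtain ⟨H, hHdiff, hHne, hHloc⟩ := Lim_glue Hs hHd hH0 hprop
  -- membership is invariant under scaling
  have hsm : ∀ (x : EN N) (a : ℂ), a ≠ 0 → (a • x ∈ K ↔ x ∈ K) := by
    intro x a ha
    refine ⟨fun h => ?_, fun h => hM.smul x h a ha⟩
    have := hM.smul _ h a⁻¹ (inv_ne_zero ha)
    rwa [smul_smul, inv_mul_cancel₀ ha, one_smul] at this
  have hsmc : ∀ (x : EN N) (a : ℂ), a ≠ 0 → x ∈ closure K → a • x ∈ closure K := by
    intro x a ha hx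
    exact map_mem_closure (continuous_const_smul a) hx fun y hy => hM.smul y hy a ha
  have hHcl1 : ∀ (R : ℕ), ∀ z ∈ ball (0 : ℂ) (R + 1), Hs R z ∈ closure K := by
    intro R z hz
    refine mem_closure_of_tendsto (hpt R z hz) ?_
    filter_upwards [hev R] with n hn
    exact (hFrK R n hn).2 z hz
  have hmem : ∀ z : ℂ, z ∈ ball (0 : ℂ) ((⌈‖z‖⌉₊ : ℕ) + 1) := by
    intro z
    rw [mem_ball_zero_iff]
    have := Nat.le_ceil ‖z‖
    linarith
  have hHcl : ∀ z, H z ∈ closure K := by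
    intro z₀
    obtain ⟨k, u, hua, hu0, hue⟩ := hHloc _ z₀ (hmem z₀)
    have h1 : ∀ᶠ w in 𝓝[≠] z₀, H w ∈ closure K := by
      filter_upwards [hue.filter_mono nhdsWithin_le_nhds, self_mem_nhdsWithin,
        (hua.continuousAt.eventually_ne hu0).filter_mono nhdsWithin_le_nhds,
        nhdsWithin_le_nhds (isOpen_ball.mem_nhds (hmem z₀))] with w a1 a2 a3 a4
      have h2 := hHcl1 _ w a4
      rw [a1, smul_smul] at h2
      have h3 : (w - z₀) ^ k * u w ≠ 0 := mul_ne_zero (pow_ne_zero _ (sub_ne_zero.2 a2)) a3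
      have h4 := hsmc _ _ (inv_ne_zero h3) h2
      rwa [smul_smul, inv_mul_cancel₀ h3, one_smul] at h4
    have h2 : Tendsto H (𝓝[≠] z₀) (𝓝 (H z₀)) :=
      (hHdiff.continuous.tendsto z₀).mono_left nhdsWithin_le_nhds
    exact isClosed_closure.mem_of_tendsto h2 h1
  -- the set of points outside K is open
  have hopen : IsOpen {z : ℂ | H z ∉ K} := by
    rw [isOpen_iff_mem_nhds]
    intro z₀ hz₀
    obtain ⟨k, u, hua, hu0, hue⟩ := hHloc _ z₀ (hmem z₀)
    have hball := isOpen_ball.mem_nhds (hmem z₀)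
    obtain ⟨s, hs, hsub⟩ := Metric.eventually_nhds_iff_ball.1
      ((hue.and hua.eventually_analyticAt).and hball)
    have hd : DifferentiableOn ℂ (fun w => u w • H w) (ball z₀ s) := fun w hw =>
      (((hsub w hw).1.2.differentiableAt).smul (hHdiff w)).differentiableWithinAt
    have hconv : TendstoLocallyUniformlyOn (Fr ⌈‖z₀‖⌉₊) (fun z => (z - z₀) ^ k • (u z • H z))
        (𝒰 : Filter ℕ) (ball z₀ s) :=
      ((hHc ⌈‖z₀‖⌉₊).mono fun w hw => (hsub w hw).2).congr_right fun w hw => (hsub w hw).1.1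
    have hcur : ∀ᶠ n in (𝒰 : Filter ℕ), Curve K (ball z₀ s) (Fr ⌈‖z₀‖⌉₊ n) := by
      filter_upwards [hev ⌈‖z₀‖⌉₊] with n hn
      exact ⟨(hFrK _ n hn).1.mono fun w hw => (hsub w hw).2,
        fun w hw => (hFrK _ n hn).2 w (hsub w hw).2⟩
    have h1 := hM.hur (𝒰 : Filter ℕ) inferInstance (Fr ⌈‖z₀‖⌉₊) (fun w => u w • H w) k z₀ s hs hcur
      hd hconv (smul_ne_zero hu0 (hHne z₀)) (fun h => hz₀ ((hsm _ _ hu0).1 h))
    filter_upwards [h1, hua.continuousAt.eventually_ne hu0] with w a1 a2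
    exact fun h => a1 ((hsm _ _ a2).2 h)
  have hclosed : IsClosed {z : ℂ | H z ∉ K} := by
    rw [← isOpen_compl_iff, isOpen_iff_mem_nhds]
    intro z₀ hz₀
    have hz₀' : H z₀ ∈ K := not_not.1 hz₀
    have h1 := hHdiff.continuous.continuousAt.eventually (hM.rel_open _ hz₀')
    filter_upwards [h1] with w hw
    exact not_not.2 (hw (hHcl w))
  -- the first curve near the origin
  obtain ⟨k, u, hua, hu0, hue⟩ := hHloc 0 0 (hz0 0)
  have hmt : ∀ n, 0 + 1 ≤ n → mt G (Fr 0 n) 0 = 1 := by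
    intro n hn
    have hFn : DifferentiableAt ℂ (F n) 0 :=
      (hF n).1.differentiableAt (isOpen_ball.mem_nhds (hz0 n))
    have h1 := mt_smul hM hFn ((hg 0 n hn).1.cexp.differentiableAt (x := 0)) ((hF n).2 0 (hz0 n))
      (Complex.exp_ne_zero _)
    rw [hFr, h1, h0]
  have hball := isOpen_ball.mem_nhds (hz0 0)
  obtain ⟨s, hs, hsub⟩ := Metric.eventually_nhds_iff_ball.1 (hue.and hball)
  have hcur0 : ∀ᶠ n in (𝒰 : Filter ℕ), Curve K (ball 0 s) (Fr 0 n) := by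
    filter_upwards [hev 0] with n hn
    exact ⟨(hFrK _ n hn).1.mono fun w hw => (hsub w hw).2,
      fun w hw => (hFrK _ n hn).2 w (hsub w hw).2⟩
  have hconv0 : TendstoLocallyUniformlyOn (Fr 0) (Hs 0) (𝒰 : Filter ℕ) (ball 0 s) :=
    (hHc 0).mono fun w hw => (hsub w hw).2
  have hAK : ∀ z, H z ∈ K := by
    rcases isClopen_iff.1 ⟨hclosed, hopen⟩ with h | h
    · intro z
      by_contra hz
      have : z ∈ {z : ℂ | H z ∉ K} := hz
      rw [h] at this
      exact this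
    · exfalso
      have hout : ∀ z ∈ ball (0 : ℂ) s, Hs 0 z ∉ K := by
        intro z hz hzK
        have h1 := hM.ne _ hzK
        have h2 := (hsub z hz).1
        rw [smul_smul] at h2
        have h3 : (z - 0) ^ k * u z ≠ 0 := by
          intro h3
          rw [h3, zero_smul] at h2
          exact h1 h2
        rw [h2, hsm _ _ h3] at hzK
        have h4 : z ∈ {z : ℂ | H z ∉ K} := by rw [h]; trivial
        exact h4 hzK
      have h1 := hM.lim (𝒰 : Filter ℕ) inferInstance (Fr 0) (Hs 0) 0 s hs hcur0 hconv0 (hH0 0)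
        hout (1 / 2) (by norm_num)
      obtain ⟨n, h2, h3⟩ := (h1.and (hev 0)).exists
      rw [hmt n h3] at h2
      norm_num at h2
  refine ⟨H, hHdiff, hAK, ?_, fun R hR => ?_⟩
  swap
  · obtain ⟨S, rfl⟩ : ∃ S, R = S + 1 := ⟨R - 1, by omega⟩
    push_cast
    refine ⟨Hs S, hHd S, hHb S, hHc0 S, fun z hz => ?_⟩
    obtain ⟨k, u, hua, hu0, hue⟩ := hHloc S z hz
    have h1 := hue.self_of_nhds
    rcases Nat.eq_zero_or_pos k with hk | hk
    · right
      subst hk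
      rw [pow_zero, one_smul] at h1
      exact ⟨(u z)⁻¹, inv_ne_zero hu0, by rw [h1, smul_smul, inv_mul_cancel₀ hu0, one_smul]⟩
    · left
      rw [h1, sub_self, zero_pow hk.ne', zero_smul]
  have hκ0 : (0 - 0 : ℂ) ^ k * u 0 ≠ 0 := by
    intro h3
    have h2 := hue.self_of_nhds
    rw [smul_smul, h3, zero_smul] at h2
    exact hH0 0 h2
  have h0K : Hs 0 0 ∈ K := by
    have h2 := hue.self_of_nhds
    rw [smul_smul] at h2
    rw [h2, hsm _ _ hκ0]
    exact hAK 0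
  have h1 : 1 ≤ mt G (Hs 0) 0 := mt_limit hM hs hcur0 hconv0 h0K (by
    filter_upwards [hev 0] with n hn
    exact (hmt n hn).ge)
  have h2 : Hs 0 =ᶠ[𝓝 0] fun w => ((w - 0) ^ k * u w) • H w := by
    filter_upwards [hue] with w hw
    rw [hw, smul_smul]
  have h3 : mt G (Hs 0) 0 = mt G (fun w => ((w - 0) ^ k * u w) • H w) 0 := by
    unfold mt
    rw [h2.deriv_eq, h2.self_of_nhds]
  have h4 := mt_smul hM (F := H) (k := fun w => (w - 0) ^ k * u w) (z := 0) (hHdiff 0)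
    (by
      have : DifferentiableAt ℂ u 0 := hua.differentiableAt
      fun_prop) (hAK 0) hκ0
  rw [h3, h4] at h1
  exact h1

theorem limit_curve (hM : MetricData K B G ρ M c₀ C) (F : ℕ → ℂ → EN N) (hF : ∀ n : ℕ, Curve K (ball 0 (n + 1)) (F n))
    (h0 : ∀ n, mt G (F n) 0 = 1)
    (hchar : ∀ R : ℕ, 1 ≤ R → ∃ c : ℝ, 0 < c ∧ ∀ n, R ≤ n → ∃ g : ℂ → ℂ, Differentiable ℂ g ∧
      (∀ z ∈ ball (0 : ℂ) R, ‖Complex.exp (g z) • F n z‖ ≤ 1) ∧ c ≤ ‖Complex.exp (g 0) • F n 0‖) :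
    ∃ H : ℂ → EN N, Differentiable ℂ H ∧ (∀ z, H z ∈ K) ∧ 1 ≤ mt G H 0 := by
  classical
  choose! c hc h using hchar
  obtain ⟨H, h1, h2, h3, -⟩ := limit_curve2 hM F hF h0 c hc h
  exact ⟨H, h1, h2, h3⟩

end Pool.Agent.H36.BP
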