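import Pool.Agent.H36.BP.Resc
import Pool.Agent.H36.BP.Char
import Pool.Agent.H36.BP.Lim
import Pool.Agent.H36.BP.OrdDefs

/-!
# BP Brody: the Brody step

Otherwise `rescale`, `char_bound` (with `R ≤ n`: `Curve K (ball 0 (R+1))`), `limit_curve` give an entire curve `H` with `mt G H 0 ≥ 1`.  If `H` is not constant in projective space then it lies in `B`
(`BrodyMod`) and `mt G H 0 = 0` (`zero`).  If it is constant, `H w = c(w) H 0` for all `w`, then `H' 0` is a multiple of `H 0` (`H' 0 = lim (H w - H 0)/w`, closed line) and `mt G H 0 = 0` (`mt_const`).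
-/

set_option autoImplicit false

namespace Pool.Agent.H36.BP

open Filter Topology Metric

variable {N : ℕ}

variable {K B : Set (EN N)} {G : EN N → EN N → ℝ} {ρ : EN N → ℝ} {M : ℕ} {c₀ C : ℝ}

/-- the derivative of a curve on a line is on the line -/
theorem Brody_deriv_line {H : ℂ → EN N} {z₀ : ℂ} (hH : DifferentiableAt ℂ H z₀) (h : ∀ z, ∃ c : ℂ, H z = c • H z₀) :
    ∃ a : ℂ, deriv H z₀ = a • H z₀ := by
  have hcl : IsClosed ((ℂ ∙ H z₀ : Submodule ℂ (EN N)) : Set (EN N)) := Submodule.closed_of_finiteDimensional _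
  have hmem : deriv H z₀ ∈ (ℂ ∙ H z₀ : Submodule ℂ (EN N)) := by
    have ht := (hasDerivAt_iff_tendsto_slope.mp hH.hasDerivAt)
    refine hcl.mem_of_tendsto ht (Filter.Eventually.of_forall fun z => ?_)
    obtain ⟨c, hc⟩ := h z
    rw [slope_def_module]
    refine Submodule.smul_mem _ _ (Submodule.sub_mem _ ?_ (Submodule.mem_span_singleton_self _))
    rw [hc]
    exact Submodule.smul_mem _ _ (Submodule.mem_span_singleton_self _)
  obtain ⟨a, ha⟩ := Submodule.mem_span_singleton.mp hmem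
  exact ⟨a, ha.symm⟩

/-- the Brody step: only entire curves of order at most two are needed -/
theorem brody_bound2 (hM : MetricData K B G ρ M c₀ C) (hB : BrodyMod2 K B) :
    ∃ L : ℝ, 0 < L ∧ ∀ F, Curve K (ball 0 1) F → mt G F 0 ≤ L := by
  by_contra hcon
  have hunb : ∀ L : ℝ, ∃ F, Curve K (ball 0 1) F ∧ L < mt G F 0 := by
    intro L
    by_contra h
    push Not at h
    apply hcon
    refine ⟨max L 1, lt_of_lt_of_le one_pos (le_max_right _ _), fun F hF => ?_⟩
    exact (h F hF).trans (le_max_left _ _)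
  choose F hF1 hF2 hF3 using fun n => rescale hM hunb n
  obtain ⟨C₁, hC₁, hch⟩ := char_bound2 hM
  obtain ⟨H, hH, hHK, hH0, hHR⟩ := limit_curve2 hM F hF1 hF2 (fun R => Real.exp (-(C₁ * (1 + (R : ℝ) ^ 2)))) (fun R _ => Real.exp_pos _) (by
    intro R hR n hn
    have hR0 : (0 : ℝ) < R := by exact_mod_cast hR
    have hle : (R : ℝ) + 1 ≤ n + 1 := by
      have : (R : ℝ) ≤ n := by exact_mod_cast hn
      linarith
    have hsub : ball (0 : ℂ) (R + 1) ⊆ ball (0 : ℂ) (n + 1) := ball_subset_ball hle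
    exact hch R hR0 (F n) ⟨(hF1 n).1.mono hsub, fun z hz => (hF1 n).2 z (hsub hz)⟩ (hF2 n) (fun z hz => hF3 n z (hsub hz)))
  -- the growth of the limit curve
  have hord : OrdTwo H := by
    refine ⟨5 * C₁, fun r hr => ?_⟩
    set R : ℕ := ⌈r⌉₊ with hR
    have h1 : 1 ≤ R := Nat.one_le_iff_ne_zero.mpr (by rw [hR]; exact (Nat.ceil_pos.mpr hr).ne')
    have h2 : r ≤ R := Nat.le_ceil r
    have h3 : (R : ℝ) < r + 1 := Nat.ceil_lt_add_one hr.le
    obtain ⟨HR, h4, h5, h6, h7⟩ := hHR R h1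
    have hsub : ball (0 : ℂ) r ⊆ ball (0 : ℂ) R := ball_subset_ball h2
    refine ⟨HR, h4.mono hsub, fun z hz => h5 z (hsub hz), le_trans (Real.exp_le_exp.mpr ?_) h6, fun z hz => h7 z (hsub hz)⟩
    have h8 : (1 + (R : ℝ) ^ 2) ≤ 5 * (1 + r ^ 2) := by nlinarith [sq_nonneg (r - 1)]
    have h9 := mul_le_mul_of_nonneg_left h8 hC₁
    linarith
  have hzero : mt G H 0 = 0 := by
    by_cases hc : ∃ z w, ∀ c : ℂ, H z ≠ c • H w
    · exact hM.zero H 0 (hH.analyticAt 0) (Filter.Eventually.of_forall fun z => ⟨hHK z, hB H hH hHK hc hord z⟩)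
    · push Not at hc
      obtain ⟨a, ha⟩ := Brody_deriv_line (hH 0) (fun z => hc z 0)
      exact mt_const hM (hHK 0) ha
  linarith

theorem brody_bound (hM : MetricData K B G ρ M c₀ C) (hB : BrodyMod K B) :
    ∃ L : ℝ, 0 < L ∧ ∀ F, Curve K (ball 0 1) F → mt G F 0 ≤ L :=
  brody_bound2 hM fun F h1 h2 h3 _ => hB F h1 h2 h3

end Pool.Agent.H36.BP
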