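import Pool.Agent.H36.BP.MtA

/-!
# BP ExtA: growth at the puncture

`z ≠ 0`, `|z| < 1`, `z = exp w₀`, `R = log(1/|z|) = -Re w₀`.  The curve `ζ ↦ F(exp(w₀ + R ζ))` is defined for `|ζ| < 1` (`Re(w₀ + Rζ) < 0`); `mt_comp` with `φ ζ = exp(w₀ + Rζ)`, `|φ'(0)| = R|z|`.
-/

set_option autoImplicit false

namespace Pool.Agent.H36.BP

open Filter Topology Metric

variable {N : ℕ}

variable {K B : Set (EN N)} {G : EN N → EN N → ℝ} {ρ : EN N → ℝ} {M : ℕ} {c₀ C : ℝ}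

theorem growth (hM : MetricData K B G ρ M c₀ C) {L : ℝ} (hL : ∀ F, Curve K (ball 0 1) F → mt G F 0 ≤ L) {F : ℂ → EN N}
    (hF : Curve K (ball 0 1 \ {0}) F) {z : ℂ} (hz : z ≠ 0) (hz1 : ‖z‖ < 1) :
    mt G F z * (‖z‖ * Real.log (1 / ‖z‖)) ≤ L := by
  have hzp : 0 < ‖z‖ := norm_pos_iff.2 hz
  obtain ⟨R, hR⟩ : ∃ R : ℝ, R = Real.log (1 / ‖z‖) := ⟨_, rfl⟩
  have hR0 : 0 < R := by
    rw [hR]
    exact Real.log_pos (by rw [lt_div_iff₀ hzp]; linarith)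
  have hRl : R = -Real.log ‖z‖ := by rw [hR, one_div, Real.log_inv]
  rw [← hR]
  obtain ⟨φ, hφ⟩ : ∃ φ : ℂ → ℂ, φ = fun ζ => Complex.exp (Complex.log z + R * ζ) := ⟨_, rfl⟩
  have hφd : ∀ ζ, HasDerivAt φ (Complex.exp (Complex.log z + R * ζ) * R) ζ := by
    intro ζ
    rw [hφ]
    have h1 : HasDerivAt (fun ζ : ℂ => Complex.log z + R * ζ) ((R : ℂ) * 1) ζ :=
      ((hasDerivAt_id' ζ).const_mul (R : ℂ)).const_add _
    rw [mul_one] at h1
    exact h1.cexp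
  have hφ0 : φ 0 = z := by
    rw [hφ]
    simp only [mul_zero, add_zero]
    exact Complex.exp_log hz
  have hφm : ∀ ζ ∈ ball (0 : ℂ) 1, φ ζ ∈ ball (0 : ℂ) 1 \ {0} := by
    intro ζ hζ
    rw [mem_ball_zero_iff] at hζ
    have h1 : ζ.re < 1 := lt_of_le_of_lt (Complex.re_le_norm ζ) hζ
    refine ⟨?_, ?_⟩
    · rw [mem_ball_zero_iff, hφ]
      simp only
      rw [Complex.norm_exp, Real.exp_lt_one_iff, Complex.add_re, Complex.log_re, Complex.re_ofReal_mul]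
      have h2 : R * ζ.re < R * 1 := mul_lt_mul_of_pos_left h1 hR0
      linarith
    · rw [Set.mem_singleton_iff, hφ]
      exact Complex.exp_ne_zero _
  have hopen : IsOpen (ball (0 : ℂ) 1 \ {0}) := isOpen_ball.sdiff isClosed_singleton
  have hFd : ∀ w ∈ ball (0 : ℂ) 1 \ {0}, DifferentiableAt ℂ F w := fun w hw =>
    hF.1.differentiableAt (hopen.mem_nhds hw)
  have hcurve : Curve K (ball 0 1) (fun ζ => F (φ ζ)) := by
    refine ⟨fun ζ hζ => ?_, fun ζ hζ => hF.2 _ (hφm ζ hζ)⟩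
    exact ((hFd _ (hφm ζ hζ)).comp ζ (hφd ζ).differentiableAt).differentiableWithinAt
  have hzm : z ∈ ball (0 : ℂ) 1 \ {0} := by
    have := hφm 0 (mem_ball_self one_pos)
    rwa [hφ0] at this
  have h1 := hL _ hcurve
  rw [mt_comp hM (by rw [hφ0]; exact hFd z hzm) (hφd 0).differentiableAt
    (by rw [hφ0]; exact hF.2 z hzm), hφ0, (hφd 0).deriv, mul_zero, add_zero, Complex.exp_log hz,
    norm_mul, Complex.norm_real, Real.norm_of_nonneg hR0.le] at h1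
  rw [mul_comm]
  exact h1

end Pool.Agent.H36.BP
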