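import Pool.Agent.H36.BP.MtA

/-!
# BP ExtC: points where the metric is positive

Near `z`: `ρ(F w) ≠ 0` for `w ≠ z` (`ρ_zero`, `hB`), and `wd (F w) (deriv F w) ≠ 0` for `w ≠ z`: otherwise (frequently `0`) all minors `F_i F_j' - F_j F_i'` (holomorphic; they vanish where `F' = a F`, `wd_eq_zero`) vanish frequently, hence near `z`
(`AnalyticAt.frequently_zero_iff_eventually_zero`), and then `wd = 0` near `z` (if all minors of `(x, v)` vanish and `x ≠ 0` then `v` is a multiple of `x`), against `hc`.  Now `lower`: `mt G F w ≥ ρ^M fs > 0`.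
-/

set_option autoImplicit false

namespace Pool.Agent.H36.BP

open Filter Topology Metric

variable {N : ℕ}

variable {K B : Set (EN N)} {G : EN N → EN N → ℝ} {ρ : EN N → ℝ} {M : ℕ} {c₀ C : ℝ}


private theorem ExtC_proj {F : ℂ → EN N} {z : ℂ} (hF : AnalyticAt ℂ F z) (i : Fin (N + 1)) :
    AnalyticAt ℂ (fun w => F w i) z :=
  (ContinuousLinearMap.analyticAt (EuclideanSpace.proj i : EN N →L[ℂ] ℂ) (F z)).comp hF

theorem exists_pos (hM : MetricData K B G ρ M c₀ C) {F : ℂ → EN N} {z : ℂ} (hF : AnalyticAt ℂ F z) (hK : ∀ᶠ w in 𝓝 z, F w ∈ K)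
    (hB : ¬ ∀ᶠ w in 𝓝 z, F w ∈ B) (hc : ¬ ∀ᶠ w in 𝓝 z, wd (F w) (deriv F w) = 0) : ∀ᶠ w in 𝓝[≠] z, 0 < mt G F w := by
  have h1 : ∀ᶠ w in 𝓝[≠] z, ρ (F w) ≠ 0 := by
    by_contra h
    exact hB (hM.ρ_zero F z hF hK (by
      rw [Filter.not_eventually] at h
      simpa using h))
  have h2 : ∀ᶠ w in 𝓝[≠] z, wd (F w) (deriv F w) ≠ 0 := by
    by_contra h
    rw [Filter.not_eventually] at h
    refine hc ?_
    have h3 : ∀ i j : Fin (N + 1),
        ∀ᶠ w in 𝓝 z, F w i * deriv F w j - F w j * deriv F w i = 0 := by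
      intro i j
      have han : AnalyticAt ℂ (fun w => F w i * deriv F w j - F w j * deriv F w i) z :=
        ((ExtC_proj hF i).mul (ExtC_proj hF.deriv j)).sub
          ((ExtC_proj hF j).mul (ExtC_proj hF.deriv i))
      refine (han.frequently_zero_iff_eventually_zero).1 ?_
      refine (h.and_eventually (hK.filter_mono nhdsWithin_le_nhds)).mono ?_
      rintro w ⟨hw1, hw2⟩
      rw [not_not, wd_eq_zero (hM.ne _ hw2)] at hw1
      obtain ⟨a, ha⟩ := hw1
      rw [ha]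
      simp only [PiLp.smul_apply, smul_eq_mul]
      ring
    have h4 : ∀ᶠ w in 𝓝 z, ∀ i j : Fin (N + 1),
        F w i * deriv F w j - F w j * deriv F w i = 0 :=
      Filter.eventually_all.2 fun i => Filter.eventually_all.2 fun j => h3 i j
    filter_upwards [h4, hK] with w hw1 hw2
    rw [wd_eq_zero (hM.ne _ hw2)]
    have h5 : ∃ i, F w i ≠ 0 := by
      by_contra h6
      rw [not_exists] at h6
      refine hM.ne _ hw2 (PiLp.ext fun i => ?_)
      exact not_not.1 (h6 i)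
    obtain ⟨i, hi⟩ := h5
    refine ⟨deriv F w i / F w i, PiLp.ext fun j => ?_⟩
    rw [PiLp.smul_apply, smul_eq_mul]
    have h6 := hw1 i j
    field_simp
    linear_combination h6
  filter_upwards [h1, h2, hK.filter_mono nhdsWithin_le_nhds] with w hw1 hw2 hw3
  have h3 : 0 < ρ (F w) := lt_of_le_of_ne (hM.ρ_nonneg _ hw3) (Ne.symm hw1)
  have h4 : 0 < wd (F w) (deriv F w) := lt_of_le_of_ne (wd_nonneg _ _) (Ne.symm hw2)
  have h5 : 0 < ‖F w‖ := norm_pos_iff.2 (hM.ne _ hw3)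
  have h6 : 0 < fs (F w) (deriv F w) := div_pos h4 (pow_pos h5 2)
  exact (mul_pos (pow_pos h3 M) h6).trans_le (hM.lower _ hw3 _)

end Pool.Agent.H36.BP
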