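import Pool.Agent.H36.BP.Defs
import Pool.Agent.H17.Montel

/-!
# BP ExtE: the limit at the puncture

For `r = |z₁|/(n+2)` take `θ_n`; `F_n = θ_n F` is bounded by `A` for `|z₁|/(n+2) ≤ |z| ≤ r₁`, `|F_n z₁| ≥ c`.  Along `hyperfilter ℕ` the pointwise limits `H z` exist for `0 < |z| < r₁` (bounded in a finite dimensional space), and by
`montel_ultrafilter` on small discs (`TendstoLocallyUniformlyOn` implies pointwise convergence, so the local limits are `H`) `H` is holomorphic on `0 < |z| < r₁`, `|H z| ≤ A`, `|H z₁| ≥ c`, and `H z` is a multiple of `F z` (closed line).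
`H` is bounded, so it extends to a holomorphic `P` on `|z| < r₁` (`Complex.differentiableOn_update_limUnder_of_bddAbove`, for vector valued functions), `P z₁ ≠ 0`, so `P` does not vanish identically near `0` (identity theorem on the disc),
`P z = z^k Q z`, `Q 0 ≠ 0` (`AnalyticAt.exists_eventuallyEq_pow_smul_nonzero_iff`), `Q z ≠ 0` near `0` and `Q z` is a multiple of `F z`.
-/

set_option autoImplicit false

namespace Pool.Agent.H36.BP

open Filter Topology Metric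

variable {N : ℕ}

theorem puncture_limit {F : ℂ → EN N} (hF : DifferentiableOn ℂ F (ball 0 1 \ {0})) (hF0 : ∀ z ∈ ball (0 : ℂ) 1 \ {0}, F z ≠ 0) {r₁ c A : ℝ} {z₁ : ℂ}
    (hc : 0 < c) (hz1 : 0 < ‖z₁‖) (hz2 : ‖z₁‖ < r₁) (hr1 : r₁ < 1)
    (h : ∀ r : ℝ, 0 < r → r < ‖z₁‖ → ∃ θ : ℂ → ℂ, DifferentiableOn ℂ θ {0}ᶜ ∧
      (∀ z : ℂ, r ≤ ‖z‖ → ‖z‖ ≤ r₁ → ‖θ z • F z‖ ≤ A) ∧ c ≤ ‖θ z₁ • F z₁‖) :
    ∃ Q : ℂ → EN N, AnalyticAt ℂ Q 0 ∧ Q 0 ≠ 0 ∧ ∀ᶠ z in 𝓝[≠] (0 : ℂ), ∃ k : ℂ, k ≠ 0 ∧ Q z = k • F z := by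
  classical
  have hr : ∀ n : ℕ, 0 < ‖z₁‖ / ((n : ℝ) + 2) ∧ ‖z₁‖ / ((n : ℝ) + 2) < ‖z₁‖ := by
    intro n
    have hn : (0 : ℝ) ≤ n := Nat.cast_nonneg n
    refine ⟨by positivity, ?_⟩
    rw [div_lt_iff₀ (by positivity)]
    nlinarith
  choose θ hθd hθb hθc using fun n : ℕ => h (‖z₁‖ / ((n : ℝ) + 2)) (hr n).1 (hr n).2
  set 𝒰 : Ultrafilter ℕ := hyperfilter ℕ with h𝒰
  have h𝒰l : (𝒰 : Filter ℕ) ≤ atTop := by
    rw [← Nat.cofinite_eq_atTop]
    exact hyperfilter_le_cofinite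
  have hsmall : ∀ δ : ℝ, 0 < δ → ∀ᶠ n : ℕ in (𝒰 : Filter ℕ), ‖z₁‖ / ((n : ℝ) + 2) ≤ δ := by
    intro δ hδ
    apply h𝒰l
    have ht : Tendsto (fun n : ℕ => ‖z₁‖ / ((n : ℝ) + 2)) atTop (𝓝 0) :=
      Tendsto.div_atTop tendsto_const_nhds (tendsto_natCast_atTop_atTop.atTop_add tendsto_const_nhds)
    exact (ht.eventually_lt_const hδ).mono fun _ h => h.le
  set Fn : ℕ → ℂ → EN N := fun n z => θ n z • F z with hFn
  -- local discs
  have hloc : ∀ z : ℂ, z ≠ 0 → ‖z‖ < r₁ → ∃ (s : ℝ) (g : ℂ → EN N), 0 < s ∧ ball z s ⊆ ball 0 r₁ \ {0} ∧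
      DifferentiableOn ℂ g (ball z s) ∧ ∀ w ∈ ball z s, Tendsto (fun n => Fn n w) (𝒰 : Filter ℕ) (𝓝 (g w)) := by
    intro z hz hzr
    have hzp : 0 < ‖z‖ := norm_pos_iff.mpr hz
    set s : ℝ := min (‖z‖ / 2) (r₁ - ‖z‖) with hs
    have hs0 : 0 < s := lt_min (by positivity) (by linarith)
    have hw1 : ∀ w ∈ ball z s, ‖z‖ / 2 ≤ ‖w‖ ∧ ‖w‖ < r₁ := by
      intro w hw
      have h1 : ‖w - z‖ < s := by rwa [mem_ball, dist_eq_norm] at hw
      have h2 : s ≤ ‖z‖ / 2 := min_le_left _ _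
      have h3 : s ≤ r₁ - ‖z‖ := min_le_right _ _
      have h4 : ‖z‖ ≤ ‖w‖ + ‖w - z‖ := by
        have := norm_sub_le w (w - z)
        simpa using this
      have h5 : ‖w‖ ≤ ‖z‖ + ‖w - z‖ := by
        have := norm_add_le z (w - z)
        simpa using this
      constructor <;> linarith
    have hsub : ball z s ⊆ ball 0 r₁ \ {0} := by
      intro w hw
      have := hw1 w hw
      refine ⟨by simpa using this.2, ?_⟩
      rintro rfl
      have h1 := this.1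
      rw [norm_zero] at h1
      linarith
    have hsub1 : ball z s ⊆ ball 0 1 \ {0} := fun w hw =>
      ⟨ball_subset_ball hr1.le (hsub hw).1, (hsub hw).2⟩
    obtain ⟨g, hg1, hg2⟩ := Pool.Agent.H17.montel_ultrafilter (E := EN N) 𝒰 (F := Fn) (a := z) (r := s) (B := A)
      (by
        refine Eventually.of_forall fun n => ?_
        refine DifferentiableOn.smul ((hθd n).mono ?_) (hF.mono hsub1)
        intro w hw
        exact (hsub hw).2)
      (by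
        filter_upwards [hsmall (‖z‖ / 2) (by positivity)] with n hn w hw
        exact hθb n w (hn.trans (hw1 w hw).1) (hw1 w hw).2.le)
    exact ⟨s, g, hs0, hsub, hg1, fun w hw => hg2.tendsto_at hw⟩
  -- the limit
  have hlim : ∀ z : ℂ, ∃ l : EN N, z ≠ 0 → ‖z‖ < r₁ → Tendsto (fun n => Fn n z) (𝒰 : Filter ℕ) (𝓝 l) := by
    intro z
    by_cases hz : z ≠ 0 ∧ ‖z‖ < r₁
    · obtain ⟨s, g, hs, -, -, hg⟩ := hloc z hz.1 hz.2
      exact ⟨g z, fun _ _ => hg z (mem_ball_self hs)⟩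
    · exact ⟨0, fun h1 h2 => absurd ⟨h1, h2⟩ hz⟩
  choose H hH using hlim
  have hHd : DifferentiableOn ℂ H (ball 0 r₁ \ {0}) := by
    intro z hz
    have hz0 : z ≠ 0 := hz.2
    have hzr : ‖z‖ < r₁ := by simpa using hz.1
    obtain ⟨s, g, hs, hsub, hgd, hg⟩ := hloc z hz0 hzr
    have heq : H =ᶠ[𝓝 z] g := by
      filter_upwards [ball_mem_nhds z hs] with w hw
      have hw' := hsub hw
      exact tendsto_nhds_unique (hH w hw'.2 (by simpa using hw'.1)) (hg w hw)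
    have : DifferentiableAt ℂ g z := (hgd z (mem_ball_self hs)).differentiableAt (ball_mem_nhds z hs)
    exact (this.congr_of_eventuallyEq heq).differentiableWithinAt
  have hHb : ∀ z ∈ ball (0 : ℂ) r₁ \ {0}, ‖H z‖ ≤ A := by
    intro z hz
    have hz0 : z ≠ 0 := hz.2
    have hzr : ‖z‖ < r₁ := by simpa using hz.1
    refine le_of_tendsto (hH z hz0 hzr).norm ?_
    filter_upwards [hsmall ‖z‖ (norm_pos_iff.mpr hz0)] with n hn
    exact hθb n z hn hzr.le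
  have hz10 : z₁ ≠ 0 := norm_pos_iff.mp hz1
  have hHc : c ≤ ‖H z₁‖ := ge_of_tendsto (hH z₁ hz10 hz2).norm (Eventually.of_forall fun n => hθc n)
  have hHs : ∀ z ∈ ball (0 : ℂ) r₁ \ {0}, ∃ a : ℂ, H z = a • F z := by
    intro z hz
    have hz0 : z ≠ 0 := hz.2
    have hzr : ‖z‖ < r₁ := by simpa using hz.1
    have hcl : IsClosed ((Submodule.span ℂ {F z} : Submodule ℂ (EN N)) : Set (EN N)) :=
      Submodule.closed_of_finiteDimensional _
    have hmem : H z ∈ (Submodule.span ℂ {F z} : Submodule ℂ (EN N)) :=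
      hcl.mem_of_tendsto (hH z hz0 hzr) (Eventually.of_forall fun n =>
        Submodule.smul_mem _ _ (Submodule.mem_span_singleton_self _))
    obtain ⟨a, ha⟩ := Submodule.mem_span_singleton.mp hmem
    exact ⟨a, ha.symm⟩
  have hr0 : 0 < r₁ := hz1.trans hz2
  -- the extension
  set P : ℂ → EN N := Function.update H 0 (limUnder (𝓝[≠] 0) H) with hP
  have hPd : DifferentiableOn ℂ P (ball 0 r₁) := by
    refine Complex.differentiableOn_update_limUnder_of_bddAbove (ball_mem_nhds 0 hr0) hHd ?_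
    refine ⟨A, ?_⟩
    rintro _ ⟨z, hz, rfl⟩
    exact hHb z hz
  have hPH : ∀ z : ℂ, z ≠ 0 → P z = H z := fun z hz => Function.update_of_ne hz _ _
  have hPa : AnalyticOnNhd ℂ P (ball 0 r₁) := hPd.analyticOnNhd isOpen_ball
  have hP0 : ¬ ∀ᶠ z in 𝓝 (0 : ℂ), P z = 0 := by
    intro hev
    have h1 := hPa.eqOn_zero_of_preconnected_of_eventuallyEq_zero (convex_ball (0 : ℂ) r₁).isPreconnected
      (mem_ball_self hr0) hev
    have h2 : P z₁ = 0 := h1 (by simpa using hz2)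
    rw [hPH z₁ hz10] at h2
    rw [h2, norm_zero] at hHc
    linarith
  obtain ⟨k, Q, hQa, hQ0, hQ⟩ := (hPa 0 (mem_ball_self hr0)).exists_eventuallyEq_pow_smul_nonzero_iff.mpr hP0
  refine ⟨Q, hQa, hQ0, ?_⟩
  have hQne : ∀ᶠ z in 𝓝 (0 : ℂ), Q z ≠ 0 := hQa.continuousAt.eventually_ne hQ0
  rw [eventually_nhdsWithin_iff]
  filter_upwards [hQ, hQne, ball_mem_nhds (0 : ℂ) hr0] with z hz1 hz2 hz3 hz4
  have hz0 : z ≠ 0 := hz4
  obtain ⟨a, ha⟩ := hHs z ⟨hz3, hz4⟩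
  rw [hPH z hz0, sub_zero] at hz1
  have hzk : z ^ k ≠ 0 := pow_ne_zero _ hz0
  have he : Q z = ((z ^ k)⁻¹ * a) • F z := by
    rw [mul_smul, ← ha, hz1, smul_smul, inv_mul_cancel₀ hzk, one_smul]
  refine ⟨(z ^ k)⁻¹ * a, ?_, he⟩
  intro h0
  rw [h0, zero_smul] at he
  exact hz2 he

end Pool.Agent.H36.BP
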