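import Pool.Agent.H36.BP.Defs
import Pool.Agent.H17.GlobalLift

/-!
# BP Lift: lifts on discs and punctured discs

Both follow the proof of `Pool.Agent.H17.exists_global_lift` (Weierstrass' theorem `exists_entire_with_orders`: the orders are required on a closed subset where they are locally finite).
Let `j₀` be a coordinate which does not vanish identically near any point (connectedness) and `D z` the order of vanishing at `z` of the `j₀`-th coordinate of a local lift without common zeros.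
* disc: an entire function `w` with `ord_z w = D z` for `|z| ≤ r`, `0` elsewhere; `F_j = w φ_j/φ_(j₀)`.
* punctured disc: the same for `f(1/ζ)` on `|ζ| > 1`: an entire function `w` with order `D(1/ζ)` for `|ζ| ≥ 1/r` and `0` elsewhere; `F_j(z) = w(1/z) φ_j/φ_(j₀)`.
(The sets `{z : D z ≠ 0, |z| ≤ r}` and `{ζ : D(1/ζ) ≠ 0, |ζ| ≥ 1/r}` are locally finite in `ℂ`.)
-/

set_option autoImplicit false

namespace Pool.Agent.H36.BP

open Filter Topology Metric

variable {N : ℕ}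

open Pool.Agent.H17 (PN HolomorphicInto)

/-- common core of both lifting theorems: `w` is a function with the required orders -/
private lemma Lift_core {f : ℂ → PN N} {U V : Set ℂ} (hU : IsOpen U) (hUc : IsPreconnected U)
    (hV : IsOpen V) (hVU : V ⊆ U) (hne : U.Nonempty) (hf : HolomorphicInto f U)
    (hW : ∀ D : ℂ → ℕ, (∀ K : Set ℂ, IsCompact K → K ⊆ U → {z ∈ K | D z ≠ 0}.Finite) →
      ∃ w : ℂ → ℂ, ∀ z ∈ V, AnalyticAt ℂ w z ∧ analyticOrderAt w z = D z) :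
    ∃ F : ℂ → EN N, DifferentiableOn ℂ F V ∧
      ∀ z ∈ V, ∃ h : (F z).ofLp ≠ 0, f z = Projectivization.mk ℂ _ h := by
  classical
  have hf' : ∀ z₀, ∃ φ : ℂ → Fin (N + 1) → ℂ, z₀ ∈ U → (AnalyticAt ℂ φ z₀ ∧
      ∀ᶠ z in 𝓝 z₀, ∃ h : φ z ≠ 0, f z = Projectivization.mk ℂ (φ z) h) := by
    intro z₀
    by_cases h : z₀ ∈ U
    · obtain ⟨φ, h1, h2⟩ := hf z₀ h
      exact ⟨φ, fun _ => ⟨h1, h2⟩⟩
    · exact ⟨fun _ => 0, fun h' => absurd h' h⟩
  choose φ hφ using hf'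
  have hφj : ∀ z₀ ∈ U, ∀ j, AnalyticAt ℂ (fun z => φ z₀ z j) z₀ := fun z₀ hz₀ j =>
    (analyticAt_pi_iff.mp (hφ z₀ hz₀).1) j
  -- comparison of lifts
  have hcmp : ∀ z₀ ∈ U, ∀ᶠ z in 𝓝 z₀, ∃ c : ℂ, c ≠ 0 ∧ ∀ j, φ z₀ z j = c * φ z z j := by
    intro z₀ hz₀
    filter_upwards [(hφ z₀ hz₀).2, hU.mem_nhds hz₀] with z hz hzU
    obtain ⟨h1, h2⟩ := hz
    obtain ⟨h3, h4⟩ := ((hφ z hzU).2).self_of_nhds
    exact Pool.Agent.H17.mk_eq_mk_cross (h2.symm.trans h4)
  have hφ0 : ∀ z₀ ∈ U, φ z₀ z₀ ≠ 0 := fun z₀ hz₀ => ((hφ z₀ hz₀).2).self_of_nhds.1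
  obtain ⟨b, hb⟩ := hne
  obtain ⟨j₀, hj₀⟩ : ∃ j₀, φ b b j₀ ≠ 0 := by
    by_contra h
    push Not at h
    exact hφ0 b hb (funext h)
  -- the coordinate `j₀` does not vanish identically near any point
  set A : Set ℂ := {z₀ | z₀ ∈ U ∧ ∀ᶠ z in 𝓝 z₀, φ z₀ z j₀ = 0} with hA
  set B : Set ℂ := {z₀ | z₀ ∈ U ∧ ∀ᶠ z in 𝓝[≠] z₀, φ z₀ z j₀ ≠ 0} with hB
  have hAopen : IsOpen A := by
    rw [isOpen_iff_mem_nhds]
    rintro z₀ ⟨hz₀U, hz₀⟩
    have h1 : ∀ᶠ z in 𝓝 z₀, φ z z j₀ = 0 := by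
      filter_upwards [hz₀, hcmp z₀ hz₀U] with z h1 h2
      obtain ⟨c, hc, h3⟩ := h2
      have := h3 j₀
      rw [h1] at this
      exact (mul_eq_zero.mp this.symm).resolve_left hc
    filter_upwards [h1.eventually_nhds, hU.mem_nhds hz₀U] with z₁ h2 hz₁U
    refine ⟨hz₁U, ?_⟩
    filter_upwards [h2, hcmp z₁ hz₁U] with z h3 h4
    obtain ⟨c, hc, h5⟩ := h4
    rw [h5, h3, mul_zero]
  have hBopen : IsOpen B := by
    rw [isOpen_iff_mem_nhds]
    rintro z₀ ⟨hz₀U, hz₀⟩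
    have h3 := eventually_nhdsWithin_iff.mp hz₀
    filter_upwards [h3, hcmp z₀ hz₀U, hU.mem_nhds hz₀U] with z h4 h5 hzU
    by_cases hz : z = z₀
    · rw [hz]; exact ⟨hz₀U, hz₀⟩
    · refine ⟨hzU, ?_⟩
      obtain ⟨c, hc, h6⟩ := h5
      rcases (hφj z hzU j₀).eventually_eq_zero_or_eventually_ne_zero with h | h
      · exfalso
        have h8 : φ z z j₀ = 0 := h.self_of_nhds
        apply h4 hz
        rw [h6, h8, mul_zero]
      · exact h
  have hUB : U ⊆ B := by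
    have hdisj : Disjoint B A := by
      rw [Set.disjoint_left]
      rintro z ⟨_, h1⟩ ⟨_, h2⟩
      obtain ⟨y, hy1, hy2⟩ := (h1.and (h2.filter_mono nhdsWithin_le_nhds)).exists
      exact hy1 hy2
    have hcov : U ⊆ B ∪ A := by
      intro z hz
      rcases (hφj z hz j₀).eventually_eq_zero_or_eventually_ne_zero with h | h
      · exact Or.inr ⟨hz, h⟩
      · exact Or.inl ⟨hz, h⟩
    have hbB : b ∈ B := by
      refine ⟨hb, ?_⟩
      rcases (hφj b hb j₀).eventually_eq_zero_or_eventually_ne_zero with h | h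
      · exact absurd h.self_of_nhds hj₀
      · exact h
    exact hUc.subset_left_of_subset_union hBopen hAopen hdisj hcov ⟨b, hb, hbB⟩
  have hne : ∀ z₀ ∈ U, ∀ᶠ z in 𝓝[≠] z₀, φ z₀ z j₀ ≠ 0 := fun z₀ hz₀ => (hUB hz₀).2
  have hfin : ∀ z₀ ∈ U, analyticOrderAt (fun z => φ z₀ z j₀) z₀ ≠ ⊤ := by
    intro z₀ hz₀ h
    rw [analyticOrderAt_eq_top] at h
    obtain ⟨y, hy1, hy2⟩ := ((hne z₀ hz₀).and (h.filter_mono nhdsWithin_le_nhds)).exists
    exact hy1 hy2
  set D : ℂ → ℕ := fun z => analyticOrderNatAt (fun y => φ z y j₀) z with hD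
  have hDord : ∀ z ∈ U, analyticOrderAt (fun y => φ z y j₀) z = D z := fun z hz =>
    (Nat.cast_analyticOrderNatAt (hfin z hz)).symm
  have hDfin : ∀ K : Set ℂ, IsCompact K → K ⊆ U → {z ∈ K | D z ≠ 0}.Finite := by
    intro K hK hKU
    by_contra hinf
    obtain ⟨y, hyK, hy⟩ := Set.Infinite.exists_accPt_of_subset_isCompact hinf hK (fun z hz => hz.1)
    have hyU := hKU hyK
    rw [accPt_iff_frequently_nhdsNE] at hy
    obtain ⟨z, hz1, hz2, hz3, hzU⟩ := (hy.and_eventually ((hne y hyU).and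
      (((hcmp y hyU).filter_mono nhdsWithin_le_nhds).and
        (mem_nhdsWithin_of_mem_nhds (hU.mem_nhds hyU))))).exists
    obtain ⟨c, hc, h4⟩ := hz3
    apply hz1.2
    have h5 : φ z z j₀ ≠ 0 := by
      intro h
      apply hz2
      rw [h4, h, mul_zero]
    have h6 := hDord z hzU
    rw [(hφj z hzU j₀).analyticOrderAt_eq_zero.mpr h5] at h6
    exact_mod_cast h6.symm
  obtain ⟨w, hw⟩ := hW D hDfin
  have hq : ∀ z₀, ∃ q : ℂ → ℂ, z₀ ∈ V → (AnalyticAt ℂ q z₀ ∧ q z₀ ≠ 0 ∧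
      ∀ᶠ z in 𝓝 z₀, w z = q z * φ z₀ z j₀) := by
    intro z₀
    by_cases h : z₀ ∈ V
    · obtain ⟨q, h1⟩ := Pool.Agent.H17.exists_unit_quotient (hw z₀ h).1 (hφj z₀ (hVU h) j₀)
        (hw z₀ h).2 (hDord z₀ (hVU h))
      exact ⟨q, fun _ => h1⟩
    · exact ⟨fun _ => 0, fun h' => absurd h' h⟩
  choose q hq using hq
  set X : Fin (N + 1) → ℂ → ℂ := fun j z => q z z * φ z z j with hX
  have hXloc : ∀ z₀ ∈ V, ∀ j, X j =ᶠ[𝓝 z₀] fun z => q z₀ z * φ z₀ z j := by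
    intro z₀ hz₀ j
    have h1 := eventually_nhdsWithin_iff.mp (hne z₀ (hVU hz₀))
    filter_upwards [h1, hcmp z₀ (hVU hz₀), (hq z₀ hz₀).2.2, hV.mem_nhds hz₀] with z h2 h3 h4 hzV
    by_cases hz : z = z₀
    · rw [hz]
    · obtain ⟨c, hc, h5⟩ := h3
      have h6 := h2 hz
      have h7 : w z = q z z * φ z z j₀ := ((hq z hzV).2.2).self_of_nhds
      have h8 : φ z z j₀ ≠ 0 := by
        intro h
        apply h6
        rw [h5, h, mul_zero]
      have h9 : q z₀ z * c = q z z := by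
        apply mul_right_cancel₀ h8
        rw [← h7, h4, h5]
        ring
      simp only [hX]
      rw [h5, ← h9]
      ring
  have hXdiff : ∀ j, ∀ z₀ ∈ V, DifferentiableAt ℂ (X j) z₀ := by
    intro j z₀ hz₀
    exact (hXloc z₀ hz₀ j).differentiableAt_iff.mpr
      ((hq z₀ hz₀).1.mul (hφj z₀ (hVU hz₀) j)).differentiableAt
  refine ⟨fun z => WithLp.toLp 2 (fun j => X j z), ?_, fun z hz => ?_⟩
  · intro z hz
    apply DifferentiableAt.differentiableWithinAt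
    rw [differentiableAt_euclidean]
    exact fun j => hXdiff j z hz
  · obtain ⟨h1, h2⟩ := ((hφ z (hVU hz)).2).self_of_nhds
    have h3 : (fun j => X j z) = q z z • φ z z := by
      funext j
      rfl
    have h4 : (fun j => X j z) ≠ 0 := by
      rw [h3]
      exact smul_ne_zero (hq z hz).2.1 h1
    refine ⟨h4, ?_⟩
    rw [h2, Projectivization.mk_eq_mk_iff]
    refine ⟨(Units.mk0 (q z z) (hq z hz).2.1)⁻¹, ?_⟩
    change (Units.mk0 (q z z) (hq z hz).2.1)⁻¹ • (fun j => X j z) = φ z z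
    rw [h3, Units.smul_def, smul_smul]
    simp [(hq z hz).2.1]

theorem lift_disc {f : ℂ → PN N} (hf : HolomorphicInto f (ball 0 1)) {r : ℝ} (hr : 0 < r) (hr1 : r < 1) :
    ∃ F : ℂ → EN N, DifferentiableOn ℂ F (ball 0 r) ∧ ∀ z ∈ ball (0 : ℂ) r, ∃ h : (F z).ofLp ≠ 0, f z = Projectivization.mk ℂ _ h := by
  classical
  refine Lift_core isOpen_ball (convex_ball (0 : ℂ) 1).isPreconnected isOpen_ball
    (ball_subset_ball hr1.le) ⟨0, mem_ball_self one_pos⟩ hf ?_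
  intro D hD
  obtain ⟨w, hw⟩ := Pool.Agent.H17.exists_entire_with_orders
    (fun z => if z ∈ closedBall (0 : ℂ) r then D z else 0) (by
      intro R
      refine (hD (closedBall 0 r) (isCompact_closedBall _ _)
        (closedBall_subset_ball hr1)).subset ?_
      rintro z ⟨_, hz⟩
      by_cases h : z ∈ closedBall (0 : ℂ) r
      · simp only [h, if_true] at hz
        exact ⟨h, hz⟩
      · simp [h] at hz)
  refine ⟨w, fun z hz => ⟨w.analyticAt z, ?_⟩⟩
  rw [hw z, if_pos (ball_subset_closedBall hz)]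

/-- the punctured disc is preconnected -/
private lemma Lift_preconn : IsPreconnected (ball (0 : ℂ) 1 \ {0}) := by
  have h1 : ball (0 : ℂ) 1 \ {0} = Complex.exp '' {z : ℂ | z.re < 0} := by
    ext z
    constructor
    · rintro ⟨h1, h2⟩
      have h3 : z ≠ 0 := h2
      refine ⟨Complex.log z, ?_, Complex.exp_log h3⟩
      change (Complex.log z).re < 0
      rw [Complex.log_re]
      exact Real.log_neg (norm_pos_iff.mpr h3) (mem_ball_zero_iff.mp h1)
    · rintro ⟨y, hy, rfl⟩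
      refine ⟨?_, Complex.exp_ne_zero y⟩
      rw [mem_ball_zero_iff, Complex.norm_exp]
      exact Real.exp_lt_one_iff.mpr hy
  rw [h1]
  exact ((convex_halfSpace_re_lt 0).isPreconnected).image _ Complex.continuous_exp.continuousOn

theorem lift_punct {f : ℂ → PN N} (hf : HolomorphicInto f (ball 0 1 \ {0})) {r : ℝ} (hr : 0 < r) (hr1 : r < 1) :
    ∃ F : ℂ → EN N, DifferentiableOn ℂ F (ball 0 r \ {0}) ∧ ∀ z ∈ ball (0 : ℂ) r \ {0}, ∃ h : (F z).ofLp ≠ 0, f z = Projectivization.mk ℂ _ h := by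
  classical
  have hopen : ∀ s : ℝ, IsOpen (ball (0 : ℂ) s \ {0}) := fun s =>
    isOpen_ball.sdiff isClosed_singleton
  refine Lift_core (hopen 1) Lift_preconn (hopen r)
    (Set.sdiff_subset_sdiff_left (ball_subset_ball hr1.le)) ⟨1 / 2, ?_, ?_⟩ hf ?_
  · rw [mem_ball_zero_iff]; norm_num
  · norm_num
  intro D hD
  obtain ⟨w, hw⟩ := Pool.Agent.H17.exists_entire_with_orders
    (fun ζ => if r⁻¹ ≤ ‖ζ‖ then D ζ⁻¹ else 0) (by
      intro R
      set S : ℝ := max R 1 with hS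
      have hS1 : 0 < S := lt_of_lt_of_le one_pos (le_max_right _ _)
      have hK : IsCompact (closedBall (0 : ℂ) r \ ball 0 S⁻¹) :=
        (isCompact_closedBall _ _).diff isOpen_ball
      have hKU : closedBall (0 : ℂ) r \ ball 0 S⁻¹ ⊆ ball 0 1 \ {0} := by
        rintro z ⟨h1, h2⟩
        refine ⟨closedBall_subset_ball hr1 h1, ?_⟩
        rintro rfl
        exact h2 (mem_ball_self (inv_pos.mpr hS1))
      refine ((hD _ hK hKU).image (fun z => z⁻¹)).subset ?_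
      rintro z ⟨hz1, hz⟩
      by_cases h : r⁻¹ ≤ ‖z‖
      · simp only [h, if_true] at hz
        have h0 : 0 < ‖z‖ := lt_of_lt_of_le (inv_pos.mpr hr) h
        refine ⟨z⁻¹, ⟨⟨?_, ?_⟩, hz⟩, inv_inv z⟩
        · rw [mem_closedBall_zero_iff, norm_inv]
          exact inv_le_of_inv_le₀ hr h
        · rw [mem_ball_zero_iff, norm_inv, not_lt]
          apply inv_anti₀ h0
          exact le_trans (mem_closedBall_zero_iff.mp hz1) (le_max_left _ _)
      · simp [h] at hz)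
  refine ⟨fun z => (w : ℂ → ℂ) z⁻¹, fun z hz => ?_⟩
  have hz0 : z ≠ 0 := hz.2
  have hinv : AnalyticAt ℂ (fun z : ℂ => z⁻¹) z := analyticAt_inv hz0
  have hd : deriv (fun z : ℂ => z⁻¹) z ≠ 0 := by
    rw [deriv_inv]
    exact neg_ne_zero.mpr (inv_ne_zero (pow_ne_zero 2 hz0))
  refine ⟨(w.analyticAt z⁻¹).comp hinv, ?_⟩
  have h1 : analyticOrderAt ((w : ℂ → ℂ) ∘ fun z : ℂ => z⁻¹) z = analyticOrderAt (w : ℂ → ℂ) z⁻¹ :=
    analyticOrderAt_comp_of_deriv_ne_zero hinv hd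
  have h2 : r⁻¹ ≤ ‖z⁻¹‖ := by
    rw [norm_inv]
    exact inv_anti₀ (norm_pos_iff.mpr hz0) (mem_ball_zero_iff.mp hz.1).le
  have h3 := hw z⁻¹
  rw [if_pos h2, inv_inv] at h3
  rw [← h3, ← h1]
  rfl

end Pool.Agent.H36.BP
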