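import Pool.Agent.H17BP.Surf
import Pool.Agent.H36.BP.Main
import Pool.Agent.H36.BP.Cl
import Pool.Agent.H36.BP.GermChart
import Pool.Agent.H14.PP.Metric

/-!
# BP Nodal: the nodal theorem for surfaces in `ℙ(V)`

Transport of the metric theorem and of `picard_cone` along a linear isomorphism `V ≃ EN N`.
-/

set_option autoImplicit false

namespace Pool.Agent.H36.BP

open Filter Topology Metric

open Pool.Agent.H17 (PN HolomorphicInto puncturedDisc)
open Pool.Agent.H17BP (Surface IsChart IsForm NoZeros NodalAt)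

variable {V : Type} [NormedAddCommGroup V] [NormedSpace ℂ V] {N : ℕ}

/-- holomorphic maps into the projective space of `V` -/
def HolInto (f : ℂ → Projectivization ℂ V) (U : Set ℂ) : Prop :=
  ∀ z₀ ∈ U, ∃ φ : ℂ → V, AnalyticAt ℂ φ z₀ ∧ ∀ᶠ z in 𝓝 z₀, ∃ h : φ z ≠ 0, f z = Projectivization.mk ℂ (φ z) h

/-- the point of `ℙ^N` of a point of `ℙ(V)` -/
noncomputable def toPN (L : V ≃L[ℂ] EN N) (p : Projectivization ℂ V) : PN N :=
  Projectivization.mk ℂ (L p.rep).ofLp (ofLp_ne_zero fun h => p.rep_nonzero (L.map_eq_zero_iff.mp h))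

/-- the point of `ℙ(V)` of a point of `ℙ^N` -/
noncomputable def ofPN (L : V ≃L[ℂ] EN N) (p : PN N) : Projectivization ℂ V :=
  Projectivization.mk ℂ (L.symm (WithLp.toLp 2 p.rep)) (by
    intro h
    have h1 := L.symm.map_eq_zero_iff.mp h
    exact p.rep_nonzero (congrArg WithLp.ofLp h1))

theorem rep_mk {x : V} (hx : x ≠ 0) : ∃ a : ℂ, a ≠ 0 ∧ (Projectivization.mk ℂ x hx).rep = a • x := by
  obtain ⟨a, ha⟩ := Projectivization.exists_smul_eq_mk_rep ℂ x hx
  exact ⟨a, a.ne_zero, by rw [← ha]; rfl⟩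

theorem toPN_mk (L : V ≃L[ℂ] EN N) {x : V} (hx : x ≠ 0) (h : (L x).ofLp ≠ 0) :
    toPN L (Projectivization.mk ℂ x hx) = Projectivization.mk ℂ (L x).ofLp h := by
  obtain ⟨a, ha, h1⟩ := rep_mk hx
  unfold toPN
  rw [Projectivization.mk_eq_mk_iff']
  refine ⟨a, ?_⟩
  rw [h1, map_smul]
  rfl

theorem ofPN_mk (L : V ≃L[ℂ] EN N) {x : Fin (N + 1) → ℂ} (hx : x ≠ 0) (h : L.symm (WithLp.toLp 2 x) ≠ 0) :
    ofPN L (Projectivization.mk ℂ x hx) = Projectivization.mk ℂ (L.symm (WithLp.toLp 2 x)) h := by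
  obtain ⟨a, ha, h1⟩ := rep_mk hx
  unfold ofPN
  rw [Projectivization.mk_eq_mk_iff']
  refine ⟨a, ?_⟩
  rw [h1, WithLp.toLp_smul, map_smul]

theorem ofPN_toPN (L : V ≃L[ℂ] EN N) (p : Projectivization ℂ V) : ofPN L (toPN L p) = p := by
  have h0 : (L p.rep).ofLp ≠ 0 := ofLp_ne_zero fun h => p.rep_nonzero (L.map_eq_zero_iff.mp h)
  have h1 : L.symm (WithLp.toLp 2 (L p.rep).ofLp) = p.rep := by
    rw [WithLp.toLp_ofLp, L.symm_apply_apply]
  have h2 : toPN L p = Projectivization.mk ℂ (L p.rep).ofLp h0 := rfl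
  rw [h2, ofPN_mk L h0 (by rw [h1]; exact p.rep_nonzero)]
  conv_rhs => rw [← Projectivization.mk_rep p]
  congr 1

theorem holomorphicInto_toPN (L : V ≃L[ℂ] EN N) {f : ℂ → Projectivization ℂ V} {U : Set ℂ} (hf : HolInto f U) :
    HolomorphicInto (fun z => toPN L (f z)) U := by
  intro z₀ hz₀
  obtain ⟨φ, hφ, he⟩ := hf z₀ hz₀
  refine ⟨fun z => (L (φ z)).ofLp, analyticAt_ofLp (((L : V →L[ℂ] EN N).analyticAt _).comp hφ), ?_⟩
  filter_upwards [he] with z hz
  obtain ⟨h1, h2⟩ := hz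
  have h3 : (L (φ z)).ofLp ≠ 0 := ofLp_ne_zero fun h => h1 (L.map_eq_zero_iff.mp h)
  exact ⟨h3, by rw [h2, toPN_mk L h1 h3]⟩

theorem holInto_ofPN (L : V ≃L[ℂ] EN N) {g : ℂ → PN N} {U : Set ℂ} (hg : HolomorphicInto g U) :
    HolInto (fun z => ofPN L (g z)) U := by
  intro z₀ hz₀
  obtain ⟨φ, hφ, he⟩ := hg z₀ hz₀
  refine ⟨fun z => L.symm (WithLp.toLp 2 (φ z)), ((L.symm : EN N →L[ℂ] V).analyticAt _).comp (analyticAt_toLp hφ), ?_⟩
  filter_upwards [he] with z hz
  obtain ⟨h1, h2⟩ := hz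
  have h3 : L.symm (WithLp.toLp 2 (φ z)) ≠ 0 := by
    intro h
    exact h1 (congrArg WithLp.ofLp (L.symm.map_eq_zero_iff.mp h))
  exact ⟨h3, by rw [h2, ofPN_mk L h1 h3]⟩

theorem toPN_mem (L : V ≃L[ℂ] EN N) {X : Set V} (hX : ∀ x ∈ X, ∀ c : ℂ, c ≠ 0 → c • x ∈ X) (p : Projectivization ℂ V) :
    (WithLp.toLp 2 (toPN L p).rep : EN N) ∈ (L.symm ⁻¹' X : Set (EN N)) ↔ p.rep ∈ X := by
  have h0 : (L p.rep).ofLp ≠ 0 := ofLp_ne_zero fun h => p.rep_nonzero (L.map_eq_zero_iff.mp h)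
  obtain ⟨a, ha, h1⟩ := rep_mk (V := Fin (N + 1) → ℂ) h0
  have h2 : (toPN L p).rep = a • (L p.rep).ofLp := h1
  have h3 : L.symm (WithLp.toLp 2 (toPN L p).rep) = a • p.rep := by
    rw [h2, WithLp.toLp_smul, WithLp.toLp_ofLp, map_smul, L.symm_apply_apply]
  show L.symm (WithLp.toLp 2 (toPN L p).rep) ∈ X ↔ p.rep ∈ X
  rw [h3]
  constructor
  · intro h
    have h4 := hX _ h a⁻¹ (inv_ne_zero ha)
    rwa [smul_smul, inv_mul_cancel₀ ha, one_smul] at h4
  · intro h
    exact hX _ h a ha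

/-! ### transport of the surface -/

theorem isCone_transport (L : V ≃L[ℂ] EN N) {X : Set V} (hX : Surface X) : Pool.Agent.H14.PP.IsCone (L.symm ⁻¹' X : Set (EN N)) := by
  refine ⟨?_, ?_, ?_⟩
  · show L.symm 0 ∉ X
    rw [map_zero]
    exact hX.zero
  · intro x hx c hc
    show L.symm (c • x) ∈ X
    rw [map_smul]
    exact hX.smul _ hx c hc
  · rw [← closure_subset_iff_isClosed]
    intro y hy
    rw [Set.insert_eq, closure_union, closure_singleton] at hy
    rcases hy with hy | hy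
    · exact Or.inl hy
    · by_cases h0 : y = 0
      · exact Or.inl h0
      · right
        have h1 : L.symm y ∈ closure X := by
          have h2 : closure (L.symm ⁻¹' X : Set (EN N)) = L.symm ⁻¹' (closure X) := by
            exact (L.symm.toHomeomorph.preimage_closure X).symm
          rw [h2] at hy
          exact hy
        exact hX.closed _ h1 fun h => h0 (L.symm.map_eq_zero_iff.mp h)

theorem germ_transport (L : V ≃L[ℂ] EN N) {X : Set V} {σ : ℂ × ℂ → V} {τ : V → ℂ × ℂ} (h : IsChart X σ τ) :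
    IsGermChart (L.symm ⁻¹' X : Set (EN N)) (fun p => L (σ p)) (fun y => τ (L.symm y)) := by
  have hL : ∀ᶠ y in 𝓝 (L (σ 0)), (fun y => L.symm y) y = L.symm y := Filter.Eventually.of_forall fun _ => rfl
  have ht : Tendsto (fun y => L.symm y) (𝓝 (L (σ 0))) (𝓝 (σ 0)) := by
    have := L.symm.continuous.tendsto (L (σ 0))
    rwa [L.symm_apply_apply] at this
  refine ⟨((L : V →L[ℂ] EN N).analyticAt _).comp h.σ_an, ?_, ?_, ?_, ?_, ?_⟩
  · filter_upwards [h.σ_mem] with p hp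
    show L.symm (L (σ p)) ∈ X
    rwa [L.symm_apply_apply]
  · have h1 : AnalyticAt ℂ τ ((fun y => L.symm y) (L (σ 0))) := by
      show AnalyticAt ℂ τ (L.symm (L (σ 0)))
      rw [L.symm_apply_apply]; exact h.τ_an
    exact h1.comp ((L.symm : EN N →L[ℂ] V).analyticAt _)
  · filter_upwards [h.left] with p hp
    rw [L.symm_apply_apply, hp]
  · filter_upwards [ht.eventually h.right] with y hy hyX
    obtain ⟨c, hc, h1⟩ := hy hyX
    refine ⟨c, hc, ?_⟩
    have h2 : L (L.symm y) = L (c • σ (τ (L.symm y))) := congrArg L h1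
    rwa [L.apply_symm_apply, map_smul] at h2
  · have ht2 : Tendsto (fun z : EN N × ℂ => (L.symm z.1, z.2)) (𝓝 (L (σ 0), (1 : ℂ))) (𝓝 (σ 0, (1 : ℂ))) := by
      have h1 : Continuous (fun z : EN N × ℂ => (L.symm z.1, z.2)) := (L.symm.continuous.comp continuous_fst).prodMk continuous_snd
      have h2 := h1.tendsto (L (σ 0), (1 : ℂ))
      simpa using h2
    filter_upwards [ht2.eventually h.inv] with z hz
    rw [map_smul]
    exact hz

theorem tan_transport (L : V ≃L[ℂ] EN N) {X : Set V} {x v : EN N} (h : Pool.Agent.H14.PP.Tan (L.symm ⁻¹' X : Set (EN N)) x v) :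
    L.symm v ∈ Pool.Agent.H17BP.Tan X (L.symm x) := by
  obtain ⟨F, ⟨hF, hFX⟩, h0, h1⟩ := h
  refine ⟨fun z => L.symm (F z), ((L.symm : EN N →L[ℂ] V).analyticAt _).comp hF, hFX, by simp only [h0], ?_⟩
  have h2 : HasDerivAt (fun z => L.symm (F z)) (L.symm (deriv F 0)) 0 :=
    (L.symm : EN N →L[ℂ] V).hasFDerivAt.comp_hasDerivAt 0 hF.differentiableAt.hasDerivAt
  rw [h2.deriv, h1]

/-- the transported form -/
noncomputable def formT (L : V ≃L[ℂ] EN N) {X : Set V} {m j : ℕ} {Ω : V → V → V → ℂ} (hΩ : IsForm X m j Ω) :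
    Pool.Agent.H14.PP.Form (L.symm ⁻¹' X : Set (EN N)) m j where
  toFun x v w := Ω (L.symm x) (L.symm v) (L.symm w)
  add_smul x hx v w hv hw a b := by
    rw [map_add, map_add, map_smul, map_smul]
    exact hΩ.add_smul _ hx _ (tan_transport L hv) _ (tan_transport L hw) a b
  det x hx v w hv hw a b c d := by
    rw [map_add, map_add, map_smul, map_smul, map_smul, map_smul]
    exact hΩ.det _ hx _ (tan_transport L hv) _ (tan_transport L hw) a b c d
  scale x hx v w hv hw c hc := by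
    rw [map_smul, map_smul, map_smul]
    exact hΩ.scale _ hx _ (tan_transport L hv) _ (tan_transport L hw) c hc
  analytic φ p hφ hφX := by
    have h1 : AnalyticAt ℂ (fun y => L.symm (φ y)) p := ((L.symm : EN N →L[ℂ] V).analyticAt _).comp hφ
    have h2 := hΩ.analytic _ p h1 hφX
    refine h2.congr ?_
    filter_upwards [hφ.eventually_analyticAt] with y hy
    have h3 : HasFDerivAt (fun y => L.symm (φ y)) ((L.symm : EN N →L[ℂ] V).comp (fderiv ℂ φ y)) y :=
      (L.symm : EN N →L[ℂ] V).hasFDerivAt.comp y hy.differentiableAt.hasFDerivAt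
    rw [h3.fderiv]
    rfl

/-- **The nodal theorem**: on a smooth closed surface in `ℙ(V)` with a section `Ω` of `m K_X - j H` without zeros outside a nodal curve `B`: if all nonconstant
entire curves lie in `B` then all holomorphic maps of the punctured disc which do not lie in `B` extend. -/
theorem nodal_picard [FiniteDimensional ℂ V] {W : Type} [NormedAddCommGroup W] [InnerProductSpace ℂ W] {X B : Set V} {m j : ℕ} {Ω : V → V → V → ℂ}
    {Q : V → W} {D : ℕ} (hX : Surface X) (hQ : ∀ x, AnalyticAt ℂ Q x) (hQs : ∀ (c : ℂ) (x : V), Q (c • x) = c ^ D • Q x)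
    (hB : ∀ x, x ∈ B ↔ x ∈ X ∧ Q x = 0) (hn : ∀ x ∈ X, NodalAt X B x) (hm : 1 ≤ m) (hj : 1 ≤ j) (hΩ : IsForm X m j Ω) (hz : NoZeros X B Ω)
    (hBrody : ∀ h : ℂ → Projectivization ℂ V, HolInto h Set.univ → (∀ z, (h z).rep ∈ X) → (∃ z w, h z ≠ h w) → ∀ z, (h z).rep ∈ B)
    (f : ℂ → Projectivization ℂ V) (hf : HolInto f puncturedDisc) (hfX : ∀ z ∈ puncturedDisc, (f z).rep ∈ X)
    (hfB : ∃ z ∈ puncturedDisc, (f z).rep ∉ B) :
    ∃ g : ℂ → Projectivization ℂ V, HolInto g (ball 0 1) ∧ ∀ z ∈ puncturedDisc, g z = f z := by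
  -- the isomorphism
  obtain ⟨z₁, hz₁, hz₁B⟩ := hfB
  have hpos : 0 < Module.finrank ℂ V := Module.finrank_pos_iff_exists_ne_zero.mpr ⟨(f z₁).rep, (f z₁).rep_nonzero⟩
  obtain ⟨N, hN⟩ : ∃ N, Module.finrank ℂ V = N + 1 := ⟨Module.finrank ℂ V - 1, by omega⟩
  let L : V ≃L[ℂ] EN N := ContinuousLinearEquiv.ofFinrankEq (by rw [hN]; simp)
  set X' : Set (EN N) := L.symm ⁻¹' X with hX'
  set T' : Set (EN N) := L.symm ⁻¹' B with hT'
  have hBs : ∀ x ∈ B, ∀ c : ℂ, c ≠ 0 → c • x ∈ B := by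
    intro x hx c hc
    obtain ⟨h1, h2⟩ := (hB x).mp hx
    exact (hB _).mpr ⟨hX.smul x h1 c hc, by rw [hQs, h2, smul_zero]⟩
  have hBX : B ⊆ X := fun x hx => ((hB x).mp hx).1
  have hcone : Pool.Agent.H14.PP.IsCone X' := isCone_transport L hX
  have hT's : ∀ x ∈ T', ∀ c : ℂ, c ≠ 0 → c • x ∈ T' := by
    intro x hx c hc
    show L.symm (c • x) ∈ B
    rw [map_smul]
    exact hBs _ hx c hc
  have hopen : Pool.Agent.H14.PP.IsOpenPart X' X' := ⟨le_refl _, hcone.smul_mem, fun x _ => Filter.Eventually.of_forall fun y h => h⟩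
  have hnodal : Pool.Agent.H14.PP.IsNodal X' X' T' := by
    intro x hx
    have hxB : L.symm x ∈ B := hx
    obtain ⟨σ, τ, hc, h0, h1⟩ := hn (L.symm x) (hBX hxB)
    have hg := germ_transport L hc
    have hLσ0 : L (σ 0) = x := by rw [h0, L.apply_symm_apply]
    have hiff : ∀ p, (L (σ p) ∈ T' ↔ σ p ∈ B) := by
      intro p
      show L.symm (L (σ p)) ∈ B ↔ _
      rw [L.symm_apply_apply]
    have hiffX : ∀ᶠ p in 𝓝 (0 : ℂ × ℂ), L (σ p) ∈ X' := by
      filter_upwards [hc.σ_mem] with p hp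
      show L.symm (L (σ p)) ∈ X
      rwa [L.symm_apply_apply]
    have hd : ∀ᶠ p in 𝓝 (0 : ℂ × ℂ), (L (σ p) ∉ X' ↔ (((false, false) : Bool × Bool).1 = true ∧ p.1 = 0) ∨
        (((false, false) : Bool × Bool).2 = true ∧ p.2 = 0)) := by
      filter_upwards [hiffX] with p hp
      simp [hp]
    rcases h1 with h1 | h1 | h1
    · exfalso
      have h2 := h1.self_of_nhds
      rw [h0] at h2
      exact h2 hxB
    · have hnd : ∀ᶠ p in 𝓝 (0 : ℂ × ℂ), (L (σ p) ∈ T' ↔ p.1 = 0 ∨ (false = true ∧ p.2 = 0)) := by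
        filter_upwards [h1] with p hp
        rw [hiff, hp]
        simp
      obtain ⟨χ, h2, h3, h4, h5⟩ := exists_chart hcone hcone.smul_mem hT's hg hnd hd
      refine ⟨χ, false, (false, false), ?_, ?_, h4, h5, by simp⟩
      · rwa [hLσ0] at h2
      · rwa [hLσ0] at h3
    · have hnd : ∀ᶠ p in 𝓝 (0 : ℂ × ℂ), (L (σ p) ∈ T' ↔ p.1 = 0 ∨ (true = true ∧ p.2 = 0)) := by
        filter_upwards [h1] with p hp
        rw [hiff, hp]
        simp
      obtain ⟨χ, h2, h3, h4, h5⟩ := exists_chart hcone hcone.smul_mem hT's hg hnd hd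
      refine ⟨χ, true, (false, false), ?_, ?_, h4, h5, by simp⟩
      · rwa [hLσ0] at h2
      · rwa [hLσ0] at h3
  have heq : Pool.Agent.H14.PP.IsEq X' T' (fun y => Q (L.symm y)) D := by
    refine ⟨fun x => (hQ _).comp ((L.symm : EN N →L[ℂ] V).analyticAt x), fun c x => ?_, fun x => ?_⟩
    · show Q (L.symm (c • x)) = _
      rw [map_smul, hQs]
    · exact hB (L.symm x)
  have hnz : (formT L hΩ).NoZeroOff T' := by
    intro x hx hxT v w hv hw hli
    refine hz (L.symm x) hx hxT _ (tan_transport L hv) _ (tan_transport L hw) ?_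
    have h1 := hli.map' ((L.symm : EN N →L[ℂ] V) : EN N →ₗ[ℂ] V) (LinearMap.ker_eq_bot.mpr L.symm.injective)
    have h2 : (((L.symm : EN N →L[ℂ] V) : EN N →ₗ[ℂ] V) ∘ ![x, v, w]) = ![L.symm x, L.symm v, L.symm w] := by
      funext i
      fin_cases i <;> rfl
    rw [h2] at h1
    exact h1
  have hpole : (formT L hΩ).PoleBound X' := by
    intro χ d hd
    have hdf : d = (false, false) := by
      have h1 : d.1 = false := by
        by_contra h
        have h2 : d.1 = true := by simpa using h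
        have h3 := (hd 0 (mem_ball_self (by norm_num))).mpr (Or.inl ⟨h2, rfl⟩)
        exact h3 (χ.σ_mem 0 (mem_ball_self (by norm_num))).1
      have h1' : d.2 = false := by
        by_contra h
        have h2 : d.2 = true := by simpa using h
        have h3 := (hd 0 (mem_ball_self (by norm_num))).mpr (Or.inr ⟨h2, rfl⟩)
        exact h3 (χ.σ_mem 0 (mem_ball_self (by norm_num))).1
      exact Prod.ext h1 h1'
    refine ⟨fun p => Pool.Agent.H14.PP.aCoef (formT L hΩ) χ p, fun p hp => ?_, fun p hp _ => ?_⟩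
    · refine (formT L hΩ).analytic χ.σ p (χ.σ_an p hp) ?_
      filter_upwards [isOpen_ball.mem_nhds hp] with q hq
      exact (χ.σ_mem q hq).1
    · rw [hdf]
      simp [Pool.Agent.H14.PP.gD]
  obtain ⟨M, c₀, C, G, hM⟩ := Pool.Agent.H14.PP.exists_metric hcone hopen (fun x hx hxn => absurd hx hxn) heq hnodal hm hj (formT L hΩ) hnz hpole
    (hur_of_closed hcone.smul_mem (fun x hx hx0 => (hcone.closed.closure_subset_iff.mpr (Set.subset_insert 0 X') hx).resolve_left hx0))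
  -- Brody
  have hbm : BrodyMod X' (X' ∩ T') := by
    intro F hF hFX hne z
    have hF0 : ∀ z, L.symm (F z) ≠ 0 := by
      intro z h
      apply hX.zero
      rw [← h]
      exact hFX z
    have h1 : HolInto (fun z => Projectivization.mk ℂ (L.symm (F z)) (hF0 z)) Set.univ := by
      intro z₀ _
      exact ⟨fun z => L.symm (F z), ((L.symm : EN N →L[ℂ] V).analyticAt _).comp (hF.analyticAt z₀),
        Filter.Eventually.of_forall fun z => ⟨hF0 z, rfl⟩⟩
    have h2 : ∀ z, (Projectivization.mk ℂ (L.symm (F z)) (hF0 z)).rep ∈ X := by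
      intro z
      obtain ⟨a, ha, h3⟩ := rep_mk (hF0 z)
      rw [h3]
      exact hX.smul _ (hFX z) a ha
    have h3 := hBrody _ h1 h2 (by
      obtain ⟨a, b, hab⟩ := hne
      refine ⟨a, b, fun h => ?_⟩
      rw [Projectivization.mk_eq_mk_iff'] at h
      obtain ⟨c, hc⟩ := h
      apply hab c
      apply L.symm.injective
      rw [map_smul]
      exact hc.symm) z
    obtain ⟨a, ha, h4⟩ := rep_mk (hF0 z)
    rw [h4] at h3
    have h5 := hBs _ h3 a⁻¹ (inv_ne_zero ha)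
    rw [smul_smul, inv_mul_cancel₀ ha, one_smul] at h5
    exact ⟨hFX z, h5⟩
  have hρ : ∀ x ∈ X', x ∈ X' ∩ T' → Pool.Agent.H14.PP.rho (fun y => Q (L.symm y)) D x = 0 := by
    intro x _ hx
    have h1 := ((hB _).mp hx.2).2
    unfold Pool.Agent.H14.PP.rho
    simp only
    rw [h1, norm_zero, zero_div]
  obtain ⟨g, hg, hgf⟩ := picard_cone hM hbm (fun x hx c hc => ⟨hcone.smul_mem x hx.1 c hc, hT's x hx.2 c hc⟩) hρ (fun z => toPN L (f z)) (holomorphicInto_toPN L hf)
    (fun z hz => (toPN_mem L hX.smul (f z)).mpr (hfX z hz)) ⟨z₁, hz₁, fun h => hz₁B ((toPN_mem L hBs (f z₁)).mp h.2)⟩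
  exact ⟨fun z => ofPN L (g z), holInto_ofPN L hg, fun z hz => by simp only; rw [hgf z hz, ofPN_toPN]⟩

end Pool.Agent.H36.BP
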