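import Pool.Agent.H36.BP.CirA

/-!
# BP CirB: approximation on two circles

`trig_approx` on both circles: `φ(r e^(iθ)) ≈ Re ∑ a_n e^(inθ)`, `φ(R e^(iθ)) ≈ Re ∑ b_n e^(inθ)` (common `m`, pad with zeros).  For `n ≥ 1` the function
`Re(c_n z^n + d_n z^(-n))` has at `z = ρ e^(iθ)` the value `Re((c_n ρ^n + conj(d_n) ρ^(-n)) e^(inθ))`; solve `c_n r^n + conj(d_n) r^(-n) = a_n`,
`c_n R^n + conj(d_n) R^(-n) = b_n` (determinant `(r/R)^n - (R/r)^n ≠ 0`).  For `n = 0`: real `a`, `b` with `a + b log r = Re a_0`, `a + b log R = Re b_0`.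
`g z = a + ∑_{n ≥ 1} (c_n z^n + d_n z^(-n))`.
-/

set_option autoImplicit false

namespace Pool.Agent.H36.BP

open Filter Topology Metric

variable {N : ℕ}

private theorem CirB_key (ρ : ℝ) (c d : ℂ) (n : ℕ) (θ : ℝ) :
    (c * ((ρ : ℂ) * Complex.exp (θ * Complex.I)) ^ n + d * (((ρ : ℂ) * Complex.exp (θ * Complex.I))⁻¹) ^ n).re
      = ((c * (ρ : ℂ) ^ n + (starRingEnd ℂ) d * ((ρ : ℂ) ^ n)⁻¹) * Complex.exp (n * (θ * Complex.I))).re := by
  have h1 : (c * ((ρ : ℂ) * Complex.exp (θ * Complex.I)) ^ n) = c * (ρ : ℂ) ^ n * Complex.exp (n * (θ * Complex.I)) := by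
    rw [mul_pow, ← Complex.exp_nat_mul, mul_assoc]
  have h2 : (starRingEnd ℂ) (d * (((ρ : ℂ) * Complex.exp (θ * Complex.I))⁻¹) ^ n)
      = (starRingEnd ℂ) d * ((ρ : ℂ) ^ n)⁻¹ * Complex.exp (n * (θ * Complex.I)) := by
    have h3 : (((ρ : ℂ) * Complex.exp (θ * Complex.I))⁻¹) ^ n = ((ρ : ℂ) ^ n)⁻¹ * Complex.exp (-(n * (θ * Complex.I))) := by
      rw [inv_pow, mul_pow, ← Complex.exp_nat_mul, mul_inv, Complex.exp_neg]
    rw [h3, map_mul, map_mul, ← Complex.exp_conj]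
    have h4 : (starRingEnd ℂ) (-(n * (θ * Complex.I))) = n * (θ * Complex.I) := by
      simp
    rw [h4, map_inv₀, map_pow, Complex.conj_ofReal, mul_assoc]
  rw [Complex.add_re, h1, add_mul, Complex.add_re]
  congr 1
  rw [← Complex.conj_re, h2]

private theorem CirB_solve {r R : ℝ} (hr : 0 < r) (hrR : r < R) (a b : ℂ) (n : ℕ) (hn : n ≠ 0) :
    ∃ c d : ℂ, c * (r : ℂ) ^ n + (starRingEnd ℂ) d * ((r : ℂ) ^ n)⁻¹ = a ∧
      c * (R : ℂ) ^ n + (starRingEnd ℂ) d * ((R : ℂ) ^ n)⁻¹ = b := by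
  have hR : 0 < R := hr.trans hrR
  have h1 : r ^ n < R ^ n := pow_lt_pow_left₀ hrR hr.le hn
  have h2 : 0 < r ^ n := pow_pos hr n
  have h3 : 0 < R ^ n := pow_pos hR n
  have hr' : ((r : ℂ) ^ n) ≠ 0 := by exact_mod_cast h2.ne'
  have hR' : ((R : ℂ) ^ n) ≠ 0 := by exact_mod_cast h3.ne'
  have hD : ((r : ℂ) ^ n) ^ 2 - ((R : ℂ) ^ n) ^ 2 ≠ 0 := by
    have : (r ^ n) ^ 2 - (R ^ n) ^ 2 ≠ 0 := by nlinarith
    exact_mod_cast this
  refine ⟨(a * (r : ℂ) ^ n - b * (R : ℂ) ^ n) / (((r : ℂ) ^ n) ^ 2 - ((R : ℂ) ^ n) ^ 2),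
    (starRingEnd ℂ) ((r : ℂ) ^ n * (R : ℂ) ^ n * ((r : ℂ) ^ n * b - (R : ℂ) ^ n * a) / (((r : ℂ) ^ n) ^ 2 - ((R : ℂ) ^ n) ^ 2)), ?_, ?_⟩
  · rw [Complex.conj_conj]
    field_simp
    ring
  · rw [Complex.conj_conj]
    field_simp
    ring

private theorem CirB_pad (m m' : ℕ) (hm : m ≤ m') (a : ℕ → ℂ) (f : ℕ → ℂ) :
    ∑ n ∈ Finset.range (m + 1), a n * f n = ∑ n ∈ Finset.range (m' + 1), (if n ≤ m then a n else 0) * f n := by
  have h : Finset.range (m + 1) ⊆ Finset.range (m' + 1) := by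
    intro x hx
    rw [Finset.mem_range] at hx ⊢
    omega
  rw [← Finset.sum_subset h]
  · apply Finset.sum_congr rfl
    intro x hx
    rw [Finset.mem_range] at hx
    rw [if_pos (by omega)]
  · intro x _ hx
    rw [Finset.mem_range] at hx
    rw [if_neg (by omega), zero_mul]

private theorem CirB_circ (φ : ℂ → ℝ) (ρ : ℝ) (hρ : 0 < ρ) (S : Set ℂ) (hS : sphere (0 : ℂ) ρ ⊆ S) (hφ : ContinuousOn φ S)
    {ε : ℝ} (hε : 0 < ε) :
    ∃ (m : ℕ) (c : ℕ → ℂ), ∀ θ : ℝ, |φ (ρ * Complex.exp (θ * Complex.I)) -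
      (∑ n ∈ Finset.range (m + 1), c n * Complex.exp (n * (θ * Complex.I))).re| ≤ ε := by
  apply trig_approx (fun θ : ℝ => φ (ρ * Complex.exp (θ * Complex.I))) _ _ hε
  · apply hφ.comp_continuous
    · fun_prop
    · intro θ
      apply hS
      rw [mem_sphere_zero_iff_norm, norm_mul, Complex.norm_exp_ofReal_mul_I, mul_one, Complex.norm_real, Real.norm_eq_abs, abs_of_pos hρ]
  · intro θ
    have : Complex.exp (((θ + 2 * Real.pi : ℝ) : ℂ) * Complex.I) = Complex.exp (θ * Complex.I) := by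
      have h := Complex.exp_periodic (θ * Complex.I)
      rw [← h]
      congr 1
      push_cast
      ring
    show φ (ρ * Complex.exp (((θ + 2 * Real.pi : ℝ) : ℂ) * Complex.I)) = _
    rw [this]

theorem annulus_approx {r R : ℝ} (hr : 0 < r) (hrR : r < R) (φ : ℂ → ℝ) (hφ : ContinuousOn φ (sphere (0 : ℂ) r ∪ sphere (0 : ℂ) R))
    {ε : ℝ} (hε : 0 < ε) : ∃ (g : ℂ → ℂ) (b : ℝ), DifferentiableOn ℂ g {0}ᶜ ∧
      ∀ z ∈ sphere (0 : ℂ) r ∪ sphere (0 : ℂ) R, |(g z).re + b * Real.log ‖z‖ - φ z| ≤ ε := by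
  have hR : 0 < R := hr.trans hrR
  obtain ⟨m₁, a₁, h₁⟩ := CirB_circ φ r hr _ Set.subset_union_left hφ hε
  obtain ⟨m₂, a₂, h₂⟩ := CirB_circ φ R hR _ Set.subset_union_right hφ hε
  set m := max m₁ m₂ with hm
  set A : ℕ → ℂ := fun n => if n ≤ m₁ then a₁ n else 0 with hA
  set B : ℕ → ℂ := fun n => if n ≤ m₂ then a₂ n else 0 with hB
  have h₁' : ∀ θ : ℝ, |φ (r * Complex.exp (θ * Complex.I)) -
      (∑ n ∈ Finset.range (m + 1), A n * Complex.exp (n * (θ * Complex.I))).re| ≤ ε := by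
    intro θ
    have := h₁ θ
    rw [CirB_pad m₁ m (le_max_left _ _) a₁ (fun n => Complex.exp (n * (θ * Complex.I)))] at this
    exact this
  have h₂' : ∀ θ : ℝ, |φ (R * Complex.exp (θ * Complex.I)) -
      (∑ n ∈ Finset.range (m + 1), B n * Complex.exp (n * (θ * Complex.I))).re| ≤ ε := by
    intro θ
    have := h₂ θ
    rw [CirB_pad m₂ m (le_max_right _ _) a₂ (fun n => Complex.exp (n * (θ * Complex.I)))] at this
    exact this
  have hex : ∀ n : ℕ, ∃ c d : ℂ, c * (r : ℂ) ^ (n + 1) + (starRingEnd ℂ) d * ((r : ℂ) ^ (n + 1))⁻¹ = A (n + 1) ∧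
      c * (R : ℂ) ^ (n + 1) + (starRingEnd ℂ) d * ((R : ℂ) ^ (n + 1))⁻¹ = B (n + 1) :=
    fun n => CirB_solve hr hrR _ _ (n + 1) (Nat.succ_ne_zero n)
  choose c d hc hd using hex
  have hlog : Real.log r < Real.log R := Real.log_lt_log hr hrR
  obtain ⟨a, b, hab1, hab2⟩ : ∃ a b : ℝ, a + b * Real.log r = (A 0).re ∧ a + b * Real.log R = (B 0).re := by
    refine ⟨(A 0).re - ((B 0).re - (A 0).re) / (Real.log R - Real.log r) * Real.log r,
      ((B 0).re - (A 0).re) / (Real.log R - Real.log r), by ring, ?_⟩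
    have : Real.log R - Real.log r ≠ 0 := by linarith
    field_simp
    ring
  set g : ℂ → ℂ := fun z => (a : ℂ) + ∑ n ∈ Finset.range m, (c n * z ^ (n + 1) + d n * (z⁻¹) ^ (n + 1)) with hg
  have hval : ∀ (ρ : ℝ) (C : ℕ → ℂ), 0 < ρ → a + b * Real.log ρ = (C 0).re →
      (∀ n, c n * (ρ : ℂ) ^ (n + 1) + (starRingEnd ℂ) (d n) * ((ρ : ℂ) ^ (n + 1))⁻¹ = C (n + 1)) →
      ∀ θ : ℝ, (g (ρ * Complex.exp (θ * Complex.I))).re + b * Real.log ρ
        = (∑ n ∈ Finset.range (m + 1), C n * Complex.exp (n * (θ * Complex.I))).re := by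
    intro ρ C hρ h0 hC θ
    rw [Finset.sum_range_succ']
    simp only [hg, Complex.add_re, Complex.re_sum, Complex.ofReal_re]
    have e1 : ∀ n ∈ Finset.range m, (c n * ((ρ : ℂ) * Complex.exp (θ * Complex.I)) ^ (n + 1)).re +
        (d n * (((ρ : ℂ) * Complex.exp (θ * Complex.I))⁻¹) ^ (n + 1)).re
        = (C (n + 1) * Complex.exp (((n + 1 : ℕ) : ℂ) * (θ * Complex.I))).re := by
      intro n _
      rw [← Complex.add_re, CirB_key, hC n]
    rw [Finset.sum_congr rfl e1]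
    have e2 : (C 0 * Complex.exp (((0 : ℕ) : ℂ) * (θ * Complex.I))).re = a + b * Real.log ρ := by
      rw [h0]; simp
    rw [e2]
    ring
  refine ⟨g, b, ?_, ?_⟩
  · intro z hz
    have hz0 : z ≠ 0 := hz
    apply DifferentiableAt.differentiableWithinAt
    rw [hg]
    apply DifferentiableAt.const_add
    apply DifferentiableAt.fun_sum
    intro n _
    exact ((differentiableAt_id.pow _).const_mul _).add (((differentiableAt_inv hz0).pow _).const_mul _)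
  · have harg : ∀ (z : ℂ), z = (‖z‖ : ℂ) * Complex.exp (Complex.arg z * Complex.I) := fun z => (Complex.norm_mul_exp_arg_mul_I z).symm
    rintro z (hz | hz)
    · rw [mem_sphere_zero_iff_norm] at hz
      have h3 := h₁' (Complex.arg z)
      have h4 := hval r A hr hab1 hc (Complex.arg z)
      have h5 := harg z
      rw [hz] at h5
      rw [← h5] at h3 h4
      rw [hz, h4, abs_sub_comm]
      exact h3
    · rw [mem_sphere_zero_iff_norm] at hz
      have h3 := h₂' (Complex.arg z)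
      have h4 := hval R B hR hab2 hd (Complex.arg z)
      have h5 := harg z
      rw [hz] at h5
      rw [← h5] at h3 h4
      rw [hz, h4, abs_sub_comm]
      exact h3

end Pool.Agent.H36.BP
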