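import Pool.Agent.H36.BP.Defs
import Pool.Agent.H17.BrodyLimit

/-!
# BP MainA: identity theorems for maps into projective space
-/

set_option autoImplicit false

namespace Pool.Agent.H36.BP

open Filter Topology Metric

variable {N : ℕ}

open Pool.Agent.H17 (PN HolomorphicInto puncturedDisc VanishesAt vanishesAt_mk_iff)

/-- the cone over a subset of projective space -/
def coneOf (X : Set (PN N)) : Set (EN N) := {x | ∃ h : x.ofLp ≠ 0, Projectivization.mk ℂ _ h ∈ X}

theorem analyticAt_toLp {φ : ℂ → Fin (N + 1) → ℂ} {z : ℂ} (h : AnalyticAt ℂ φ z) :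
    AnalyticAt ℂ (fun w => (WithLp.toLp 2 (φ w) : EN N)) z :=
  ((EuclideanSpace.equiv (Fin (N + 1)) ℂ).symm : (Fin (N + 1) → ℂ) →L[ℂ] EN N).analyticAt (φ z) |>.comp h

theorem analyticAt_ofLp {F : ℂ → EN N} {z : ℂ} (h : AnalyticAt ℂ F z) : AnalyticAt ℂ (fun w => (F w).ofLp) z :=
  ((EuclideanSpace.equiv (Fin (N + 1)) ℂ) : EN N →L[ℂ] (Fin (N + 1) → ℂ)).analyticAt (F z) |>.comp h

theorem mk_smul_eq {x : EN N} (hx : x.ofLp ≠ 0) {c : ℂ} (h : (c • x).ofLp ≠ 0) :
    Projectivization.mk ℂ (c • x).ofLp h = Projectivization.mk ℂ x.ofLp hx := by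
  rw [Projectivization.mk_eq_mk_iff']
  exact ⟨c, rfl⟩

theorem coneOf_smul {X : Set (PN N)} {x : EN N} (hx : x ∈ coneOf X) {c : ℂ} (hc : c ≠ 0) : c • x ∈ coneOf X := by
  obtain ⟨h, hX⟩ := hx
  have h2 : (c • x).ofLp ≠ 0 := by
    intro h0
    apply h
    have h3 : c • x.ofLp = 0 := h0
    exact (smul_eq_zero.mp h3).resolve_left hc
  exact ⟨h2, by rw [mk_smul_eq h]; exact hX⟩

theorem ne_zero_of_ofLp {x : EN N} (h : x.ofLp ≠ 0) : x ≠ 0 := by
  rintro rfl
  exact h rfl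

theorem ofLp_ne_zero {x : EN N} (h : x ≠ 0) : x.ofLp ≠ 0 := by
  intro h0
  exact h (by ext i; exact congrFun h0 i)

/-- identity theorem for the vanishing of forms -/
theorem vanish_identity {f : ℂ → PN N} {U : Set ℂ} (hUc : IsPreconnected U) (hf : HolomorphicInto f U)
    {S : Set (MvPolynomial (Fin (N + 1)) ℂ)} (hS : ∀ P ∈ S, ∃ n, P.IsHomogeneous n) {z₀ : ℂ} (hz₀ : z₀ ∈ U)
    (h : ∀ᶠ w in 𝓝 z₀, ∀ P ∈ S, VanishesAt P (f w)) : ∀ z ∈ U, ∀ P ∈ S, VanishesAt P (f z) := by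
  set A : Set ℂ := {z | ∀ᶠ w in 𝓝 z, ∀ P ∈ S, VanishesAt P (f w)} with hA
  have hAo : IsOpen A := by
    rw [isOpen_iff_mem_nhds]
    intro z hz
    exact hz.eventually_nhds
  have hcl : closure A ∩ U ⊆ A := by
    rintro z ⟨hz1, hz2⟩
    obtain ⟨φ, hφ, he⟩ := hf z hz2
    obtain ⟨r, hr, hr1⟩ := Metric.eventually_nhds_iff_ball.mp (hφ.eventually_analyticAt.and he)
    obtain ⟨z', hz'1, hz'2⟩ := mem_closure_iff_nhds.mp hz1 (ball z r) (ball_mem_nhds z hr)
    have hvan : ∀ P ∈ S, ∀ w ∈ ball z r, MvPolynomial.eval (φ w) P = 0 := by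
      intro P hP
      obtain ⟨n, hn⟩ := hS P hP
      have han : AnalyticOnNhd ℂ (fun w => MvPolynomial.aeval (φ w) P) (ball z r) :=
        AnalyticOnNhd.aeval_mvPolynomial (fun i w hw => analyticAt_pi_iff.mp (hr1 w hw).1 i) P
      have h0 : (fun w => MvPolynomial.aeval (φ w) P) =ᶠ[𝓝 z'] 0 := by
        have hz'A : ∀ᶠ w in 𝓝 z', ∀ P ∈ S, VanishesAt P (f w) := hz'2
        filter_upwards [hz'A, isOpen_ball.mem_nhds hz'1] with w hw1 hw2
        obtain ⟨h1, h2⟩ := (hr1 w hw2).2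
        have h3 := hw1 P hP
        rw [h2, vanishesAt_mk_iff hn] at h3
        exact h3
      intro w hw
      exact han.eqOn_zero_of_preconnected_of_eventuallyEq_zero (convex_ball z r).isPreconnected hz'1 h0 hw
    show ∀ᶠ w in 𝓝 z, ∀ P ∈ S, VanishesAt P (f w)
    filter_upwards [ball_mem_nhds z hr] with w hw P hP
    obtain ⟨n, hn⟩ := hS P hP
    obtain ⟨h1, h2⟩ := (hr1 w hw).2
    rw [h2, vanishesAt_mk_iff hn]
    exact hvan P hP w hw
  have hsub : U ⊆ A := hUc.subset_of_closure_inter_subset hAo ⟨z₀, hz₀, h⟩ hcl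
  intro z hz
  have h1 : ∀ᶠ w in 𝓝 z, ∀ P ∈ S, VanishesAt P (f w) := hsub hz
  exact h1.self_of_nhds

/-- the linear forms vanishing at a vector -/
theorem const_identity {f : ℂ → PN N} {U : Set ℂ} (hUc : IsPreconnected U) (hf : HolomorphicInto f U)
    {z₀ : ℂ} (hz₀ : z₀ ∈ U) (h : ∀ᶠ w in 𝓝 z₀, f w = f z₀) : ∀ z ∈ U, f z = f z₀ := by
  set v := (f z₀).rep with hv
  have hv0 : v ≠ 0 := (f z₀).rep_nonzero
  have hfz : f z₀ = Projectivization.mk ℂ v hv0 := (Projectivization.mk_rep _).symm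
  obtain ⟨j, hj⟩ : ∃ j, v j ≠ 0 := by
    by_contra hcon
    push Not at hcon
    exact hv0 (funext hcon)
  set S : Set (MvPolynomial (Fin (N + 1)) ℂ) :=
    {P | ∃ i, P = MvPolynomial.C (v j) * MvPolynomial.X i - MvPolynomial.C (v i) * MvPolynomial.X j} with hSdef
  have hS : ∀ P ∈ S, ∃ n, P.IsHomogeneous n := by
    rintro P ⟨i, rfl⟩
    refine ⟨1, ?_⟩
    have h1 : ∀ (a : ℂ) (i : Fin (N + 1)), (MvPolynomial.C a * MvPolynomial.X i : MvPolynomial (Fin (N + 1)) ℂ).IsHomogeneous 1 := by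
      intro a i
      have := (MvPolynomial.isHomogeneous_C (Fin (N + 1)) a).mul (MvPolynomial.isHomogeneous_X ℂ i)
      simpa using this
    exact (h1 _ _).sub (h1 _ _)
  have hkey : ∀ p : PN N, (∀ P ∈ S, VanishesAt P p) → p = f z₀ := by
    intro p hp
    have hp' : ∀ i, v j * p.rep i = v i * p.rep j := by
      intro i
      have h2 := hp _ ⟨i, rfl⟩
      unfold VanishesAt at h2
      simp only [map_sub, map_mul, MvPolynomial.eval_C, MvPolynomial.eval_X] at h2
      exact sub_eq_zero.mp h2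
    rw [← Projectivization.mk_rep p, hfz, Projectivization.mk_eq_mk_iff']
    refine ⟨p.rep j / v j, ?_⟩
    funext i
    simp only [Pi.smul_apply, smul_eq_mul]
    field_simp
    rw [mul_comm (p.rep j), ← hp' i]
  have hvan : ∀ P ∈ S, VanishesAt P (f z₀) := by
    rintro P ⟨i, rfl⟩
    unfold VanishesAt
    simp only [map_sub, map_mul, MvPolynomial.eval_C, MvPolynomial.eval_X]
    rw [← hv]
    ring
  have hmain := vanish_identity hUc hf hS hz₀ (by
    filter_upwards [h] with w hw P hP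
    rw [hw]
    exact hvan P hP)
  intro z hz
  exact hkey _ (hmain z hz)

theorem preconnected_puncturedDisc : IsPreconnected puncturedDisc := by
  have h : puncturedDisc = Complex.exp '' {z : ℂ | z.re < 0} := by
    ext z
    constructor
    · rintro ⟨h1, h2⟩
      have h3 : z ≠ 0 := h2
      refine ⟨Complex.log z, ?_, Complex.exp_log h3⟩
      rw [mem_ball_zero_iff] at h1
      change (Complex.log z).re < 0
      rw [Complex.log_re]
      exact Real.log_neg (norm_pos_iff.mpr h3) h1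
    · rintro ⟨w, hw, rfl⟩
      refine ⟨?_, Complex.exp_ne_zero w⟩
      rw [mem_ball_zero_iff, Complex.norm_exp]
      have h1 := Real.exp_lt_exp.mpr hw
      rwa [Real.exp_zero] at h1
  rw [h]
  exact (convex_halfSpace_re_lt 0).isPreconnected.image _ Complex.continuous_exp.continuousOn

theorem isOpen_puncturedDisc : IsOpen puncturedDisc :=
  Metric.isOpen_ball.sdiff isClosed_singleton

end Pool.Agent.H36.BP
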