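import Pool.Agent.H36.BP.Defs

/-!
# BP SubA: calculus of lower supports

* `mul`: for `c'' < c + d` take `c' < c`, `d' < d` with `c' + d' = c''` and multiply the supports.
* `rpow`: `h z₀ ≠ 0`; near `z₀` the function `k z = (u z₀)^r * (h z/h z₀)^(r : ℂ)` is holomorphic (`h z/h z₀` is in the slit plane) and `|k| = |h|^r`
  (`Complex.norm_cpow_real`...), exponent `r c'`; for `r = 0` trivial; for `r > 0` use `c'/r`.
* `of_holo`: `exp(c' |z - z₀|²) ≤ 1` for `c' < 0`.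
-/

set_option autoImplicit false

namespace Pool.Agent.H36.BP

open Filter Topology Metric

variable {N : ℕ}

theorem Sub.anti {u : ℂ → ℝ} {z₀ : ℂ} {c d : ℝ} (h : Sub u z₀ c) (hd : d ≤ c) : Sub u z₀ d := by
  exact ⟨h.1, fun c' hc' => h.2 c' (hc'.trans_le hd)⟩

theorem Sub.mono {u v : ℂ → ℝ} {z₀ : ℂ} {c : ℝ} (h : Sub u z₀ c) (h0 : u z₀ = v z₀) (h1 : ∀ᶠ z in 𝓝 z₀, u z ≤ v z) : Sub v z₀ c := by
  refine ⟨h0 ▸ h.1, fun c' hc' => ?_⟩
  obtain ⟨g, hg, hg0, hge⟩ := h.2 c' hc'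
  refine ⟨g, hg, hg0.trans h0, ?_⟩
  filter_upwards [hge, h1] with z a b using a.trans b

theorem Sub.congr {u v : ℂ → ℝ} {z₀ : ℂ} {c : ℝ} (h : Sub u z₀ c) (h1 : ∀ᶠ z in 𝓝 z₀, u z = v z) : Sub v z₀ c := by
  exact h.mono h1.self_of_nhds (h1.mono fun z hz => hz.le)

theorem Sub.mul {u v : ℂ → ℝ} {z₀ : ℂ} {c d : ℝ} (h : Sub u z₀ c) (h' : Sub v z₀ d) : Sub (fun z => u z * v z) z₀ (c + d) := by
  refine ⟨mul_pos h.1 h'.1, fun c'' hc'' => ?_⟩
  obtain ⟨g, hg, hg0, hge⟩ := h.2 (c - (c + d - c'') / 2) (by linarith)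
  obtain ⟨k, hk, hk0, hke⟩ := h'.2 (d - (c + d - c'') / 2) (by linarith)
  refine ⟨fun z => g z * k z, hg.mul hk, ?_, ?_⟩
  · rw [norm_mul, hg0, hk0]
  · filter_upwards [hge, hke] with z h1 h2
    have e : ‖g z * k z‖ * Real.exp (c'' * ‖z - z₀‖ ^ 2) =
        (‖g z‖ * Real.exp ((c - (c + d - c'') / 2) * ‖z - z₀‖ ^ 2)) *
          (‖k z‖ * Real.exp ((d - (c + d - c'') / 2) * ‖z - z₀‖ ^ 2)) := by
      rw [norm_mul]
      have e1 : Real.exp (c'' * ‖z - z₀‖ ^ 2) =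
          Real.exp ((c - (c + d - c'') / 2) * ‖z - z₀‖ ^ 2) *
            Real.exp ((d - (c + d - c'') / 2) * ‖z - z₀‖ ^ 2) := by
        rw [← Real.exp_add]
        congr 1
        ring
      rw [e1]
      ring
    rw [e]
    have p1 : 0 ≤ ‖g z‖ * Real.exp ((c - (c + d - c'') / 2) * ‖z - z₀‖ ^ 2) := by positivity
    have p2 : 0 ≤ ‖k z‖ * Real.exp ((d - (c + d - c'') / 2) * ‖z - z₀‖ ^ 2) := by positivity
    exact mul_le_mul h1 h2 p2 (p1.trans h1)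

theorem Sub.rpow {u : ℂ → ℝ} {z₀ : ℂ} {c r : ℝ} (h : Sub u z₀ c) (hr : 0 ≤ r) : Sub (fun z => u z ^ r) z₀ (r * c) := by
  refine ⟨Real.rpow_pos_of_pos h.1 r, fun c' hc' => ?_⟩
  rcases hr.eq_or_lt with h0 | hr0
  · subst h0
    rw [zero_mul] at hc'
    refine ⟨fun _ => 1, analyticAt_const, by simp, Filter.Eventually.of_forall fun z => ?_⟩
    show ‖(1 : ℂ)‖ * Real.exp (c' * ‖z - z₀‖ ^ 2) ≤ u z ^ (0 : ℝ)
    rw [norm_one, one_mul, Real.rpow_zero, Real.exp_le_one_iff]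
    exact mul_nonpos_of_nonpos_of_nonneg hc'.le (by positivity)
  · have hc2 : c' / r < c := by
      rw [div_lt_iff₀ hr0]
      linarith
    obtain ⟨g, hg, hg0, hge⟩ := h.2 (c' / r) hc2
    have hgz : g z₀ ≠ 0 := by
      intro h2
      rw [h2, norm_zero] at hg0
      exact h.1.ne hg0
    have hq : AnalyticAt ℂ (fun z => g z / g z₀) z₀ := hg.div analyticAt_const hgz
    have hsl : (fun z => g z / g z₀) z₀ ∈ Complex.slitPlane := by
      show g z₀ / g z₀ ∈ Complex.slitPlane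
      rw [div_self hgz]
      exact Complex.one_mem_slitPlane
    have hkn : ∀ z, ‖(((u z₀) ^ r : ℝ) : ℂ) * (g z / g z₀) ^ (r : ℂ)‖ = ‖g z‖ ^ r := by
      intro z
      rw [norm_mul, Complex.norm_real, Complex.norm_cpow_real, norm_div, hg0, Real.norm_eq_abs,
        abs_of_pos (Real.rpow_pos_of_pos h.1 r), Real.div_rpow (norm_nonneg _) h.1.le]
      have := (Real.rpow_pos_of_pos h.1 r).ne'
      field_simp
    refine ⟨fun z => (((u z₀) ^ r : ℝ) : ℂ) * (g z / g z₀) ^ (r : ℂ),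
      analyticAt_const.mul (hq.cpow analyticAt_const hsl), ?_, ?_⟩
    · rw [hkn, hg0]
    · filter_upwards [hge] with z hz
      rw [hkn]
      have e1 : Real.exp (c' * ‖z - z₀‖ ^ 2) = Real.exp (c' / r * ‖z - z₀‖ ^ 2) ^ r := by
        rw [← Real.exp_mul]
        congr 1
        field_simp
      rw [e1, ← Real.mul_rpow (norm_nonneg _) (Real.exp_pos _).le]
      exact Real.rpow_le_rpow (by positivity) hz hr

theorem Sub.of_holo {h : ℂ → ℂ} {z₀ : ℂ} (hh : AnalyticAt ℂ h z₀) (h0 : h z₀ ≠ 0) : Sub (fun z => ‖h z‖) z₀ 0 := by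
  refine ⟨norm_pos_iff.2 h0, fun c' hc' => ⟨h, hh, rfl, Filter.Eventually.of_forall fun z => ?_⟩⟩
  have h1 : Real.exp (c' * ‖z - z₀‖ ^ 2) ≤ 1 := by
    rw [Real.exp_le_one_iff]
    exact mul_nonpos_of_nonpos_of_nonneg hc'.le (by positivity)
  exact mul_le_of_le_one_right (norm_nonneg _) h1

theorem Sub.const {a : ℝ} (ha : 0 < a) (z₀ : ℂ) : Sub (fun _ => a) z₀ 0 := by
  have hne : (a : ℂ) ≠ 0 := by exact_mod_cast ha.ne'
  have h := Sub.of_holo (h := fun _ => (a : ℂ)) (z₀ := z₀) analyticAt_const hne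
  refine h.congr (Filter.Eventually.of_forall fun z => ?_)
  show ‖(a : ℂ)‖ = a
  rw [Complex.norm_real, Real.norm_eq_abs, abs_of_pos ha]

theorem Sub.const_mul {u : ℂ → ℝ} {z₀ : ℂ} {c a : ℝ} (h : Sub u z₀ c) (ha : 0 < a) : Sub (fun z => a * u z) z₀ c := by
  have h1 := (Sub.const ha z₀).mul h
  rw [zero_add] at h1
  exact h1

/-- all exponents: enough to check all exponents separately -/
theorem Sub.of_forall {u : ℂ → ℝ} {z₀ : ℂ} {c : ℝ} (h : ∀ d < c, Sub u z₀ d) : Sub u z₀ c := by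
  refine ⟨(h (c - 1) (by linarith)).1, fun c' hc' => ?_⟩
  exact (h ((c' + c) / 2) (by linarith)).2 c' (by linarith)

end Pool.Agent.H36.BP
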