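import Mathlib

/-!
# Project BP (MP_64ff02_ag): definitions for the function theory half

`Sub u z₀ c`: `u z₀ > 0` and `log u` has Laplacian at least `4 c` at `z₀` in the sense of lower supports: for every `c' < c` there is a
holomorphic `h` near `z₀` with `|h z₀| = u z₀` and `|h z| exp(c' |z - z₀|²) ≤ u z` near `z₀`.

The ambient space is `E = EN N = ℂ^(N+1)` with the Euclidean norm.  `wd x v = |x ∧ v|`, `fs x v = |x ∧ v|/|x|²` is the Fubini-Study length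
of the vector `v` at `[x]`.  A subset of projective space is described by its cone `K` (without `0`).  `mt G F z = G (F z) (F' z)`.
-/

set_option autoImplicit false

namespace Pool.Agent.H36.BP

open Filter Topology

/-- `ℂ^(N+1)` with the Euclidean norm -/
abbrev EN (N : ℕ) : Type := EuclideanSpace ℂ (Fin (N + 1))

/-- lower support of exponent `c` at `z₀` -/
def Sub (u : ℂ → ℝ) (z₀ : ℂ) (c : ℝ) : Prop :=
  0 < u z₀ ∧ ∀ c' : ℝ, c' < c → ∃ h : ℂ → ℂ, AnalyticAt ℂ h z₀ ∧ ‖h z₀‖ = u z₀ ∧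
    ∀ᶠ z in 𝓝 z₀, ‖h z‖ * Real.exp (c' * ‖z - z₀‖ ^ 2) ≤ u z

variable {N : ℕ}

/-- `|x ∧ v|` -/
noncomputable def wd (x v : EN N) : ℝ := Real.sqrt (‖x‖ ^ 2 * ‖v‖ ^ 2 - ‖inner ℂ x v‖ ^ 2)

/-- the Fubini-Study length of `v` at `x` -/
noncomputable def fs (x v : EN N) : ℝ := wd x v / ‖x‖ ^ 2

/-- `F` is a holomorphic curve in the cone `K` over the set `U` -/
def Curve (K : Set (EN N)) (U : Set ℂ) (F : ℂ → EN N) : Prop :=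
  DifferentiableOn ℂ F U ∧ ∀ z ∈ U, F z ∈ K

/-- the length of `F'` -/
noncomputable def mt (G : EN N → EN N → ℝ) (F : ℂ → EN N) (z : ℂ) : ℝ := G (F z) (deriv F z)

/-- the properties of the metric `G` on the cone `K` (of a projective surface, or of the complement of a curve in it) with exceptional cone `B`;
`ρ` measures the distance to `B`.  `rel_open`, `hur`, `lim` are automatic if `K` is closed, see `Cl.lean`; `hur` follows from Hurwitz' theorem if `K` is the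
set of points of a closed cone where a homogeneous polynomial does not vanish (`ClP.lean`). -/
structure MetricData (K B : Set (EN N)) (G : EN N → EN N → ℝ) (ρ : EN N → ℝ) (M : ℕ) (c₀ C : ℝ) : Prop where
  ne : ∀ x ∈ K, x ≠ 0
  smul : ∀ x ∈ K, ∀ c : ℂ, c ≠ 0 → c • x ∈ K
  c₀_pos : 0 < c₀
  C_nonneg : 0 ≤ C
  nonneg : ∀ x ∈ K, ∀ v, 0 ≤ G x v
  usc : ∀ x ∈ K, ∀ v, ∀ a : ℝ, G x v < a → ∀ᶠ p in 𝓝 (x, v), p.1 ∈ K → G p.1 p.2 < a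
  inv : ∀ x ∈ K, ∀ v (c a : ℂ), c ≠ 0 → G (c • x) (c • v + a • x) = G x v
  hom : ∀ x ∈ K, ∀ v (c : ℂ), G x (c • v) = ‖c‖ * G x v
  zero : ∀ (F : ℂ → EN N) (z₀ : ℂ), AnalyticAt ℂ F z₀ → (∀ᶠ z in 𝓝 z₀, F z ∈ K ∧ F z ∈ B) → mt G F z₀ = 0
  sub : ∀ (F : ℂ → EN N) (z₀ : ℂ), AnalyticAt ℂ F z₀ → (∀ᶠ z in 𝓝 z₀, F z ∈ K) → 0 < mt G F z₀ →
    Sub (fun z => mt G F z * ‖F z‖ ^ (-c₀)) z₀ (-(C * mt G F z₀ ^ 2))
  ρ_nonneg : ∀ x ∈ K, 0 ≤ ρ x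
  lower : ∀ x ∈ K, ∀ v, ρ x ^ M * fs x v ≤ G x v
  ρ_zero : ∀ (F : ℂ → EN N) (z₀ : ℂ), AnalyticAt ℂ F z₀ → (∀ᶠ z in 𝓝 z₀, F z ∈ K) →
    (∃ᶠ z in 𝓝[≠] z₀, ρ (F z) = 0) → ∀ᶠ z in 𝓝 z₀, F z ∈ B
  rel_open : ∀ x ∈ K, ∀ᶠ y in 𝓝 x, y ∈ closure K → y ∈ K
  hur : ∀ (l : Filter ℕ), l.NeBot → ∀ (F : ℕ → ℂ → EN N) (H : ℂ → EN N) (k : ℕ) (z₀ : ℂ) (s : ℝ), 0 < s →
    (∀ᶠ n in l, Curve K (Metric.ball z₀ s) (F n)) → DifferentiableOn ℂ H (Metric.ball z₀ s) →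
    TendstoLocallyUniformlyOn F (fun z => (z - z₀) ^ k • H z) l (Metric.ball z₀ s) → H z₀ ≠ 0 → H z₀ ∉ K → ∀ᶠ z in 𝓝 z₀, H z ∉ K
  lim : ∀ (l : Filter ℕ), l.NeBot → ∀ (F : ℕ → ℂ → EN N) (H : ℂ → EN N) (z₀ : ℂ) (s : ℝ), 0 < s →
    (∀ᶠ n in l, Curve K (Metric.ball z₀ s) (F n)) → TendstoLocallyUniformlyOn F H l (Metric.ball z₀ s) → H z₀ ≠ 0 →
    (∀ z ∈ Metric.ball z₀ s, H z ∉ K) → ∀ ε : ℝ, 0 < ε → ∀ᶠ n in l, mt G (F n) z₀ < ε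

/-- every entire curve in `K` which is not constant as a map into projective space lies in `B` -/
def BrodyMod (K B : Set (EN N)) : Prop :=
  ∀ F : ℂ → EN N, Differentiable ℂ F → (∀ z, F z ∈ K) → (∃ z w, ∀ c : ℂ, F z ≠ c • F w) → ∀ z, F z ∈ B

end Pool.Agent.H36.BP
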