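import Pool.Agent.H36.BP.Defs

/-!
# BP ClP: the fields `rel_open`, `hur` for the complement of a hypersurface section

`K = {x ∈ closed cone : P x ≠ 0}` with a homogeneous polynomial `P`.
* `rel_open`: `P y ≠ 0` near `x` (continuity of `MvPolynomial.eval`), and `y ≠ 0` near `x`.
* `hur`: as in `Cl.lean`, `H z ∈ closure K` near `z₀` (limits and continuity; `closure K` is invariant under multiplication by `c ≠ 0`), so `P (H z₀) = 0` (`hcl`).  The functions `P (F n z)` have no zeros in the ball and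
  converge locally uniformly to `P ((z - z₀)^k • H z) = (z - z₀)^(k d) P (H z)`, which vanishes at `z₀`; by Hurwitz' theorem the limit vanishes identically in the (connected) ball, so `P (H z) = 0` for `z ≠ z₀`, and at `z₀`.
  Hurwitz' theorem: search Mathlib for Hurwitz; if it is missing: minimum modulus: if the limit `u` is not identically `0` near `z₀` choose a circle around `z₀` where `|u| ≥ 2 η > 0`; eventually `|P(F n)| ≥ η` on the circle and `P (F n)` has no zero inside,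
  so by the maximum principle for `1/P(F n)` `|P (F n z₀)| ≥ η`; the limit is `|u z₀| = 0`: contradiction.
-/

set_option autoImplicit false

namespace Pool.Agent.H36.BP

open Filter Topology Metric

variable {N : ℕ}

private theorem ClP_cont (P : MvPolynomial (Fin (N + 1)) ℂ) :
    Continuous fun x : EN N => MvPolynomial.eval x.ofLp P :=
  (MvPolynomial.continuous_eval P).comp (PiLp.continuous_ofLp 2 _)

private theorem ClP_an {P : MvPolynomial (Fin (N + 1)) ℂ} {F : ℂ → EN N} {z : ℂ}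
    (h : AnalyticAt ℂ F z) : AnalyticAt ℂ (fun z => MvPolynomial.eval (F z).ofLp P) z := by
  have hi : ∀ i, AnalyticAt ℂ (fun z => (F z).ofLp i) z := fun i =>
    ((EuclideanSpace.proj i : EN N →L[ℂ] ℂ).analyticAt _).comp h
  induction P using MvPolynomial.induction_on with
  | C a =>
    simp only [MvPolynomial.eval_C]
    exact analyticAt_const
  | add p q hp hq =>
    simp only [map_add]
    exact hp.fun_add hq
  | mul_X p i hp =>
    simp only [map_mul, MvPolynomial.eval_X]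
    exact hp.fun_mul (hi i)

private theorem ClP_smul {P : MvPolynomial (Fin (N + 1)) ℂ} {d : ℕ} (hP : P.IsHomogeneous d) (c : ℂ)
    (x : Fin (N + 1) → ℂ) : MvPolynomial.eval (c • x) P = c ^ d * MvPolynomial.eval x P := by
  rw [MvPolynomial.eval_eq, MvPolynomial.eval_eq, Finset.mul_sum]
  refine Finset.sum_congr rfl fun m hm => ?_
  have h1 : ∑ i ∈ m.support, m i = d := by
    have h3 := hP (MvPolynomial.mem_support_iff.1 hm)
    simpa [Finsupp.weight_apply, Finsupp.sum] using h3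
  have h2 : ∏ i ∈ m.support, (c • x) i ^ m i = c ^ d * ∏ i ∈ m.support, x i ^ m i := by
    rw [← h1, ← Finset.prod_pow_eq_pow_sum, ← Finset.prod_mul_distrib]
    refine Finset.prod_congr rfl fun i _ => ?_
    rw [Pi.smul_apply, smul_eq_mul, mul_pow]
  rw [h2]
  ring

theorem rel_open_of_poly {K : Set (EN N)} {P : MvPolynomial (Fin (N + 1)) ℂ} (hne : ∀ x ∈ K, x ≠ 0) (hP : ∀ x ∈ K, MvPolynomial.eval x.ofLp P ≠ 0)
    (hcl : ∀ x ∈ closure K, x ≠ 0 → MvPolynomial.eval x.ofLp P ≠ 0 → x ∈ K) :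
    ∀ x ∈ K, ∀ᶠ y in 𝓝 x, y ∈ closure K → y ∈ K := by
  intro x hx
  have h1 : ∀ᶠ y in 𝓝 x, y ≠ 0 := continuousAt_id.eventually_ne (hne x hx)
  have h2 : ∀ᶠ y in 𝓝 x, MvPolynomial.eval (y : EN N).ofLp P ≠ 0 :=
    (ClP_cont P).continuousAt.eventually_ne (hP x hx)
  filter_upwards [h1, h2] with y hy1 hy2 hy3
  exact hcl y hy3 hy1 hy2

theorem hur_of_poly {K : Set (EN N)} (hsm : ∀ x ∈ K, ∀ c : ℂ, c ≠ 0 → c • x ∈ K) {P : MvPolynomial (Fin (N + 1)) ℂ} {d : ℕ} (hPd : P.IsHomogeneous d)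
    (hP : ∀ x ∈ K, MvPolynomial.eval x.ofLp P ≠ 0)
    (hcl : ∀ x ∈ closure K, x ≠ 0 → MvPolynomial.eval x.ofLp P ≠ 0 → x ∈ K) :
    ∀ (l : Filter ℕ), l.NeBot → ∀ (F : ℕ → ℂ → EN N) (H : ℂ → EN N) (k : ℕ) (z₀ : ℂ) (s : ℝ), 0 < s →
    (∀ᶠ n in l, Curve K (Metric.ball z₀ s) (F n)) → DifferentiableOn ℂ H (Metric.ball z₀ s) →
    TendstoLocallyUniformlyOn F (fun z => (z - z₀) ^ k • H z) l (Metric.ball z₀ s) → H z₀ ≠ 0 → H z₀ ∉ K → ∀ᶠ z in 𝓝 z₀, H z ∉ K := by
  intro l hl F H k z₀ s hs hF hH hlim hH0 hnot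
  have hz₀ : z₀ ∈ ball z₀ s := mem_ball_self hs
  have hHan : ∀ z ∈ ball z₀ s, AnalyticAt ℂ H z := fun z hz =>
    hH.analyticAt (isOpen_ball.mem_nhds hz)
  have hHc : ContinuousAt H z₀ := (hHan z₀ hz₀).continuousAt
  have hcone : ∀ x ∈ closure K, ∀ c : ℂ, c ≠ 0 → c • x ∈ closure K := by
    intro x hx c hc
    exact map_mem_closure (continuous_const_smul c) hx fun y hy => hsm y hy c hc
  have hptw : ∀ z ∈ ball z₀ s, Tendsto (fun n => F n z) l (𝓝 ((z - z₀) ^ k • H z)) :=
    fun z hz => hlim.tendsto_at hz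
  have hcl1 : ∀ z ∈ ball z₀ s, z ≠ z₀ → H z ∈ closure K := by
    intro z hz hne
    have h1 : (z - z₀) ^ k • H z ∈ closure K := by
      refine mem_closure_of_tendsto (hptw z hz) ?_
      filter_upwards [hF] with n hn
      exact hn.2 z hz
    have hc : (z - z₀) ^ k ≠ 0 := pow_ne_zero _ (sub_ne_zero.2 hne)
    have h2 := hcone _ h1 ((z - z₀) ^ k)⁻¹ (inv_ne_zero hc)
    rwa [inv_smul_smul₀ hc] at h2
  have hcl0 : H z₀ ∈ closure K := by
    have h1 : Tendsto H (𝓝[≠] z₀) (𝓝 (H z₀)) := hHc.tendsto.mono_left nhdsWithin_le_nhds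
    refine isClosed_closure.mem_of_tendsto h1 ?_
    have h2 : ∀ᶠ z in 𝓝[≠] z₀, z ∈ ball z₀ s :=
      nhdsWithin_le_nhds (isOpen_ball.mem_nhds hz₀)
    filter_upwards [h2, self_mem_nhdsWithin] with z hz hne
    exact hcl1 z hz hne
  have hP0 : MvPolynomial.eval (H z₀).ofLp P = 0 := by
    by_contra hcon
    exact hnot (hcl _ hcl0 hH0 hcon)
  have huan : AnalyticAt ℂ (fun z => MvPolynomial.eval (H z).ofLp P) z₀ := ClP_an (hHan z₀ hz₀)
  rcases huan.eventually_eq_zero_or_eventually_ne_zero with hu | hu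
  · filter_upwards [hu] with z hz hK
    exact hP _ hK hz
  · exfalso
    rw [eventually_nhdsWithin_iff] at hu
    obtain ⟨r0, hr0, hr0'⟩ := Metric.eventually_nhds_iff.1 hu
    set r : ℝ := min (r0 / 2) (s / 2) with hrdef
    have hr : 0 < r := lt_min (by linarith) (by linarith)
    have hr1 : r < r0 := lt_of_le_of_lt (min_le_left _ _) (by linarith)
    have hr2 : r < s := lt_of_le_of_lt (min_le_right _ _) (by linarith)
    have hsub : closedBall z₀ r ⊆ ball z₀ s := closedBall_subset_ball hr2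
    set f : ℂ → EN N := fun z => (z - z₀) ^ k • H z with hf
    set pe : EN N → ℂ := fun x => MvPolynomial.eval x.ofLp P with hpe
    have hpc : Continuous pe := ClP_cont P
    have hfc : ContinuousOn f (closedBall z₀ r) := by
      have h1 : ContinuousOn (fun z : ℂ => (z - z₀) ^ k) (closedBall z₀ r) :=
        (by fun_prop : Continuous fun z : ℂ => (z - z₀) ^ k).continuousOn
      exact h1.smul (hH.continuousOn.mono hsub)
    have hfv : ∀ z, pe (f z) = ((z - z₀) ^ k) ^ d * MvPolynomial.eval (H z).ofLp P := fun z =>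
      ClP_smul hPd _ _
    have hv : ∀ z ∈ sphere z₀ r, pe (f z) ≠ 0 := by
      intro z hz
      have hne : z ≠ z₀ := ne_of_mem_sphere hz hr.ne'
      rw [hfv]
      refine mul_ne_zero (pow_ne_zero _ (pow_ne_zero _ (sub_ne_zero.2 hne))) ?_
      exact hr0' (by rw [mem_sphere.1 hz]; exact hr1) hne
    have hcs : ContinuousOn (fun z => ‖pe (f z)‖) (sphere z₀ r) :=
      (hpc.comp_continuousOn (hfc.mono sphere_subset_closedBall)).norm
    obtain ⟨z1, hz1, hmin⟩ := (isCompact_sphere z₀ r).exists_isMinOn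
      (NormedSpace.sphere_nonempty.2 hr.le) hcs
    set η : ℝ := ‖pe (f z1)‖ / 2 with hη
    have hηpos : 0 < η := half_pos (norm_pos_iff.2 (hv z1 hz1))
    have hKc : IsCompact (f '' closedBall z₀ r) := (isCompact_closedBall z₀ r).image_of_continuousOn hfc
    have huc := hKc.uniformContinuousAt_of_continuousAt pe (fun a _ => hpc.continuousAt)
      (Metric.dist_mem_uniformity hηpos)
    obtain ⟨δ, hδ, hδ'⟩ := Metric.mem_uniformity_dist.1 huc
    have hunif := Metric.tendstoUniformlyOn_iff.1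
      ((tendstoLocallyUniformlyOn_iff_forall_isCompact isOpen_ball).1 hlim _ hsub
        (isCompact_closedBall z₀ r)) δ hδ
    obtain ⟨n, hn1, hn2⟩ := (hF.and hunif).exists
    have hclose : ∀ z ∈ closedBall z₀ r, ‖pe (f z) - pe (F n z)‖ < η := by
      intro z hz
      have h1 : dist (f z) (F n z) < δ := hn2 z hz
      have h2 := hδ' h1 ⟨z, hz, rfl⟩
      rw [← dist_eq_norm]
      exact h2
    have hnz : ∀ z ∈ ball z₀ s, pe (F n z) ≠ 0 := fun z hz => hP _ (hn1.2 z hz)
    have hdiff : DifferentiableOn ℂ (fun z => (pe (F n z))⁻¹) (ball z₀ s) := by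
      intro z hz
      have h1 : AnalyticAt ℂ (F n) z := hn1.1.analyticAt (isOpen_ball.mem_nhds hz)
      exact ((ClP_an h1).differentiableAt.inv (hnz z hz)).differentiableWithinAt
    have hdc : DiffContOnCl ℂ (fun z => (pe (F n z))⁻¹) (ball z₀ r) := by
      refine DifferentiableOn.diffContOnCl ?_
      rw [closure_ball z₀ hr.ne']
      exact hdiff.mono hsub
    have hfr : ∀ z ∈ frontier (ball z₀ r), ‖(pe (F n z))⁻¹‖ ≤ η⁻¹ := by
      intro z hz
      rw [frontier_ball z₀ hr.ne'] at hz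
      rw [norm_inv]
      refine inv_anti₀ hηpos ?_
      have h1 := hclose z (sphere_subset_closedBall hz)
      have h2 : ‖pe (f z1)‖ ≤ ‖pe (f z)‖ := hmin hz
      have h3 : ‖pe (f z)‖ ≤ ‖pe (f z) - pe (F n z)‖ + ‖pe (F n z)‖ := by
        calc ‖pe (f z)‖ = ‖(pe (f z) - pe (F n z)) + pe (F n z)‖ := by rw [sub_add_cancel]
          _ ≤ _ := norm_add_le _ _
      have h4 : ‖pe (f z1)‖ = 2 * η := by
        rw [hη]
        ring
      linarith
    have hz₀c : z₀ ∈ closure (ball z₀ r) := subset_closure (mem_ball_self hr)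
    have hmax := Complex.norm_le_of_forall_mem_frontier_norm_le isBounded_ball hdc hfr hz₀c
    rw [norm_inv] at hmax
    have hpos : 0 < ‖pe (F n z₀)‖ := norm_pos_iff.2 (hnz z₀ hz₀)
    have h5 : η ≤ ‖pe (F n z₀)‖ := (inv_le_inv₀ hpos hηpos).1 hmax
    have h6 := hclose z₀ (mem_closedBall_self hr.le)
    have h7 : pe (f z₀) = 0 := by
      rw [hfv, hP0, mul_zero]
    rw [h7, zero_sub, norm_neg] at h6
    linarith

end Pool.Agent.H36.BP
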