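import Pool.Agent.H36.BP.SubA

/-!
# BP SubD: functions of the real part of a holomorphic function

* `of_re`: `w = w₀ + (w - w₀)`, `ψ(x) ≥ ψ(x₀) + ψ₁ (x - x₀) + (ψ₂/2 - δ)(x - x₀)²` near `x₀ = Re w₀`, `(Re ζ)² = |ζ|²/2 + Re(ζ²)/2`; support
  `exp(ψ(x₀) + ψ₁ (w - w₀) + (ψ₂/4 - δ/2)(w - w₀)²)`, exponent `(ψ₂/4 - δ/2)|w'|²` up to `o(1)`.
* `log_rpow`: `w = log z` (a branch near `z₀`), `ψ(x) = -r log(-x)`, `ψ'' = r/x²`.
* `gain`: `s z₀ ≠ 0`: `w = log s`, `ψ(x) = e log(1 + M exp(2kx))`, `ψ'' = e 4k² M exp(2kx)/(1 + M exp(2kx))²`.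
* `gain_zero`: `s z₀ = 0`, `s'(z₀) ≠ 0`, `0 < k < 1/2`.. every exponent: `(1 + M|s|^(2k))^e ≥ 1 + e' |z - z₀|^(2k) ≥ exp(c'|z - z₀|²)` near `z₀` (`k < 1`).
-/

set_option autoImplicit false

namespace Pool.Agent.H36.BP

open Filter Topology Metric

variable {N : ℕ}

private theorem SubD_slope {w : ℂ → ℂ} {z₀ : ℂ} (hw : AnalyticAt ℂ w z₀) {κ c' : ℝ}
    (h : c' < κ * ‖deriv w z₀‖ ^ 2) :
    ∀ᶠ z in 𝓝 z₀, c' * ‖z - z₀‖ ^ 2 ≤ κ * ‖w z - w z₀‖ ^ 2 := by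
  have h1 := (hasDerivAt_iff_tendsto_slope.1 hw.differentiableAt.hasDerivAt)
  have h2 : Tendsto (fun z => κ * ‖slope w z₀ z‖ ^ 2) (𝓝[≠] z₀) (𝓝 (κ * ‖deriv w z₀‖ ^ 2)) :=
    (h1.norm.pow 2).const_mul κ
  have h3 := eventually_nhdsWithin_iff.1 (h2.eventually_const_lt h)
  filter_upwards [h3] with z hz
  by_cases hzz : z = z₀
  · rw [hzz, sub_self, sub_self, norm_zero]
    simp
  · have h4 := hz hzz
    have h5 : 0 < ‖z - z₀‖ := norm_pos_iff.2 (sub_ne_zero.2 hzz)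
    have h6 : ‖slope w z₀ z‖ = ‖z - z₀‖⁻¹ * ‖w z - w z₀‖ := by
      rw [slope_def_module, norm_smul, norm_inv]
    rw [h6] at h4
    have h7 : κ * (‖z - z₀‖⁻¹ * ‖w z - w z₀‖) ^ 2 * ‖z - z₀‖ ^ 2 = κ * ‖w z - w z₀‖ ^ 2 := by
      field_simp
    rw [← h7]
    exact mul_le_mul_of_nonneg_right h4.le (by positivity)

theorem Sub.of_re {w : ℂ → ℂ} {z₀ : ℂ} (hw : AnalyticAt ℂ w z₀) {ψ : ℝ → ℝ} {ψ₁ ψ₂ : ℝ}
    (h : ∀ δ : ℝ, 0 < δ → ∀ᶠ x in 𝓝 (w z₀).re, ψ (w z₀).re + ψ₁ * (x - (w z₀).re) + (ψ₂ / 2 - δ) * (x - (w z₀).re) ^ 2 ≤ ψ x) :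
    Sub (fun z => Real.exp (ψ (w z).re)) z₀ (ψ₂ / 4 * ‖deriv w z₀‖ ^ 2) := by
  refine ⟨Real.exp_pos _, fun c' hc' => ?_⟩
  obtain ⟨δ, hδ, hδc⟩ : ∃ δ : ℝ, 0 < δ ∧ c' < (ψ₂ / 4 - δ / 2) * ‖deriv w z₀‖ ^ 2 := by
    refine ⟨(ψ₂ / 4 * ‖deriv w z₀‖ ^ 2 - c') / (‖deriv w z₀‖ ^ 2 + 1),
      div_pos (by linarith) (by positivity), ?_⟩
    have h1 : 0 < ‖deriv w z₀‖ ^ 2 + 1 := by positivity
    have h2 : (ψ₂ / 4 * ‖deriv w z₀‖ ^ 2 - c') / (‖deriv w z₀‖ ^ 2 + 1) * ‖deriv w z₀‖ ^ 2 ≤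
        ψ₂ / 4 * ‖deriv w z₀‖ ^ 2 - c' := by
      rw [div_mul_eq_mul_div, div_le_iff₀ h1]
      have h3 : 0 < ψ₂ / 4 * ‖deriv w z₀‖ ^ 2 - c' := by linarith
      nlinarith
    linarith
  have hsl := SubD_slope hw hδc
  have hcont : Tendsto (fun z => (w z).re) (𝓝 z₀) (𝓝 (w z₀).re) :=
    (Complex.continuous_re.continuousAt.comp hw.continuousAt).tendsto
  refine ⟨fun z => Complex.exp ((ψ (w z₀).re : ℂ) + (ψ₁ : ℂ) * (w z - w z₀) +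
    ((ψ₂ / 4 - δ / 2 : ℝ) : ℂ) * (w z - w z₀) ^ 2), ?_, ?_, ?_⟩
  · have h1 : AnalyticAt ℂ (fun z => w z - w z₀) z₀ := hw.sub analyticAt_const
    exact ((analyticAt_const.add (analyticAt_const.mul h1)).add
      (analyticAt_const.mul (h1.pow 2))).cexp
  · show ‖Complex.exp ((ψ (w z₀).re : ℂ) + (ψ₁ : ℂ) * (w z₀ - w z₀) +
      ((ψ₂ / 4 - δ / 2 : ℝ) : ℂ) * (w z₀ - w z₀) ^ 2)‖ = Real.exp (ψ (w z₀).re)
    rw [Complex.norm_exp, sub_self, mul_zero, add_zero, zero_pow two_ne_zero, mul_zero, add_zero,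
      Complex.ofReal_re]
  · filter_upwards [hsl, hcont.eventually (h δ hδ)] with z hz1 hz2
    rw [Complex.norm_exp, ← Real.exp_add, Real.exp_le_exp]
    refine le_trans ?_ hz2
    obtain ⟨ζ, hζ⟩ : ∃ ζ : ℂ, w z - w z₀ = ζ := ⟨_, rfl⟩
    have h1 : (w z).re - (w z₀).re = ζ.re := by rw [← hζ, Complex.sub_re]
    have h2 : ((ψ (w z₀).re : ℂ) + (ψ₁ : ℂ) * ζ + ((ψ₂ / 4 - δ / 2 : ℝ) : ℂ) * ζ ^ 2).re =
        ψ (w z₀).re + ψ₁ * ζ.re + (ψ₂ / 4 - δ / 2) * (ζ.re ^ 2 - ζ.im ^ 2) := by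
      rw [Complex.add_re, Complex.add_re, Complex.re_ofReal_mul, Complex.re_ofReal_mul,
        Complex.ofReal_re, sq ζ, Complex.mul_re]
      ring
    have h3 : ‖ζ‖ ^ 2 = ζ.re ^ 2 + ζ.im ^ 2 := by
      rw [Complex.sq_norm, Complex.normSq_apply]
      ring
    rw [hζ] at hz1 ⊢
    rw [h1, h2]
    rw [h3] at hz1
    nlinarith

/-- Peano form of Taylor's theorem for `Sub.of_re` -/
theorem peano {ψ ψ' : ℝ → ℝ} {x₀ ψ₂ : ℝ} (h : ∀ᶠ x in 𝓝 x₀, HasDerivAt ψ (ψ' x) x) (h2 : HasDerivAt ψ' ψ₂ x₀) :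
    ∀ δ : ℝ, 0 < δ → ∀ᶠ x in 𝓝 x₀, ψ x₀ + ψ' x₀ * (x - x₀) + (ψ₂ / 2 - δ) * (x - x₀) ^ 2 ≤ ψ x := by
  intro δ hδ
  have h3 : ∀ᶠ x in 𝓝 x₀, ‖ψ' x - ψ' x₀ - (x - x₀) • ψ₂‖ ≤ 2 * δ * ‖x - x₀‖ :=
    (hasDerivAt_iff_isLittleO.1 h2).def (by linarith)
  obtain ⟨ε, hε, hball⟩ := Metric.eventually_nhds_iff_ball.1 (h.and h3)
  have hF : ∀ x ∈ Metric.ball x₀ ε, HasDerivAt (fun x => ψ x - ψ' x₀ * (x - x₀) -
      (ψ₂ / 2 - δ) * (x - x₀) ^ 2) (ψ' x - ψ' x₀ - (ψ₂ - 2 * δ) * (x - x₀)) x := by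
    intro x hx
    have e1 := (hball x hx).1
    have e2 : HasDerivAt (fun x : ℝ => x - x₀) 1 x := (hasDerivAt_id x).sub_const x₀
    have e3 := (e1.sub (e2.const_mul (ψ' x₀))).sub ((e2.pow 2).const_mul (ψ₂ / 2 - δ))
    refine e3.congr_deriv ?_
    simp only [Nat.cast_ofNat]
    ring
  have hF0 : (fun x => ψ x - ψ' x₀ * (x - x₀) - (ψ₂ / 2 - δ) * (x - x₀) ^ 2) x₀ = ψ x₀ := by
    simp
  filter_upwards [Metric.ball_mem_nhds x₀ hε] with x hx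
  have hx' : |x - x₀| < ε := by rwa [Metric.mem_ball, Real.dist_eq] at hx
  rcases lt_trichotomy x x₀ with hlt | heq | hgt
  · have hsub : ∀ y ∈ Set.Icc x x₀, y ∈ Metric.ball x₀ ε := by
      intro y hy
      rw [Metric.mem_ball, Real.dist_eq, abs_lt]
      rw [abs_lt] at hx'
      constructor <;> linarith [hy.1, hy.2]
    obtain ⟨c, hc, hceq⟩ := exists_hasDerivAt_eq_slope (fun x => ψ x - ψ' x₀ * (x - x₀) -
      (ψ₂ / 2 - δ) * (x - x₀) ^ 2) (fun x => ψ' x - ψ' x₀ - (ψ₂ - 2 * δ) * (x - x₀)) hlt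
      (fun y hy => (hF y (hsub y hy)).continuousAt.continuousWithinAt)
      (fun y hy => hF y (hsub y ⟨hy.1.le, hy.2.le⟩))
    have hb := (hball c (hsub c ⟨hc.1.le, hc.2.le⟩)).2
    rw [Real.norm_eq_abs, Real.norm_eq_abs, abs_of_neg (by linarith [hc.2] : c - x₀ < 0),
      abs_le, smul_eq_mul] at hb
    have hneg : ψ' c - ψ' x₀ - (ψ₂ - 2 * δ) * (c - x₀) ≤ 0 := by linarith [hb.2]
    rw [eq_div_iff (by linarith : x₀ - x ≠ 0)] at hceq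
    have hprod := mul_nonpos_of_nonpos_of_nonneg hneg (by linarith : (0 : ℝ) ≤ x₀ - x)
    rw [hceq] at hprod
    nlinarith
  · rw [heq]
    simp
  · have hsub : ∀ y ∈ Set.Icc x₀ x, y ∈ Metric.ball x₀ ε := by
      intro y hy
      rw [Metric.mem_ball, Real.dist_eq, abs_lt]
      rw [abs_lt] at hx'
      constructor <;> linarith [hy.1, hy.2]
    obtain ⟨c, hc, hceq⟩ := exists_hasDerivAt_eq_slope (fun x => ψ x - ψ' x₀ * (x - x₀) -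
      (ψ₂ / 2 - δ) * (x - x₀) ^ 2) (fun x => ψ' x - ψ' x₀ - (ψ₂ - 2 * δ) * (x - x₀)) hgt
      (fun y hy => (hF y (hsub y hy)).continuousAt.continuousWithinAt)
      (fun y hy => hF y (hsub y ⟨hy.1.le, hy.2.le⟩))
    have hb := (hball c (hsub c ⟨hc.1.le, hc.2.le⟩)).2
    rw [Real.norm_eq_abs, Real.norm_eq_abs, abs_of_pos (by linarith [hc.1] : 0 < c - x₀),
      abs_le, smul_eq_mul] at hb
    have hpos : 0 ≤ ψ' c - ψ' x₀ - (ψ₂ - 2 * δ) * (c - x₀) := by linarith [hb.1]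
    rw [eq_div_iff (by linarith : x - x₀ ≠ 0)] at hceq
    have hprod := mul_nonneg hpos (by linarith : (0 : ℝ) ≤ x - x₀)
    rw [hceq] at hprod
    nlinarith

/-- a branch of the logarithm of `s` near a point where `s` does not vanish -/
private theorem SubD_log {s : ℂ → ℂ} {z₀ : ℂ} (hs : AnalyticAt ℂ s z₀) (h0 : s z₀ ≠ 0) :
    ∃ w : ℂ → ℂ, AnalyticAt ℂ w z₀ ∧ (∀ᶠ z in 𝓝 z₀, (w z).re = Real.log ‖s z‖ ∧ s z ≠ 0) ∧
      (w z₀).re = Real.log ‖s z₀‖ ∧ deriv w z₀ = deriv s z₀ / s z₀ := by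
  have hdiv : AnalyticAt ℂ (fun z => s z / s z₀) z₀ := hs.div analyticAt_const h0
  have hsl : s z₀ / s z₀ ∈ Complex.slitPlane := by
    rw [div_self h0]
    exact Complex.one_mem_slitPlane
  have hre : ∀ z, s z ≠ 0 → (Complex.log (s z / s z₀) + (Real.log ‖s z₀‖ : ℂ)).re =
      Real.log ‖s z‖ := by
    intro z hz
    rw [Complex.add_re, Complex.log_re, Complex.ofReal_re, norm_div,
      Real.log_div (norm_ne_zero_iff.2 hz) (norm_ne_zero_iff.2 h0)]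
    ring
  have hne : ∀ᶠ z in 𝓝 z₀, s z ≠ 0 := hs.continuousAt.eventually_ne h0
  refine ⟨fun z => Complex.log (s z / s z₀) + (Real.log ‖s z₀‖ : ℂ),
    (hdiv.clog hsl).add analyticAt_const, ?_, hre z₀ h0, ?_⟩
  · filter_upwards [hne] with z hz
    exact ⟨hre z hz, hz⟩
  · have h1 : HasDerivAt (fun z => s z / s z₀) (deriv s z₀ / s z₀) z₀ :=
      hs.differentiableAt.hasDerivAt.div_const _
    have h2 := (h1.clog hsl).add_const (Real.log ‖s z₀‖ : ℂ)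
    rw [h2.deriv, div_self h0, div_one]

theorem Sub.log_rpow {z₀ : ℂ} (h0 : z₀ ≠ 0) (h1 : ‖z₀‖ < 1) {r : ℝ} (hr : 0 ≤ r) :
    Sub (fun z => Real.log (1 / ‖z‖) ^ (-r)) z₀ (r / (4 * ‖z₀‖ ^ 2 * Real.log (1 / ‖z₀‖) ^ 2)) := by
  obtain ⟨w, hw, hw1, hw2, hw3⟩ := SubD_log (s := fun z => z) analyticAt_id h0
  have hpos : 0 < ‖z₀‖ := norm_pos_iff.2 h0
  have hx0 : Real.log ‖z₀‖ < 0 := Real.log_neg hpos h1
  have hψ : ∀ᶠ x in 𝓝 (Real.log ‖z₀‖), HasDerivAt (fun x : ℝ => -r * Real.log (-x)) (-r / x) x := by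
    filter_upwards [eventually_lt_nhds hx0] with x hx
    have e1 : HasDerivAt (fun x : ℝ => -x) (-1) x := hasDerivAt_neg x
    have e2 := (e1.log (by linarith : -x ≠ 0)).const_mul (-r)
    refine e2.congr_deriv ?_
    have hxne : x ≠ 0 := hx.ne
    field_simp
  have hψ2 : HasDerivAt (fun x : ℝ => -r / x) (r / Real.log ‖z₀‖ ^ 2) (Real.log ‖z₀‖) := by
    have e1 := (hasDerivAt_inv hx0.ne).const_mul (-r)
    refine e1.congr_deriv ?_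
    field_simp
  have hp := peano hψ hψ2
  have hre := Sub.of_re (ψ := fun x : ℝ => -r * Real.log (-x)) (ψ₁ := -r / Real.log ‖z₀‖)
    (ψ₂ := r / Real.log ‖z₀‖ ^ 2) hw (by
      intro δ hδ
      rw [hw2]
      exact hp δ hδ)
  have hval : r / Real.log ‖z₀‖ ^ 2 / 4 * ‖deriv w z₀‖ ^ 2 =
      r / (4 * ‖z₀‖ ^ 2 * Real.log (1 / ‖z₀‖) ^ 2) := by
    rw [hw3, deriv_id'', norm_div, norm_one, one_div ‖z₀‖, Real.log_inv, neg_sq]
    have := hx0.ne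
    field_simp
  rw [hval] at hre
  refine hre.congr ?_
  have hcont : ∀ᶠ z in 𝓝 z₀, ‖z‖ < 1 := (continuous_norm.tendsto z₀).eventually_lt_const h1
  filter_upwards [hw1, hcont] with z hz1 hz2
  have hz3 : 0 < ‖z‖ := norm_pos_iff.2 hz1.2
  have hz4 : 0 < Real.log (1 / ‖z‖) := Real.log_pos (by rw [lt_div_iff₀ hz3, one_mul]; exact hz2)
  rw [hz1.1, Real.rpow_def_of_pos hz4, one_div, Real.log_inv]
  congr 1
  ring

theorem Sub.gain {s : ℂ → ℂ} {z₀ : ℂ} (hs : AnalyticAt ℂ s z₀) (h0 : s z₀ ≠ 0) {M k e : ℝ} (hM : 0 ≤ M) (hk : 0 < k) (he : 0 ≤ e) :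
    Sub (fun z => (1 + M * ‖s z‖ ^ (2 * k)) ^ e) z₀
      (e * (M * k ^ 2 * ‖s z₀‖ ^ (2 * k - 2) * ‖deriv s z₀‖ ^ 2 / (1 + M * ‖s z₀‖ ^ (2 * k)) ^ 2)) := by
  obtain ⟨w, hw, hw1, hw2, hw3⟩ := SubD_log hs h0
  have hpos : 0 < ‖s z₀‖ := norm_pos_iff.2 h0
  have hE : ∀ x : ℝ, 0 < 1 + M * Real.exp (2 * k * x) := fun x => by
    have := mul_nonneg hM (Real.exp_pos (2 * k * x)).le
    linarith
  have hdE : ∀ x : ℝ, HasDerivAt (fun x : ℝ => Real.exp (2 * k * x))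
      (Real.exp (2 * k * x) * (2 * k)) x := fun x => by
    have e1 := ((hasDerivAt_id x).const_mul (2 * k)).exp
    refine e1.congr_deriv ?_
    simp
  have hdD : ∀ x : ℝ, HasDerivAt (fun x : ℝ => 1 + M * Real.exp (2 * k * x))
      (M * (Real.exp (2 * k * x) * (2 * k))) x := fun x => ((hdE x).const_mul M).const_add 1
  have hψ : ∀ x : ℝ, HasDerivAt (fun x : ℝ => e * Real.log (1 + M * Real.exp (2 * k * x)))
      (e * (M * (Real.exp (2 * k * x) * (2 * k)) / (1 + M * Real.exp (2 * k * x)))) x :=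
    fun x => ((hdD x).log (hE x).ne').const_mul e
  have hψ2 : ∀ x : ℝ, HasDerivAt (fun x : ℝ =>
      e * (M * (Real.exp (2 * k * x) * (2 * k)) / (1 + M * Real.exp (2 * k * x))))
      (4 * e * k ^ 2 * M * Real.exp (2 * k * x) / (1 + M * Real.exp (2 * k * x)) ^ 2) x := by
    intro x
    have e1 := ((((hdE x).mul_const (2 * k)).const_mul M).div (hdD x) (hE x).ne').const_mul e
    refine e1.congr_deriv ?_
    have := (hE x).ne'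
    field_simp
    ring
  have hp := peano (ψ := fun x : ℝ => e * Real.log (1 + M * Real.exp (2 * k * x)))
    (x₀ := Real.log ‖s z₀‖) (Eventually.of_forall hψ) (hψ2 _)
  have hre := Sub.of_re (ψ := fun x : ℝ => e * Real.log (1 + M * Real.exp (2 * k * x))) hw (by
      intro δ hδ
      rw [hw2]
      exact hp δ hδ)
  have hexp : ∀ y : ℝ, 0 < y → Real.exp (2 * k * Real.log y) = y ^ (2 * k) := by
    intro y hy
    rw [Real.rpow_def_of_pos hy, mul_comm]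
  have hval : 4 * e * k ^ 2 * M * Real.exp (2 * k * Real.log ‖s z₀‖) /
      (1 + M * Real.exp (2 * k * Real.log ‖s z₀‖)) ^ 2 / 4 * ‖deriv w z₀‖ ^ 2 =
      (e * (M * k ^ 2 * ‖s z₀‖ ^ (2 * k - 2) * ‖deriv s z₀‖ ^ 2 /
        (1 + M * ‖s z₀‖ ^ (2 * k)) ^ 2)) := by
    have h2 : ‖s z₀‖ ^ (2 * k - 2) = ‖s z₀‖ ^ (2 * k) / ‖s z₀‖ ^ 2 := by
      rw [Real.rpow_sub hpos, Real.rpow_two]
    have h3 : 1 + M * ‖s z₀‖ ^ (2 * k) ≠ 0 := by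
      rw [← hexp _ hpos]
      exact (hE _).ne'
    rw [hexp _ hpos, hw3, norm_div, h2]
    field_simp
  rw [hval] at hre
  refine hre.congr ?_
  filter_upwards [hw1] with z hz1
  have hz3 : 0 < ‖s z‖ := norm_pos_iff.2 hz1.2
  have hz4 : 0 < 1 + M * ‖s z‖ ^ (2 * k) := by
    rw [← hexp _ hz3]
    exact hE _
  rw [hz1.1, hexp _ hz3, Real.rpow_def_of_pos hz4, mul_comm e]

theorem Sub.gain_zero {s : ℂ → ℂ} {z₀ : ℂ} (hs : AnalyticAt ℂ s z₀) (h0 : s z₀ = 0) (h1 : deriv s z₀ ≠ 0) {M k e : ℝ} (hM : 0 < M)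
    (hk : 0 < k) (hk1 : k < 1) (he : 0 < e) (c : ℝ) : Sub (fun z => (1 + M * ‖s z‖ ^ (2 * k)) ^ e) z₀ c := by
  have hz0 : (1 + M * ‖s z₀‖ ^ (2 * k)) ^ e = 1 := by
    rw [h0, norm_zero, Real.zero_rpow (by linarith : 2 * k ≠ 0), mul_zero, add_zero,
      Real.one_rpow]
  refine ⟨?_, fun c' _ => ⟨fun _ => 1, analyticAt_const, ?_, ?_⟩⟩
  · show 0 < (1 + M * ‖s z₀‖ ^ (2 * k)) ^ e
    rw [hz0]
    exact one_pos
  · show ‖(1 : ℂ)‖ = (1 + M * ‖s z₀‖ ^ (2 * k)) ^ e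
    rw [norm_one, hz0]
  · have hd : 0 < ‖deriv s z₀‖ := norm_pos_iff.2 h1
    -- lower bound for `s`
    have hlow : ∀ᶠ z in 𝓝 z₀, ‖z - z₀‖ ^ 2 ≤ 4 / ‖deriv s z₀‖ ^ 2 * ‖s z - s z₀‖ ^ 2 := by
      have h2 := SubD_slope (c' := 1) (κ := 4 / ‖deriv s z₀‖ ^ 2) hs (by
        rw [div_mul_cancel₀ _ (by positivity)]
        norm_num)
      filter_upwards [h2] with z hz
      linarith
    -- `‖s‖` is small
    have hA : 0 < e * M / 2 / (|c'| * (4 / ‖deriv s z₀‖ ^ 2) + 1) := by positivity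
    have hsm : Tendsto (fun z => ‖s z‖) (𝓝 z₀) (𝓝 0) := by
      have h2 := hs.continuousAt.norm.tendsto
      rwa [h0, norm_zero] at h2
    have hsm1 : ∀ᶠ z in 𝓝 z₀, ‖s z‖ ^ (2 - 2 * k) < e * M / 2 / (|c'| * (4 / ‖deriv s z₀‖ ^ 2) + 1) := by
      have h2 : Tendsto (fun z => ‖s z‖ ^ (2 - 2 * k)) (𝓝 z₀) (𝓝 (0 ^ (2 - 2 * k))) :=
        hsm.rpow_const (Or.inr (by linarith))
      rw [Real.zero_rpow (by linarith : 2 - 2 * k ≠ 0)] at h2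
      exact h2.eventually_lt_const hA
    have hsm2 : ∀ᶠ z in 𝓝 z₀, M * ‖s z‖ ^ (2 * k) < 1 := by
      have h2 : Tendsto (fun z => M * ‖s z‖ ^ (2 * k)) (𝓝 z₀) (𝓝 (M * 0 ^ (2 * k))) :=
        (hsm.rpow_const (Or.inr (by linarith))).const_mul M
      rw [Real.zero_rpow (by linarith : 2 * k ≠ 0), mul_zero] at h2
      exact h2.eventually_lt_const one_pos
    filter_upwards [hlow, hsm1, hsm2] with z hz1 hz2 hz3
    rw [norm_one, one_mul]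
    have hy0 : 0 ≤ ‖s z‖ ^ (2 * k) := Real.rpow_nonneg (norm_nonneg _) _
    have hy : 0 < 1 + M * ‖s z‖ ^ (2 * k) := by
      have := mul_nonneg hM.le hy0
      linarith
    rw [Real.rpow_def_of_pos hy, Real.exp_le_exp]
    have hlog : M * ‖s z‖ ^ (2 * k) / 2 ≤ Real.log (1 + M * ‖s z‖ ^ (2 * k)) := by
      have h2 := Real.one_sub_inv_le_log_of_pos hy
      have h3 : M * ‖s z‖ ^ (2 * k) / 2 ≤ 1 - (1 + M * ‖s z‖ ^ (2 * k))⁻¹ := by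
        have h4 : 1 - (1 + M * ‖s z‖ ^ (2 * k))⁻¹ =
            M * ‖s z‖ ^ (2 * k) / (1 + M * ‖s z‖ ^ (2 * k)) := by
          field_simp
          ring
        rw [h4]
        exact div_le_div_of_nonneg_left (mul_nonneg hM.le hy0) hy (by linarith)
      linarith
    rw [h0, sub_zero] at hz1
    have hsq : ‖s z‖ ^ 2 = ‖s z‖ ^ (2 - 2 * k) * ‖s z‖ ^ (2 * k) := by
      rw [← Real.rpow_add_of_nonneg (norm_nonneg _) (by linarith) (by linarith), sub_add_cancel,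
        Real.rpow_two]
    have hB : 0 < |c'| * (4 / ‖deriv s z₀‖ ^ 2) + 1 := by positivity
    rw [lt_div_iff₀ hB] at hz2
    have h5 : c' * ‖z - z₀‖ ^ 2 ≤ |c'| * (4 / ‖deriv s z₀‖ ^ 2 * ‖s z‖ ^ 2) :=
      (mul_le_mul_of_nonneg_right (le_abs_self c') (by positivity)).trans
        (mul_le_mul_of_nonneg_left hz1 (abs_nonneg _))
    have h6 : |c'| * (4 / ‖deriv s z₀‖ ^ 2 * ‖s z‖ ^ 2) ≤ e * M / 2 * ‖s z‖ ^ (2 * k) := by
      have h7 : |c'| * (4 / ‖deriv s z₀‖ ^ 2) * ‖s z‖ ^ (2 - 2 * k) ≤ e * M / 2 := by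
        have h8 : 0 ≤ ‖s z‖ ^ (2 - 2 * k) := Real.rpow_nonneg (norm_nonneg _) _
        nlinarith
      calc |c'| * (4 / ‖deriv s z₀‖ ^ 2 * ‖s z‖ ^ 2)
          = |c'| * (4 / ‖deriv s z₀‖ ^ 2) * ‖s z‖ ^ (2 - 2 * k) * ‖s z‖ ^ (2 * k) := by
            rw [hsq]
            ring
        _ ≤ e * M / 2 * ‖s z‖ ^ (2 * k) := mul_le_mul_of_nonneg_right h7 hy0
    calc c' * ‖z - z₀‖ ^ 2 ≤ e * M / 2 * ‖s z‖ ^ (2 * k) := h5.trans h6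
      _ = M * ‖s z‖ ^ (2 * k) / 2 * e := by ring
      _ ≤ Real.log (1 + M * ‖s z‖ ^ (2 * k)) * e := mul_le_mul_of_nonneg_right hlog he.le

end Pool.Agent.H36.BP
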