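import Pool.Agent.H36.BP.MtA
import Pool.Agent.H36.BP.SubC
import Pool.Agent.H36.BP.SubD
import Pool.Agent.H36.BP.SubB
import Pool.Agent.H36.BP.MaxP
import Pool.Agent.H36.BP.CirB

/-!
# BP ExtB: comparison on annuli

`g, b` from `annulus_approx` for `φ = c₀ log|F|`, `ε = 1`.  `w = Re g + b log|z|`.
(a) for `δ > 0` the function `|F|^(c₀) exp(-w) exp(δ|z|²)` has `Sub` exponent `≥ δ > 0` (`norm_rpow`; `exp(-Re g)|z|^(-b)` is locally the absolute value of a holomorphic function) and is continuous; on both circles it is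
`≤ e exp(δ)`; let `δ → 0`.
(b) `u = mt G F |F|^(-c₀) (log 1/|z|)^(-C') |z| exp(w)`, `C' = 4 C L² + 1`: exponent `≥ -C L²/(|z|² log²) + C'/(4|z|² log²) > 0` where `u > 0`.  On the circles `u ≤ e mt G F (log 1/|z|)^(-C') |z| ≤ e L (log 1/|z|)^(-C'-1)
≤ e L (log 1/r₁)^(-C'-1)`.  (`u` is upper semicontinuous on the closed annulus: `mt_usc` times a continuous nonnegative function.)
-/

set_option autoImplicit false

namespace Pool.Agent.H36.BP

open Filter Topology Metric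

variable {N : ℕ}

variable {K B : Set (EN N)} {G : EN N → EN N → ℝ} {ρ : EN N → ℝ} {M : ℕ} {c₀ C : ℝ}

/-- product of a nonnegative upper semicontinuous function and a nonnegative continuous function -/
private theorem extB_usc_mul {α : Type*} [TopologicalSpace α] {S : Set α} {u k : α → ℝ} (hu : UpperSemicontinuousOn u S)
    (hk : ContinuousOn k S) (hu0 : ∀ x ∈ S, 0 ≤ u x) (hk0 : ∀ x ∈ S, 0 ≤ k x) :
    UpperSemicontinuousOn (fun x => u x * k x) S := by
  intro x hx y hy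
  have ht : Tendsto (fun ε : ℝ => (u x + ε) * (k x + ε)) (𝓝[>] 0) (𝓝 ((u x + 0) * (k x + 0))) := by
    apply tendsto_nhdsWithin_of_tendsto_nhds
    have hc : Continuous (fun ε : ℝ => (u x + ε) * (k x + ε)) := by fun_prop
    exact hc.tendsto 0
  have hy' : (u x + 0) * (k x + 0) < y := by simpa using hy
  obtain ⟨ε, hε1, hε2⟩ := ((ht.eventually_lt_const hy').and self_mem_nhdsWithin).exists
  have hε : (0 : ℝ) < ε := hε2
  have h1 : ∀ᶠ x' in 𝓝[S] x, u x' < u x + ε := hu x hx _ (by linarith)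
  have h2 : ∀ᶠ x' in 𝓝[S] x, k x' < k x + ε := (hk x hx).eventually_lt_const (by linarith)
  filter_upwards [h1, h2, self_mem_nhdsWithin] with x' h1' h2' hx'
  refine lt_of_le_of_lt ?_ hε1
  exact mul_le_mul h1'.le h2'.le (hk0 x' hx') (by linarith [hu0 x hx])

/-- `exp (t (Re g + b log|z|))` is locally the absolute value of a holomorphic function -/
private theorem extB_sub_exp {g : ℂ → ℂ} (hg : DifferentiableOn ℂ g {0}ᶜ) (b t : ℝ) {z₀ : ℂ} (hz₀ : z₀ ≠ 0) :
    Sub (fun z => Real.exp (t * ((g z).re + b * Real.log ‖z‖))) z₀ 0 := by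
  have hga : AnalyticAt ℂ g z₀ := hg.analyticAt (isOpen_compl_singleton.mem_nhds hz₀)
  set k : ℂ → ℂ := fun z => Complex.exp ((t : ℂ) * (g z + (b : ℂ) * (Complex.log (z / z₀) + (Real.log ‖z₀‖ : ℂ)))) with hk
  have hlog : AnalyticAt ℂ (fun z : ℂ => Complex.log (z / z₀)) z₀ := by
    have h1 : AnalyticAt ℂ (fun z : ℂ => z / z₀) z₀ := by fun_prop
    refine AnalyticAt.clog h1 ?_
    simp [div_self hz₀]
  have hka : AnalyticAt ℂ k z₀ := by
    refine AnalyticAt.cexp ?_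
    exact analyticAt_const.mul (hga.add (analyticAt_const.mul (hlog.add analyticAt_const)))
  have hk0 : k z₀ ≠ 0 := Complex.exp_ne_zero _
  refine (Sub.of_holo hka hk0).congr ?_
  filter_upwards [isOpen_compl_singleton.mem_nhds hz₀] with z hz
  have hz' : z ≠ 0 := hz
  rw [hk]
  simp only
  rw [Complex.norm_exp]
  congr 1
  have h1 : (Complex.log (z / z₀)).re = Real.log ‖z‖ - Real.log ‖z₀‖ := by
    rw [Complex.log_re, norm_div, Real.log_div (norm_ne_zero_iff.mpr hz') (norm_ne_zero_iff.mpr hz₀)]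
  rw [Complex.re_ofReal_mul, Complex.add_re, Complex.re_ofReal_mul, Complex.add_re, h1, Complex.ofReal_re]
  ring

theorem annulus_bounds (hM : MetricData K B G ρ M c₀ C) {L : ℝ} (hL : 0 < L) {F : ℂ → EN N} (hF : Curve K (ball 0 1 \ {0}) F)
    (hgr : ∀ z : ℂ, z ≠ 0 → ‖z‖ < 1 → mt G F z * (‖z‖ * Real.log (1 / ‖z‖)) ≤ L) {r r₁ : ℝ} (hr : 0 < r) (hr1 : r < r₁) (hr2 : r₁ < 1) :
    ∃ (g : ℂ → ℂ) (b : ℝ), DifferentiableOn ℂ g {0}ᶜ ∧
      ∀ z : ℂ, r ≤ ‖z‖ → ‖z‖ ≤ r₁ → ‖F z‖ ^ c₀ ≤ Real.exp 1 * Real.exp ((g z).re + b * Real.log ‖z‖) ∧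
        mt G F z * Real.log (1 / ‖z‖) ^ (-(4 * C * L ^ 2 + 1)) * ‖z‖ * Real.exp ((g z).re + b * Real.log ‖z‖) ≤
          Real.exp 1 * L * Real.log (1 / r₁) ^ (-(4 * C * L ^ 2 + 2)) * ‖F z‖ ^ c₀ := by
  have hopen : IsOpen (ball (0 : ℂ) 1 \ {0}) := isOpen_ball.sdiff isClosed_singleton
  set S : Set ℂ := {z | r ≤ ‖z‖ ∧ ‖z‖ ≤ r₁} with hS
  set U : Set ℂ := {z | r < ‖z‖ ∧ ‖z‖ < r₁} with hU
  have hr10 : 0 < r₁ := hr.trans hr1
  have hSc : IsCompact S := by
    refine (isCompact_closedBall (0 : ℂ) r₁).of_isClosed_subset ?_ ?_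
    · exact (isClosed_le continuous_const continuous_norm).inter (isClosed_le continuous_norm continuous_const)
    · intro z hz
      simpa using hz.2
  have hUo : IsOpen U := (isOpen_lt continuous_const continuous_norm).inter (isOpen_lt continuous_norm continuous_const)
  have hUS : U ⊆ S := fun z hz => ⟨hz.1.le, hz.2.le⟩
  have hSsub : S ⊆ ball (0 : ℂ) 1 \ {0} := by
    intro z hz
    refine ⟨?_, ?_⟩
    · rw [mem_ball_zero_iff]; exact lt_of_le_of_lt hz.2 hr2
    · rintro rfl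
      have := hz.1
      rw [norm_zero] at this
      linarith
  have hSsph : S \ U ⊆ sphere (0 : ℂ) r ∪ sphere (0 : ℂ) r₁ := by
    intro z hz
    have h1 := hz.1
    have h2 : ¬ (r < ‖z‖ ∧ ‖z‖ < r₁) := hz.2
    rcases h1.1.lt_or_eq with h | h
    · right
      rw [mem_sphere_zero_iff_norm]
      by_contra hne
      exact h2 ⟨h, lt_of_le_of_ne h1.2 hne⟩
    · left
      rw [mem_sphere_zero_iff_norm, h]
  have hsphS : sphere (0 : ℂ) r ∪ sphere (0 : ℂ) r₁ ⊆ S := by
    rintro z (hz | hz)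
    · rw [mem_sphere_zero_iff_norm] at hz
      exact ⟨hz.ge, by rw [hz]; exact hr1.le⟩
    · rw [mem_sphere_zero_iff_norm] at hz
      exact ⟨by rw [hz]; exact hr1.le, hz.le⟩
  have hFK : ∀ z ∈ ball (0 : ℂ) 1 \ {0}, F z ∈ K := hF.2
  have hF0 : ∀ z ∈ ball (0 : ℂ) 1 \ {0}, F z ≠ 0 := fun z hz => hM.ne _ (hFK z hz)
  have hFn : ∀ z ∈ ball (0 : ℂ) 1 \ {0}, 0 < ‖F z‖ := fun z hz => norm_pos_iff.mpr (hF0 z hz)
  have hFc : ContinuousOn F S := hF.1.continuousOn.mono hSsub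
  have hFa : ∀ z ∈ ball (0 : ℂ) 1 \ {0}, AnalyticAt ℂ F z := fun z hz => hF.1.analyticAt (hopen.mem_nhds hz)
  obtain ⟨g, b, hg, hgb⟩ := annulus_approx hr hr1 (fun z => c₀ * Real.log ‖F z‖)
    (by
      refine ContinuousOn.mul continuousOn_const (ContinuousOn.log (hFc.mono hsphS).norm ?_)
      intro z hz
      exact (hFn z (hSsub (hsphS hz))).ne') (ε := 1) one_pos
  set w : ℂ → ℝ := fun z => (g z).re + b * Real.log ‖z‖ with hw
  have hwc : ContinuousOn w S := by
    have h1 : ContinuousOn g S := hg.continuousOn.mono fun z hz => (hSsub hz).2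
    refine (Complex.continuous_re.comp_continuousOn h1).add (continuousOn_const.mul
      (ContinuousOn.log continuous_norm.continuousOn ?_))
    intro z hz
    exact norm_ne_zero_iff.mpr (hSsub hz).2
  have hlogF : ∀ z ∈ ball (0 : ℂ) 1 \ {0}, ‖F z‖ ^ c₀ = Real.exp (c₀ * Real.log ‖F z‖) := by
    intro z hz
    rw [Real.rpow_def_of_pos (hFn z hz), mul_comm]
  have hlogF' : ∀ z ∈ ball (0 : ℂ) 1 \ {0}, ‖F z‖ ^ (-c₀) = Real.exp (-(c₀ * Real.log ‖F z‖)) := by
    intro z hz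
    rw [Real.rpow_def_of_pos (hFn z hz)]
    congr 1
    ring
  have hsph1 : ∀ z ∈ S \ U, ‖F z‖ ^ c₀ * Real.exp (-(w z)) ≤ Real.exp 1 := by
    intro z hz
    rw [hlogF z (hSsub hz.1), ← Real.exp_add, Real.exp_le_exp]
    have := (abs_le.mp (hgb z (hSsph hz))).1
    have hwz : w z = (g z).re + b * Real.log ‖z‖ := rfl
    rw [hwz]
    linarith
  have hsph2 : ∀ z ∈ S \ U, ‖F z‖ ^ (-c₀) * Real.exp (w z) ≤ Real.exp 1 := by
    intro z hz
    rw [hlogF' z (hSsub hz.1), ← Real.exp_add, Real.exp_le_exp]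
    have := (abs_le.mp (hgb z (hSsph hz))).2
    have hwz : w z = (g z).re + b * Real.log ‖z‖ := rfl
    rw [hwz]
    linarith
  -- part (a)
  have hA : ∀ δ : ℝ, 0 < δ → ∀ z ∈ S, ‖F z‖ ^ c₀ * Real.exp (-(w z)) * Real.exp (δ * ‖z‖ ^ 2) ≤ Real.exp 1 * Real.exp δ := by
    intro δ hδ
    refine max_principle hSc hUo hUS ?_ ?_ (by positivity) ?_
    · refine ContinuousOn.upperSemicontinuousOn ?_
      refine ContinuousOn.mul (ContinuousOn.mul ?_ ?_) (by fun_prop)
      · refine ContinuousOn.rpow_const hFc.norm ?_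
        intro z hz
        exact Or.inl (hFn z (hSsub hz)).ne'
      · exact Real.continuous_exp.comp_continuousOn hwc.neg
    · intro z hz _
      have hz' := hSsub (hUS hz)
      refine ⟨c₀ * fs (F z) (deriv F z) ^ 2 / 2 + 0 + δ, ?_, ?_⟩
      · have := hM.c₀_pos
        positivity
      · have h1 := Sub.norm_rpow (hFa z hz') (hF0 z hz') c₀
        have h2 := extB_sub_exp hg b (-1) (z₀ := z) hz'.2
        have h3 := Sub.exp_sq (t := fun z : ℂ => z) (z₀ := z) analyticAt_id δ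
        have h4 : (δ * ‖deriv (fun z : ℂ => z) z‖ ^ 2) = δ := by
          rw [deriv_id'']
          simp
        rw [h4] at h3
        refine ((h1.mul h2).mul h3).congr (Eventually.of_forall fun y => ?_)
        simp only [hw]
        rw [neg_one_mul]
    · intro z hz
      refine mul_le_mul (hsph1 z hz) ?_ (by positivity) (by positivity)
      rw [Real.exp_le_exp]
      have h1 : ‖z‖ ≤ 1 := (hz.1.2.trans_lt hr2).le
      have h2 : ‖z‖ ^ 2 ≤ 1 := by nlinarith [norm_nonneg z]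
      nlinarith
  have hA' : ∀ z ∈ S, ‖F z‖ ^ c₀ * Real.exp (-(w z)) ≤ Real.exp 1 := by
    intro z hz
    have ht : Tendsto (fun δ : ℝ => Real.exp 1 * Real.exp δ) (𝓝[>] 0) (𝓝 (Real.exp 1 * Real.exp 0)) := by
      apply tendsto_nhdsWithin_of_tendsto_nhds
      have hc : Continuous (fun δ : ℝ => Real.exp 1 * Real.exp δ) := by fun_prop
      exact hc.tendsto 0
    rw [Real.exp_zero, mul_one] at ht
    refine ge_of_tendsto ht ?_
    filter_upwards [self_mem_nhdsWithin] with δ hδ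
    have hδ' : (0 : ℝ) < δ := hδ
    refine le_trans ?_ (hA δ hδ' z hz)
    refine le_mul_of_one_le_right (by positivity) ?_
    exact Real.one_le_exp (by positivity)
  -- part (b)
  have hC := hM.C_nonneg
  set C' : ℝ := 4 * C * L ^ 2 + 1 with hC'
  have hC'0 : 0 < C' := by rw [hC']; positivity
  have hlog1 : 0 < Real.log (1 / r₁) := Real.log_pos (by rw [lt_div_iff₀ hr10]; linarith)
  have hlogz : ∀ z ∈ S, Real.log (1 / r₁) ≤ Real.log (1 / ‖z‖) := by
    intro z hz
    have hz0 : 0 < ‖z‖ := hr.trans_le hz.1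
    exact Real.log_le_log (by positivity) (one_div_le_one_div_of_le hz0 hz.2)
  have hB : ∀ z ∈ S, mt G F z * (‖F z‖ ^ (-c₀) * Real.log (1 / ‖z‖) ^ (-C') * ‖z‖ * Real.exp (w z)) ≤
      Real.exp 1 * L * Real.log (1 / r₁) ^ (-(C' + 1)) := by
    refine max_principle hSc hUo hUS ?_ ?_ (by positivity) ?_
    · refine extB_usc_mul ((mt_usc hM hopen hF).mono hSsub) ?_ ?_ ?_
      · refine ContinuousOn.mul (ContinuousOn.mul (ContinuousOn.mul ?_ ?_) (by fun_prop)) ?_
        · refine ContinuousOn.rpow_const hFc.norm ?_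
          intro z hz
          exact Or.inl (hFn z (hSsub hz)).ne'
        · refine ContinuousOn.rpow_const ?_ ?_
          · refine ContinuousOn.log ?_ ?_
            · refine ContinuousOn.div continuousOn_const continuous_norm.continuousOn ?_
              intro z hz
              exact norm_ne_zero_iff.mpr (hSsub hz).2
            · intro z hz
              have hz0 : 0 < ‖z‖ := hr.trans_le hz.1
              positivity
          · intro z hz
            exact Or.inl (hlog1.trans_le (hlogz z hz)).ne'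
        · exact Real.continuous_exp.comp_continuousOn hwc
      · intro z hz
        exact mt_nonneg hM (hFK z (hSsub hz))
      · intro z hz
        have h1 := hlog1.trans_le (hlogz z hz)
        have h2 := hFn z (hSsub hz)
        positivity
    · intro z hz hpos
      have hzS := hUS hz
      have hz' := hSsub hzS
      have hz0 : 0 < ‖z‖ := hr.trans_le hzS.1
      have hz1 : ‖z‖ < 1 := hzS.2.trans_lt hr2
      have hl := hlog1.trans_le (hlogz z hzS)
      have hmt0 : 0 ≤ mt G F z := mt_nonneg hM (hFK z hz')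
      have hmtpos : 0 < mt G F z := by
        rcases hmt0.lt_or_eq with h | h
        · exact h
        · rw [← h, zero_mul] at hpos
          exact absurd hpos (lt_irrefl _)
      have h1 := hM.sub F z (hFa z hz') (by
        filter_upwards [hopen.mem_nhds hz'] with y hy
        exact hFK y hy) hmtpos
      have h2 := Sub.log_rpow (z₀ := z) hz'.2 hz1 hC'0.le
      have h3 := Sub.of_holo (h := fun z : ℂ => z) (z₀ := z) analyticAt_id hz'.2
      have h4 := extB_sub_exp hg b 1 (z₀ := z) hz'.2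
      refine ⟨_, ?_, (((h1.mul h2).mul h3).mul h4).congr (Eventually.of_forall fun y => ?_)⟩
      · rw [add_zero, add_zero]
        have hmtL : mt G F z ≤ L / (‖z‖ * Real.log (1 / ‖z‖)) := by
          rw [le_div_iff₀ (by positivity)]
          exact hgr z hz'.2 hz1
        have hsq : mt G F z ^ 2 ≤ L ^ 2 / (‖z‖ ^ 2 * Real.log (1 / ‖z‖) ^ 2) := by
          calc mt G F z ^ 2 ≤ (L / (‖z‖ * Real.log (1 / ‖z‖))) ^ 2 := pow_le_pow_left₀ hmt0 hmtL 2
            _ = L ^ 2 / (‖z‖ ^ 2 * Real.log (1 / ‖z‖) ^ 2) := by rw [div_pow, mul_pow]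
        have h5 : C * mt G F z ^ 2 ≤ C * (L ^ 2 / (‖z‖ ^ 2 * Real.log (1 / ‖z‖) ^ 2)) :=
          mul_le_mul_of_nonneg_left hsq hC
        have h6 : C' / (4 * ‖z‖ ^ 2 * Real.log (1 / ‖z‖) ^ 2) =
            C * (L ^ 2 / (‖z‖ ^ 2 * Real.log (1 / ‖z‖) ^ 2)) + 1 / (4 * ‖z‖ ^ 2 * Real.log (1 / ‖z‖) ^ 2) := by
          rw [hC']
          field_simp
        rw [h6]
        have h7 : 0 < 1 / (4 * ‖z‖ ^ 2 * Real.log (1 / ‖z‖) ^ 2) := by positivity
        linarith
      · simp only [hw]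
        rw [one_mul]
        ring
    · intro z hz
      have hzS := hz.1
      have hz' := hSsub hzS
      have hz0 : 0 < ‖z‖ := hr.trans_le hzS.1
      have hz1 : ‖z‖ < 1 := hzS.2.trans_lt hr2
      have hl := hlog1.trans_le (hlogz z hzS)
      have hmt0 : 0 ≤ mt G F z := mt_nonneg hM (hFK z hz')
      have h1 : Real.log (1 / ‖z‖) ^ (-C') = Real.log (1 / ‖z‖) * Real.log (1 / ‖z‖) ^ (-(C' + 1)) := by
        have : (-C') = 1 + (-(C' + 1)) := by ring
        rw [this, Real.rpow_add hl, Real.rpow_one]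
      have h2 : Real.log (1 / ‖z‖) ^ (-(C' + 1)) ≤ Real.log (1 / r₁) ^ (-(C' + 1)) :=
        Real.rpow_le_rpow_of_nonpos hlog1 (hlogz z hzS) (by linarith)
      have h3 := hgr z hz'.2 hz1
      have h4 := hsph2 z hz
      have h5 : 0 ≤ Real.log (1 / ‖z‖) ^ (-(C' + 1)) := Real.rpow_nonneg hl.le _
      have h6 : 0 ≤ ‖F z‖ ^ (-c₀) * Real.exp (w z) := by
        have := hFn z hz'
        positivity
      calc mt G F z * (‖F z‖ ^ (-c₀) * Real.log (1 / ‖z‖) ^ (-C') * ‖z‖ * Real.exp (w z))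
          = (mt G F z * (‖z‖ * Real.log (1 / ‖z‖))) * (‖F z‖ ^ (-c₀) * Real.exp (w z)) *
            Real.log (1 / ‖z‖) ^ (-(C' + 1)) := by rw [h1]; ring
        _ ≤ L * Real.exp 1 * Real.log (1 / r₁) ^ (-(C' + 1)) := by
          refine mul_le_mul (mul_le_mul h3 h4 h6 hL.le) h2 h5 (by positivity)
        _ = Real.exp 1 * L * Real.log (1 / r₁) ^ (-(C' + 1)) := by ring
  refine ⟨g, b, hg, fun z hz1 hz2 => ?_⟩
  have hzS : z ∈ S := ⟨hz1, hz2⟩
  have hz' := hSsub hzS
  constructor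
  · have h1 := hA' z hzS
    have h2 : ‖F z‖ ^ c₀ = ‖F z‖ ^ c₀ * Real.exp (-(w z)) * Real.exp (w z) := by
      rw [mul_assoc, ← Real.exp_add]
      simp
    rw [h2]
    exact mul_le_mul_of_nonneg_right h1 (Real.exp_nonneg _)
  · have h1 := hB z hzS
    have h2 : ‖F z‖ ^ (-c₀) * ‖F z‖ ^ c₀ = 1 := by
      rw [← Real.rpow_add (hFn z hz')]
      simp
    have h3 : (4 * C * L ^ 2 + 2) = C' + 1 := by rw [hC']; ring
    rw [h3]
    have h4 : 0 ≤ ‖F z‖ ^ c₀ := Real.rpow_nonneg (norm_nonneg _) _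
    calc mt G F z * Real.log (1 / ‖z‖) ^ (-C') * ‖z‖ * Real.exp ((g z).re + b * Real.log ‖z‖)
        = mt G F z * Real.log (1 / ‖z‖) ^ (-C') * ‖z‖ * Real.exp (w z) * (‖F z‖ ^ (-c₀) * ‖F z‖ ^ c₀) := by
          rw [h2, mul_one]
      _ = mt G F z * (‖F z‖ ^ (-c₀) * Real.log (1 / ‖z‖) ^ (-C') * ‖z‖ * Real.exp (w z)) * ‖F z‖ ^ c₀ := by ring
      _ ≤ Real.exp 1 * L * Real.log (1 / r₁) ^ (-(C' + 1)) * ‖F z‖ ^ c₀ := mul_le_mul_of_nonneg_right h1 h4

end Pool.Agent.H36.BP
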