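import Pool.Agent.H36.BP.Defs

/-!
# BP GDefs: data for the gluing step

`Kc` is the closed cone of the compact surface, `K ⊆ Kc` the cone of the surface without the curve `D ⊆ B`, `B` the exceptional curve.
-/

set_option autoImplicit false

namespace Pool.Agent.H36.BP

open Filter Topology

variable {N : ℕ}

/-- tangent vectors of a cone -/
def Tan (K : Set (EN N)) (x v : EN N) : Prop :=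
  ∃ F : ℂ → EN N, AnalyticAt ℂ F 0 ∧ (∀ᶠ z in 𝓝 (0 : ℂ), F z ∈ K) ∧ F 0 = x ∧ deriv F 0 = v

/-- the distance to `B` on the cone `K` -/
structure RhoData (K B : Set (EN N)) (ρ : EN N → ℝ) (D : ℝ) : Prop where
  D_nonneg : 0 ≤ D
  nonneg : ∀ x ∈ K, 0 ≤ ρ x
  cont : ContinuousOn ρ K
  smul : ∀ x ∈ K, ∀ c : ℂ, c ≠ 0 → ρ (c • x) = ρ x
  zero : ∀ x ∈ K, ρ x = 0 ↔ x ∈ B
  sub : ∀ (F : ℂ → EN N) (z₀ : ℂ), AnalyticAt ℂ F z₀ → (∀ᶠ z in 𝓝 z₀, F z ∈ K) → 0 < ρ (F z₀) →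
    Sub (fun z => ρ (F z)) z₀ (-(D * fs (F z₀) (deriv F z₀) ^ 2))
  isol : ∀ (F : ℂ → EN N) (z₀ : ℂ), AnalyticAt ℂ F z₀ → (∀ᶠ z in 𝓝 z₀, F z ∈ K) →
    (∃ᶠ z in 𝓝[≠] z₀, ρ (F z) = 0) → ∀ᶠ z in 𝓝 z₀, F z ∈ B
  lim : ∀ (l : Filter ℕ), l.NeBot → ∀ (F : ℕ → ℂ → EN N) (H : ℂ → EN N) (z₀ : ℂ) (s : ℝ), 0 < s →
    (∀ᶠ n in l, Curve K (Metric.ball z₀ s) (F n)) → TendstoLocallyUniformlyOn F H l (Metric.ball z₀ s) → H z₀ ≠ 0 →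
    (∀ z ∈ Metric.ball z₀ s, H z ∉ K) → ∀ ε : ℝ, 0 < ε → ∀ᶠ n in l, ρ (F n z₀) < ε

/-- metrics `n i` on chart domains `P i` with interior parts `O i`, near `B` -/
structure NearData (K B : Set (EN N)) (ρ : EN N → ℝ) (c₀ : ℝ) {ι : Type} (P O : ι → Set (EN N)) (n : ι → EN N → EN N → ℝ)
    (δ : ℝ) (M₀ : ℕ) (c₁ C₁ : ℝ) : Prop where
  δ_pos : 0 < δ
  c₁_pos : 0 < c₁
  C₁_nonneg : 0 ≤ C₁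
  P_smul : ∀ i, ∀ x ∈ K, x ∈ P i → ∀ c : ℂ, c ≠ 0 → c • x ∈ P i
  P_closed : ∀ i, ∀ x ∈ K, x ∉ P i → ∀ᶠ y in 𝓝 x, y ∈ K → y ∉ P i
  O_open : ∀ i, ∀ x ∈ K, x ∈ O i → ∀ᶠ y in 𝓝 x, y ∈ K → y ∈ P i
  nonneg : ∀ i, ∀ x ∈ K, x ∈ P i → ∀ v, 0 ≤ n i x v
  usc : ∀ i, ∀ x ∈ K, x ∈ P i → ∀ v, ∀ a : ℝ, n i x v < a → ∀ᶠ p in 𝓝 (x, v), p.1 ∈ K → p.1 ∈ P i → n i p.1 p.2 < a
  inv : ∀ i, ∀ x ∈ K, x ∈ P i → ∀ v (c a : ℂ), c ≠ 0 → n i (c • x) (c • v + a • x) = n i x v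
  hom : ∀ i, ∀ x ∈ K, x ∈ P i → ∀ v (c : ℂ), n i x (c • v) = ‖c‖ * n i x v
  zero : ∀ i, ∀ x ∈ K, x ∈ P i → x ∈ B → ∀ v, n i x v = 0
  sub : ∀ i, ∀ (F : ℂ → EN N) (z₀ : ℂ), AnalyticAt ℂ F z₀ → (∀ᶠ z in 𝓝 z₀, F z ∈ K) → F z₀ ∈ O i → ρ (F z₀) ≤ δ →
    0 < n i (F z₀) (deriv F z₀) → Sub (fun z => n i (F z) (deriv F z) * ‖F z‖ ^ (-c₀)) z₀ 0
  dom : ∀ i, ∀ x ∈ K, x ∈ P i → x ∉ O i → ρ x ≤ δ → ∀ v, Tan K x v → 0 < n i x v → ∃ i', x ∈ P i' ∧ n i x v < n i' x v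
  lower : ∀ x ∈ K, ρ x ≤ δ → ∀ v, Tan K x v → ∃ i, x ∈ P i ∧ c₁ * ρ x ^ M₀ * fs x v ≤ n i x v
  upper : ∀ i, ∀ x ∈ K, x ∈ P i → ρ x = δ → ∀ v, n i x v ≤ C₁ * fs x v
  lim : ∀ i, ∀ (l : Filter ℕ), l.NeBot → ∀ (F : ℕ → ℂ → EN N) (H : ℂ → EN N) (z₀ : ℂ) (s : ℝ), 0 < s →
    (∀ᶠ k in l, Curve K (Metric.ball z₀ s) (F k)) → TendstoLocallyUniformlyOn F H l (Metric.ball z₀ s) → H z₀ ≠ 0 →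
    (∀ z ∈ Metric.ball z₀ s, H z ∉ K) → ∀ ε : ℝ, 0 < ε → ∀ᶠ k in l, F k z₀ ∈ P i → mt (n i) (F k) z₀ < ε

open Classical in
/-- the maximum of the near metrics -/
noncomputable def nearMax {ι : Type} [Fintype ι] (P : ι → Set (EN N)) (n : ι → EN N → EN N → ℝ) (ρ : EN N → ℝ) (δ : ℝ) (x v : EN N) : ℝ :=
  Finset.univ.fold max 0 (fun i => if x ∈ P i ∧ ρ x ≤ δ then n i x v else 0)

end Pool.Agent.H36.BP
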