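import Pool.Agent.H36.BP.GDefs
import Pool.Agent.H36.BP.WdA

/-!
# BP GlueA: the maximum of the near metrics

`Finset.le_fold_max`, `Finset.fold_max_le`, `Finset.fold_max_lt`, `Finset.lt_fold_max`.
`nearMax_usc`: for every `i`: if `x ∉ P i` then `P_closed`; if `ρ x > δ` then `ρ > δ` near `x` in `K` (`RhoData.cont`); if `x ∈ P i`, `ρ x ≤ δ` then `usc`; all values are `< a` near `(x, v)`, and `0 ≤ nearMax < a`.
-/

set_option autoImplicit false

namespace Pool.Agent.H36.BP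

open Filter Topology Metric

variable {N : ℕ} {K B : Set (EN N)} {ρ : EN N → ℝ} {c₀ : ℝ} {ι : Type} [Fintype ι] {P O : ι → Set (EN N)} {n : ι → EN N → EN N → ℝ}
  {δ : ℝ} {M₀ : ℕ} {c₁ C₁ D : ℝ}

theorem nearMax_nonneg (x v : EN N) : 0 ≤ nearMax P n ρ δ x v := by
  classical
  unfold nearMax
  exact (Finset.le_fold_max _).2 (Or.inl le_rfl)

theorem le_nearMax {x v : EN N} {i : ι} (hx : x ∈ P i) (hρ : ρ x ≤ δ) : n i x v ≤ nearMax P n ρ δ x v := by
  classical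
  unfold nearMax
  refine (Finset.le_fold_max _).2 (Or.inr ⟨i, Finset.mem_univ i, ?_⟩)
  rw [if_pos ⟨hx, hρ⟩]

/-- a positive value is attained -/
theorem nearMax_attained {x v : EN N} (h : 0 < nearMax P n ρ δ x v) :
    ∃ i, x ∈ P i ∧ ρ x ≤ δ ∧ nearMax P n ρ δ x v = n i x v := by
  classical
  obtain ⟨m, hm⟩ : ∃ m : ℝ, m = nearMax P n ρ δ x v := ⟨_, rfl⟩
  rw [← hm] at h ⊢
  have h1 : m ≤ nearMax P n ρ δ x v := hm.le
  have h2 : nearMax P n ρ δ x v ≤ m := hm.ge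
  unfold nearMax at h1 h2
  rw [Finset.le_fold_max] at h1
  rw [Finset.fold_max_le] at h2
  rcases h1 with h1 | ⟨i, _, h1⟩
  · exact absurd h1 (not_le.2 h)
  · have h3 := h2.2 i (Finset.mem_univ i)
    by_cases hc : x ∈ P i ∧ ρ x ≤ δ
    · rw [if_pos hc] at h1 h3
      exact ⟨i, hc.1, hc.2, le_antisymm h1 h3⟩
    · rw [if_neg hc] at h1
      exact absurd h1 (not_le.2 h)

/-- all values are small -/
private theorem GlueA_lt {x v : EN N} {a : ℝ} (ha : 0 < a) (h : ∀ i, x ∈ P i → ρ x ≤ δ → n i x v < a) :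
    nearMax P n ρ δ x v < a := by
  classical
  unfold nearMax
  refine (Finset.fold_max_lt _).2 ⟨ha, fun i _ => ?_⟩
  by_cases hc : x ∈ P i ∧ ρ x ≤ δ
  · rw [if_pos hc]
    exact h i hc.1 hc.2
  · rw [if_neg hc]
    exact ha

private theorem GlueA_le {x v : EN N} {a : ℝ} (ha : 0 ≤ a) (h : ∀ i, x ∈ P i → ρ x ≤ δ → n i x v ≤ a) :
    nearMax P n ρ δ x v ≤ a := by
  classical
  unfold nearMax
  refine (Finset.fold_max_le _).2 ⟨ha, fun i _ => ?_⟩
  by_cases hc : x ∈ P i ∧ ρ x ≤ δ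
  · rw [if_pos hc]
    exact h i hc.1 hc.2
  · rw [if_neg hc]
    exact ha

theorem nearMax_usc (hR : RhoData K B ρ D) (hN : NearData K B ρ c₀ P O n δ M₀ c₁ C₁) {x : EN N} (hx : x ∈ K) (v : EN N) {a : ℝ}
    (h : nearMax P n ρ δ x v < a) : ∀ᶠ p in 𝓝 (x, v), p.1 ∈ K → nearMax P n ρ δ p.1 p.2 < a := by
  have ha : 0 < a := (nearMax_nonneg x v).trans_lt h
  have hfst : Tendsto (fun p : EN N × EN N => p.1) (𝓝 (x, v)) (𝓝 x) := continuous_fst.continuousAt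
  have key : ∀ i, ∀ᶠ p in 𝓝 (x, v), p.1 ∈ K → p.1 ∈ P i → ρ p.1 ≤ δ → n i p.1 p.2 < a := by
    intro i
    by_cases hP : x ∈ P i
    · by_cases hδ : ρ x ≤ δ
      · filter_upwards [hN.usc i x hx hP v a ((le_nearMax hP hδ).trans_lt h)] with p hp h1 h2 _
        exact hp h1 h2
      · have h1 : ∀ᶠ y in 𝓝[K] x, δ < ρ y := (hR.cont x hx).eventually (lt_mem_nhds (not_le.1 hδ))
        rw [eventually_nhdsWithin_iff] at h1
        filter_upwards [hfst.eventually h1] with p hp h2 _ h3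
        exact absurd h3 (not_le.2 (hp h2))
    · filter_upwards [hfst.eventually (hN.P_closed i x hx hP)] with p hp h1 h2 _
      exact absurd h2 (hp h1)
  filter_upwards [eventually_all.2 key] with p hp h1
  exact GlueA_lt ha fun i h2 h3 => hp i h1 h2 h3

theorem nearMax_inv (hsm : ∀ x ∈ K, ∀ c : ℂ, c ≠ 0 → c • x ∈ K) (hR : RhoData K B ρ D) (hN : NearData K B ρ c₀ P O n δ M₀ c₁ C₁) {x : EN N}
    (hx : x ∈ K) (v : EN N) (c a : ℂ) (hc : c ≠ 0) : nearMax P n ρ δ (c • x) (c • v + a • x) = nearMax P n ρ δ x v := by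
  have hρ : ρ (c • x) = ρ x := hR.smul x hx c hc
  have hP : ∀ i, c • x ∈ P i → x ∈ P i := by
    intro i hi
    have h1 := hN.P_smul i (c • x) (hsm x hx c hc) hi c⁻¹ (inv_ne_zero hc)
    rwa [smul_smul, inv_mul_cancel₀ hc, one_smul] at h1
  apply le_antisymm
  · refine GlueA_le (nearMax_nonneg x v) fun i h1 h2 => ?_
    rw [hN.inv i x hx (hP i h1) v c a hc]
    exact le_nearMax (hP i h1) (by rw [← hρ]; exact h2)
  · refine GlueA_le (nearMax_nonneg _ _) fun i h1 h2 => ?_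
    rw [← hN.inv i x hx h1 v c a hc]
    exact le_nearMax (hN.P_smul i x hx h1 c hc) (by rw [hρ]; exact h2)

theorem nearMax_hom (hN : NearData K B ρ c₀ P O n δ M₀ c₁ C₁) {x : EN N} (hx : x ∈ K) (v : EN N) (c : ℂ) :
    nearMax P n ρ δ x (c • v) = ‖c‖ * nearMax P n ρ δ x v := by
  apply le_antisymm
  · refine GlueA_le (mul_nonneg (norm_nonneg _) (nearMax_nonneg x v)) fun i h1 h2 => ?_
    rw [hN.hom i x hx h1 v c]
    exact mul_le_mul_of_nonneg_left (le_nearMax h1 h2) (norm_nonneg _)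
  · rcases (nearMax_nonneg (P := P) (n := n) (ρ := ρ) (δ := δ) x v).eq_or_lt with h0 | h0
    · rw [← h0, mul_zero]
      exact nearMax_nonneg _ _
    · obtain ⟨i, h1, h2, h3⟩ := nearMax_attained h0
      rw [h3, ← hN.hom i x hx h1 v c]
      exact le_nearMax h1 h2

theorem nearMax_zero (hN : NearData K B ρ c₀ P O n δ M₀ c₁ C₁) {x : EN N} (hx : x ∈ K) (hB : x ∈ B) (v : EN N) :
    nearMax P n ρ δ x v = 0 := by
  apply le_antisymm _ (nearMax_nonneg x v)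
  refine GlueA_le le_rfl fun i h1 _ => ?_
  rw [hN.zero i x hx h1 hB v]

theorem nearMax_lim (hN : NearData K B ρ c₀ P O n δ M₀ c₁ C₁) (l : Filter ℕ) (hl : l.NeBot) (F : ℕ → ℂ → EN N) (H : ℂ → EN N) (z₀ : ℂ) (s : ℝ)
    (hs : 0 < s) (hF : ∀ᶠ k in l, Curve K (Metric.ball z₀ s) (F k)) (hH : TendstoLocallyUniformlyOn F H l (Metric.ball z₀ s)) (h0 : H z₀ ≠ 0)
    (hK : ∀ z ∈ Metric.ball z₀ s, H z ∉ K) (ε : ℝ) (hε : 0 < ε) : ∀ᶠ k in l, mt (nearMax P n ρ δ) (F k) z₀ < ε := by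
  have key : ∀ i, ∀ᶠ k in l, F k z₀ ∈ P i → mt (n i) (F k) z₀ < ε := fun i =>
    hN.lim i l hl F H z₀ s hs hF hH h0 hK ε hε
  filter_upwards [eventually_all.2 key] with k hk
  exact GlueA_lt hε fun i h1 _ => hk i h1

end Pool.Agent.H36.BP
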