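import Pool.Agent.H36.BP.GDefs
import Pool.Agent.H36.BP.SubC

/-!
# BP RhoP: the distance to a set of common zeros of forms of the same degree

`ρ x = max_i |Q i x| / |x|^D`.
* `sub`: at `z₀` let `i` be the index with `|Q i (F z₀)|` maximal, `> 0`; `|Q i (F z)| ≤ max`, equality at `z₀`; `Q i (F z)` is holomorphic: exponent `0` (`Sub.of_holo`), `|F|^(-D)`: exponent `-D e²/2` (`Sub.norm_rpow` with `a = -D`); `Sub.mono`.
* `isol`: each `Q i (F z)` vanishes frequently, so near `z₀` (identity theorem at a point).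
* `lim`: `F n z₀ → H z₀ ∈ closure K`, so `Q i (H z₀) = 0` for all `i` and `ρ (F n z₀) → ρ (H z₀) = 0`.
* `smul`: homogeneity.
-/

set_option autoImplicit false

namespace Pool.Agent.H36.BP

open Filter Topology Metric

variable {N : ℕ}

private theorem RhoP_analytic (q : MvPolynomial (Fin (N + 1)) ℂ) {F : ℂ → EN N} {z₀ : ℂ} (hF : AnalyticAt ℂ F z₀) :
    AnalyticAt ℂ (fun z => MvPolynomial.eval (F z).ofLp q) z₀ := by
  have h : ∀ i : Fin (N + 1), AnalyticAt ℂ (fun z => (F z).ofLp i) z₀ := by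
    intro i
    exact ((EuclideanSpace.proj (𝕜 := ℂ) (ι := Fin (N + 1)) i : EN N →L[ℂ] ℂ).analyticAt (F z₀)).comp hF
  have := AnalyticAt.aeval_mvPolynomial (𝕜 := ℂ) h q
  simpa [MvPolynomial.aeval_eq_eval] using this

private theorem RhoP_cont (q : MvPolynomial (Fin (N + 1)) ℂ) :
    Continuous (fun x : EN N => MvPolynomial.eval x.ofLp q) :=
  (MvPolynomial.continuous_eval q).comp (PiLp.continuous_ofLp 2 (fun _ : Fin (N + 1) => ℂ))

private theorem RhoP_hom {q : MvPolynomial (Fin (N + 1)) ℂ} {D : ℕ} (hq : q.IsHomogeneous D) (c : ℂ) (x : EN N) :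
    MvPolynomial.eval (c • x).ofLp q = c ^ D * MvPolynomial.eval x.ofLp q := by
  rw [MvPolynomial.eval_eq', MvPolynomial.eval_eq', Finset.mul_sum]
  apply Finset.sum_congr rfl
  intro d hd
  have hdeg : ∑ i, d i = D := by
    have := hq (MvPolynomial.mem_support_iff.1 hd)
    rw [Finsupp.weight_apply] at this
    simpa [Finsupp.sum_fintype] using this
  have h1 : ∏ i, (c • x).ofLp i ^ d i = c ^ D * ∏ i, x.ofLp i ^ d i := by
    rw [← hdeg, ← Finset.prod_pow_eq_pow_sum, ← Finset.prod_mul_distrib]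
    apply Finset.prod_congr rfl
    intro i _
    simp [mul_pow]
  rw [h1]
  ring

theorem rhoData_poly {K : Set (EN N)} {r : ℕ} {Q : Fin r → MvPolynomial (Fin (N + 1)) ℂ} {D : ℕ} (hQ : ∀ i, (Q i).IsHomogeneous D)
    (hne : ∀ x ∈ K, x ≠ 0) (hD : ∀ x ∈ closure K, x ≠ 0 → x ∉ K → ∀ i, MvPolynomial.eval x.ofLp (Q i) = 0) :
    RhoData K {x | ∀ i, MvPolynomial.eval x.ofLp (Q i) = 0} (fun x => ‖fun i => MvPolynomial.eval x.ofLp (Q i)‖ / ‖x‖ ^ D) ((D : ℝ) / 2) := by
  have hcontq : Continuous (fun x : EN N => (fun i => MvPolynomial.eval x.ofLp (Q i) : Fin r → ℂ)) :=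
    continuous_pi fun i => RhoP_cont (Q i)
  have hcontAt : ∀ x : EN N, x ≠ 0 → ContinuousAt (fun x : EN N => ‖fun i => MvPolynomial.eval x.ofLp (Q i)‖ / ‖x‖ ^ D) x := by
    intro x hx
    apply ContinuousAt.div hcontq.norm.continuousAt (continuous_norm.pow D).continuousAt
    exact pow_ne_zero _ (norm_ne_zero_iff.2 hx)
  have hzero : ∀ x : EN N, x ≠ 0 → (‖fun i => MvPolynomial.eval x.ofLp (Q i)‖ / ‖x‖ ^ D = 0 ↔ ∀ i, MvPolynomial.eval x.ofLp (Q i) = 0) := by
    intro x hx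
    rw [div_eq_zero_iff]
    constructor
    · rintro (h | h)
      · intro i
        exact congrFun (norm_eq_zero.1 h) i
      · exact absurd h (pow_ne_zero _ (norm_ne_zero_iff.2 hx))
    · intro h
      left
      rw [norm_eq_zero]
      exact funext h
  refine ⟨by positivity, fun x _ => by positivity, ?_, ?_, ?_, ?_, ?_, ?_⟩
  · intro x hx
    exact (hcontAt x (hne x hx)).continuousWithinAt
  · intro x _ c hc
    have h1 : (fun i => MvPolynomial.eval (c • x).ofLp (Q i)) = c ^ D • (fun i => MvPolynomial.eval x.ofLp (Q i)) := by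
      funext i
      simp only [Pi.smul_apply, smul_eq_mul]
      exact RhoP_hom (hQ i) c x
    change ‖fun i => MvPolynomial.eval (c • x).ofLp (Q i)‖ / ‖c • x‖ ^ D = _
    rw [h1, norm_smul, norm_smul, norm_pow, mul_pow]
    exact mul_div_mul_left _ _ (pow_ne_zero _ (norm_ne_zero_iff.2 hc))
  · intro x hx
    exact hzero x (hne x hx)
  · intro F z₀ hF hK hpos
    have hF0 : F z₀ ≠ 0 := hne _ hK.self_of_nhds
    have hr : Nonempty (Fin r) := by
      by_contra h
      rw [not_nonempty_iff] at h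
      have : (fun i => MvPolynomial.eval (F z₀).ofLp (Q i)) = 0 := funext fun i => h.elim i
      simp only [this, norm_zero, zero_div, lt_irrefl] at hpos
    obtain ⟨i, hi⟩ := Finite.exists_max (fun i => ‖MvPolynomial.eval (F z₀).ofLp (Q i)‖)
    have hnorm : ‖fun i => MvPolynomial.eval (F z₀).ofLp (Q i)‖ = ‖MvPolynomial.eval (F z₀).ofLp (Q i)‖ :=
      le_antisymm ((pi_norm_le_iff_of_nonneg (norm_nonneg _)).2 hi) (norm_le_pi_norm (fun i => MvPolynomial.eval (F z₀).ofLp (Q i)) i)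
    have hq0 : MvPolynomial.eval (F z₀).ofLp (Q i) ≠ 0 := by
      intro h0
      rw [hnorm, h0, norm_zero, zero_div] at hpos
      exact lt_irrefl _ hpos
    have hS := (Sub.of_holo (RhoP_analytic (Q i) hF) hq0).mul (Sub.norm_rpow hF hF0 (-(D : ℝ)))
    have hexp : (0 : ℝ) + (-(D : ℝ)) * fs (F z₀) (deriv F z₀) ^ 2 / 2 = -((D : ℝ) / 2 * fs (F z₀) (deriv F z₀) ^ 2) := by ring
    rw [hexp] at hS
    refine hS.mono ?_ ?_
    · rw [hnorm, Real.rpow_neg (norm_nonneg _), Real.rpow_natCast, div_eq_mul_inv]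
    · refine Eventually.of_forall fun z => ?_
      rw [Real.rpow_neg (norm_nonneg _), Real.rpow_natCast, div_eq_mul_inv]
      exact mul_le_mul_of_nonneg_right (norm_le_pi_norm (fun i => MvPolynomial.eval (F z).ofLp (Q i)) i) (by positivity)
  · intro F z₀ hF hK hfreq
    have hK' : ∀ᶠ z in 𝓝[≠] z₀, F z ∈ K := hK.filter_mono nhdsWithin_le_nhds
    have h : ∀ i, ∀ᶠ z in 𝓝 z₀, MvPolynomial.eval (F z).ofLp (Q i) = 0 := by
      intro i
      rw [← (RhoP_analytic (Q i) hF).frequently_zero_iff_eventually_zero]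
      refine (hfreq.and_eventually hK').mono ?_
      rintro z ⟨hz, hzK⟩
      exact (hzero _ (hne _ hzK)).1 hz i
    exact eventually_all.2 h
  · intro l hl F H z₀ s hs hC hT hH0 hHK ε hε
    have hz : z₀ ∈ ball z₀ s := mem_ball_self hs
    have ht : Tendsto (fun n => F n z₀) l (𝓝 (H z₀)) := hT.tendsto_at hz
    have hcl : H z₀ ∈ closure K := by
      apply mem_closure_of_tendsto ht
      filter_upwards [hC] with n hn using hn.2 z₀ hz
    have hq := (hzero (H z₀) hH0).2 (hD (H z₀) hcl hH0 (hHK z₀ hz))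
    have h2 := (hcontAt (H z₀) hH0).tendsto.comp ht
    change Tendsto (fun n => ‖fun i => MvPolynomial.eval (F n z₀).ofLp (Q i)‖ / ‖F n z₀‖ ^ D) l (𝓝 (‖fun i => MvPolynomial.eval (H z₀).ofLp (Q i)‖ / ‖H z₀‖ ^ D)) at h2
    rw [hq] at h2
    exact h2.eventually (gt_mem_nhds hε)

end Pool.Agent.H36.BP
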